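import Pool.Agent.MP_c853c5_nt.DT.Defs

/-! Averaging over all selections. -/

set_option autoImplicit false

open Finset Filter Real

namespace Pool.Agent.MP_c853c5_nt.DT

open DS

theorem upd_Avg {ι : Type} [Fintype ι] [DecidableEq ι] (t : Finset ℕ) (a : ι)
    (F : (ι → ℕ) → ℝ) :
    (t.card : ℝ) * ∑ j ∈ Fintype.piFinset fun _ : ι => t, F j =
      ∑ j ∈ Fintype.piFinset fun _ : ι => t, ∑ i ∈ t, F (Function.update j a i) := by
  have h1 : (t.card : ℝ) * ∑ j ∈ Fintype.piFinset fun _ : ι => t, F j =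
      ∑ x ∈ (Fintype.piFinset fun _ : ι => t) ×ˢ t, F x.1 := by
    rw [sum_product, mul_sum]
    simp only [sum_const, nsmul_eq_mul]
  have h2 : ∀ x ∈ (Fintype.piFinset fun _ : ι => t) ×ˢ t,
      (Function.update x.1 a x.2, x.1 a) ∈ (Fintype.piFinset fun _ : ι => t) ×ˢ t := by
    intro x hx
    rw [mem_product, Fintype.mem_piFinset] at hx ⊢
    refine ⟨fun c => ?_, hx.1 a⟩
    by_cases h : c = a
    · subst h
      simpa using hx.2
    · simpa [Function.update_of_ne h] using hx.1 c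
  rw [h1, ← sum_product' (f := fun j i => F (Function.update j a i))]
  exact sum_nbij' (fun x => (Function.update x.1 a x.2, x.1 a))
    (fun x => (Function.update x.1 a x.2, x.1 a)) h2 h2 (fun x _ => by simp) (fun x _ => by simp)
    (fun x _ => by simp)

theorem two_Avg {ι : Type} [Fintype ι] [DecidableEq ι] (t : Finset ℕ) {a b : ι} (hab : a ≠ b)
    (f : ℕ → ℕ → ℝ) :
    (t.card : ℝ) ^ 2 * ∑ j ∈ Fintype.piFinset fun _ : ι => t, f (j a) (j b) =
      ((Fintype.piFinset fun _ : ι => t).card : ℝ) * ∑ i ∈ t, ∑ i' ∈ t, f i i' := by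
  rw [sq, mul_assoc, upd_Avg t a]
  simp only [Function.update_self, Function.update_of_ne hab.symm]
  rw [upd_Avg t b]
  simp only [Function.update_self, sum_const, nsmul_eq_mul]
  rw [sum_comm]

theorem avg_stmt : AvgStmt := by
  intro D J n T φ W hJ hn h0 hW
  classical
  obtain ⟨m, rfl⟩ : ∃ m, n = m + 1 := ⟨n - 1, by omega⟩
  set P := Fintype.piFinset fun _ : D => range J with hP
  have hN : (0 : ℝ) < P.card := by
    have h1 : P.Nonempty := ⟨fun _ => 0, Fintype.mem_piFinset.2 fun _ => mem_range.2 hJ⟩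
    exact_mod_cast h1.card_pos
  let Y : ℕ → (D → ℕ) → ℝ := fun s j => ∑ a : D, ∑ b : D, φ s a (j a) b (j b)
  have hY : ∀ j ∈ P, ∑ s ∈ T, |Y s j| ^ (m + 1) ≤ W := by
    intro j hj
    have h1 := hW (fun a => if h : a ∈ D then j ⟨a, h⟩ else 0) fun a => by
      by_cases h : a ∈ D
      · rw [dif_pos h]
        exact mem_range.1 (Fintype.mem_piFinset.1 hj _)
      · rw [dif_neg h]
        exact hJ
    refine le_of_eq_of_le (sum_congr rfl fun s _ => ?_) h1
    congr 2
    rw [← sum_coe_sort D]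
    refine sum_congr rfl fun a _ => ?_
    rw [← sum_coe_sort D]
    refine sum_congr rfl fun b _ => ?_
    rw [dif_pos a.2, dif_pos b.2]
  have hX : ∀ s, (P.card : ℝ) * ∑ a ∈ D, ∑ i ∈ range J, ∑ b ∈ D, ∑ i' ∈ range J, φ s a i b i' =
      (J : ℝ) ^ 2 * ∑ j ∈ P, Y s j := by
    intro s
    rw [sum_comm (s := P), mul_sum, mul_sum, ← sum_coe_sort D]
    refine sum_congr rfl fun a _ => ?_
    rw [sum_comm (s := P), sum_comm (s := range J), mul_sum, mul_sum, ← sum_coe_sort D]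
    refine sum_congr rfl fun b _ => ?_
    by_cases h : a = b
    · subst h
      simp only [h0, sum_const_zero, mul_zero]
    · have h1 := two_Avg (range J) h fun i i' => φ s a i b i'
      rw [card_range] at h1
      exact h1.symm
  refine le_of_mul_le_mul_left ?_ (pow_pos hN (m + 1))
  calc (P.card : ℝ) ^ (m + 1) * ∑ s ∈ T,
        |∑ a ∈ D, ∑ i ∈ range J, ∑ b ∈ D, ∑ i' ∈ range J, φ s a i b i'| ^ (m + 1)
      = ∑ s ∈ T, ((J : ℝ) ^ 2) ^ (m + 1) * |∑ j ∈ P, Y s j| ^ (m + 1) := by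
        rw [mul_sum]
        refine sum_congr rfl fun s _ => ?_
        rw [← mul_pow, ← mul_pow, ← abs_of_pos hN, ← abs_mul, hX, abs_mul,
          abs_of_nonneg (sq_nonneg _)]
    _ ≤ ∑ s ∈ T, ((J : ℝ) ^ 2) ^ (m + 1) * (P.card ^ m * ∑ j ∈ P, |Y s j| ^ (m + 1)) := by
        refine sum_le_sum fun s _ => mul_le_mul_of_nonneg_left ?_ (by positivity)
        exact (pow_le_pow_left₀ (abs_nonneg _) (abs_sum_le_sum_abs _ _) _).trans
          (pow_sum_le_card_mul_sum_pow (fun _ _ => abs_nonneg _) m)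
    _ = ((J : ℝ) ^ 2) ^ (m + 1) * (P.card ^ m * ∑ j ∈ P, ∑ s ∈ T, |Y s j| ^ (m + 1)) := by
        rw [← mul_sum, ← mul_sum, sum_comm]
    _ ≤ ((J : ℝ) ^ 2) ^ (m + 1) * (P.card ^ m * (P.card * W)) := by
        refine mul_le_mul_of_nonneg_left (mul_le_mul_of_nonneg_left ?_ (by positivity))
          (by positivity)
        simpa using sum_le_card_nsmul P _ W hY
    _ = (P.card : ℝ) ^ (m + 1) * (((J : ℝ) ^ 2) ^ (m + 1) * W) := by ring

end Pool.Agent.MP_c853c5_nt.DT
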