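import Pool.Agent.MP_c853c5_nt.DT.Defs
import Pool.Agent.MP_c853c5_nt.DS.Blk

/-! Cutting a quadratic form into translated cells, several points for each prime. -/

set_option autoImplicit false

open Finset Filter Real

namespace Pool.Agent.MP_c853c5_nt.DT

open DS

/-- the least `q` with `c * a ≤ Q * q` -/
def q0_Blk (Q c a : ℕ) : ℕ := (c * a + Q - 1) / Q

lemma range_Blk {K Q J j c a t : ℕ} (ha : 0 < a) (ha' : a < 2 * K) (hj : j ≤ 2) (hQ : 1 ≤ Q)
    (hJ : 4 * K ≤ J * Q) (h : In_Blk Q j c (a, t)) : ∃ i, i < J ∧ t = q0_Blk Q c a + i := by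
  obtain ⟨b1, b2⟩ := (in_iff_Blk ha).1 h
  have h1 := Nat.div_add_mod (c * a + Q - 1) Q
  have h2 := Nat.mod_lt (c * a + Q - 1) hQ
  have h3 : q0_Blk Q c a < t + 1 := by
    rw [q0_Blk, Nat.div_lt_iff_lt_mul hQ, add_mul, mul_comm t]
    omega
  have h4 : j * a ≤ 2 * a := Nat.mul_le_mul_right _ hj
  have h5 : t < q0_Blk Q c a + J := by
    refine Nat.lt_of_mul_lt_mul_left (a := Q) ?_
    rw [add_mul] at b2
    rw [mul_add, mul_comm Q J, q0_Blk]
    omega
  exact ⟨t - q0_Blk Q c a, by omega, by omega⟩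

open Classical in
lemma sel_Blk {K Q J j c : ℕ} {D₀ : Finset ℕ} (R : Finset ℕ) (hD : PrK K D₀) (hj : j ≤ 2)
    (hQ : 1 ≤ Q) (hJ : 4 * K ≤ J * Q) (s : ℕ) (φ : ℕ × ℕ → ℝ) :
    ∑ u ∈ D₀ ×ˢ R, (if In_Blk Q j (c + Q * s) u then φ u else 0) =
      ∑ a ∈ D₀, ∑ i ∈ range J,
        if In_Blk Q j c (a, q0_Blk Q c a + i) ∧ q0_Blk Q c a + i + s * a ∈ R then
          φ (a, q0_Blk Q c a + i + s * a) else 0 := by
  rw [sum_product]
  refine sum_congr rfl fun a ha => ?_
  obtain ⟨k0, -, k2⟩ := hD a ha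
  rw [← sum_filter, ← sum_filter]
  refine (sum_bij (fun i _ => q0_Blk Q c a + i + s * a) (fun i hi => ?_)
    (fun i _ i' _ h => by omega) (fun p hp => ?_) fun _ _ => rfl).symm
  · obtain ⟨-, h1, h2⟩ := mem_filter.1 hi
    exact mem_filter.2 ⟨h2, (shift_Blk k0.pos).2 h1⟩
  · obtain ⟨h1, h2⟩ := mem_filter.1 hp
    obtain ⟨t, rfl⟩ := unshift_Blk k0.pos hQ h2
    rw [shift_Blk k0.pos] at h2
    obtain ⟨i, hi, rfl⟩ := range_Blk k0.pos k2 hj hQ hJ h2
    exact ⟨i, mem_filter.2 ⟨mem_range.2 hi, h2, h1⟩, rfl⟩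

theorem blk_stmt (hO : OpStmt) (hA : AvgStmt) : BlkStmt := by
  classical
  intro K P Λ H Q J r D₀ G α W hr hΛ hD hK hP hQ hQH hJ hG hG' hα hW
  set R := Icc P (Λ * P) with hR
  set S := Λ * P / K + 1 with hS
  set s₀ := P / (4 * K) with hs₀
  have hQ0 : 0 < Q := by omega
  have hJ1 : 1 ≤ J := Nat.pos_of_ne_zero fun h => by rw [h] at hJ; omega
  have a1 : s₀ * (4 * K) ≤ P := Nat.div_mul_le_self _ _
  have a2 : P < (s₀ + 1) * (4 * K) := (Nat.div_lt_iff_lt_mul (by omega)).1 (Nat.lt_succ_self _)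
  have a3 : 2 ≤ s₀ := (Nat.le_div_iff_mul_le (by omega)).2 (by omega)
  have a4 : Λ * P < S * K := (Nat.div_lt_iff_lt_mul (by omega)).1 (Nat.lt_succ_self _)
  set g : ℕ × ℕ → ℕ × ℕ → ℝ := fun u v => α u * α v * G u v with hg
  have key : ∀ j, j ≤ 2 → ∀ c, c < Q →
      ∑ s ∈ range S, |F_Blk (D₀ ×ˢ R) g Q j (s₀ * Q + c + Q * s)| ^ (2 * r) ≤
        (J ^ 2 * K : ℝ) ^ (2 * r) * W := by
    intro j hj c hc
    have hQ' : (0 : ℝ) < Q := by exact_mod_cast hQ0
    have hs : (P : ℝ) ≤ 8 * K * (((s₀ * Q + c : ℕ) : ℝ) / Q) ∧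
        K * (((s₀ * Q + c : ℕ) : ℝ) / Q) ≤ P := by
      constructor
      · rw [← mul_div_assoc, le_div_iff₀ hQ']
        have : P * Q ≤ 8 * K * (s₀ * Q + c) := by
          have b : P ≤ 8 * K * s₀ := by nlinarith
          calc P * Q ≤ 8 * K * s₀ * Q := Nat.mul_le_mul_right _ b
            _ ≤ 8 * K * (s₀ * Q + c) := by
              rw [mul_assoc (8 * K)]
              exact Nat.mul_le_mul_left _ (by omega)
        exact_mod_cast this
      · rw [← mul_div_assoc, div_le_iff₀ hQ']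
        have : K * (s₀ * Q + c) ≤ P * Q := by
          have b : K * (s₀ + 1) ≤ P := by nlinarith
          calc K * (s₀ * Q + c) ≤ K * ((s₀ + 1) * Q) :=
                Nat.mul_le_mul_left _ (by rw [add_mul]; omega)
            _ = K * (s₀ + 1) * Q := by ring
            _ ≤ P * Q := Nat.mul_le_mul_right _ b
        exact_mod_cast this
    generalize s₀ * Q + c = c₁ at hs
    have h := hA D₀ J (2 * r) (range S) (fun s a i b i' =>
      if In_Blk Q j c₁ (a, q0_Blk Q c₁ a + i) ∧ q0_Blk Q c₁ a + i + s * a ∈ R then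
        if In_Blk Q j c₁ (b, q0_Blk Q c₁ b + i') ∧ q0_Blk Q c₁ b + i' + s * b ∈ R then
          g (a, q0_Blk Q c₁ a + i + s * a) (b, q0_Blk Q c₁ b + i' + s * b) else 0 else 0)
      ((K : ℝ) ^ (2 * r) * W) hJ1 (by omega) (fun s a i i' => ?_) fun jj _ => ?_
    · rw [mul_pow, mul_assoc]
      refine le_trans (le_of_eq (sum_congr rfl fun s _ => ?_)) h
      congr 2
      unfold F_Blk
      rw [sel_Blk R hD hj hQ hJ]
      refine sum_congr rfl fun a _ => sum_congr rfl fun i _ => ?_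
      split_ifs with h1
      · rw [sel_Blk R hD hj hQ hJ]
      · simp only [sum_const_zero]
    · split_ifs
      · exact mul_eq_zero_of_right _ (by_contra fun h0 => (hG' _ _ h0).1 rfl)
      · rfl
      · rfl
    · obtain ⟨D, hD1⟩ : ∃ D, D = D₀.filter fun a => In_Blk Q j c₁ (a, q0_Blk Q c₁ a + jj a) :=
        ⟨_, rfl⟩
      obtain ⟨q, hq⟩ : ∃ q : ℕ → ℕ, q = fun a => q0_Blk Q c₁ a + jj a := ⟨_, rfl⟩
      have hq' : ∀ a, q0_Blk Q c₁ a + jj a = q a := fun a => by rw [hq]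
      simp only [hq'] at hD1 ⊢
      have hsub : D ⊆ D₀ := hD1 ▸ filter_subset _ _
      have hc1 : D.card ≤ K := PrK.card_le fun k hk => hD k (hsub hk)
      have hw := hW D q ((c₁ : ℝ) / Q) hsub hs.1 hs.2 fun k hk =>
        cell_Blk (hD k (hsub hk)).1.pos hQ0 hj (by
          rw [hD1] at hk
          exact (mem_filter.1 hk).2)
      refine le_trans ?_ (mul_le_mul_of_nonneg_left hw (by positivity))
      rw [mul_sum]
      refine sum_le_sum fun s _ => ?_
      refine le_trans (le_of_eq ?_) ((hO D (loc G R q s) (fun a => α (a, q a + s * a)) r hr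
        (fun a b => ?_) fun a => hα _).trans (mul_le_mul_of_nonneg_right ?_ (by positivity)))
      · congr 2
        rw [hD1, sum_filter]
        refine sum_congr rfl fun a _ => ?_
        rw [sum_filter]
        by_cases h1 : In_Blk Q j c₁ (a, q a)
        · rw [if_pos h1]
          refine sum_congr rfl fun b _ => ?_
          by_cases h2 : In_Blk Q j c₁ (b, q b) <;> by_cases h3 : q a + s * a ∈ R <;>
            by_cases h4 : q b + s * b ∈ R <;> simp [loc, hg, h1, h2, h3, h4]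
        · simp [h1]
      · unfold loc
        rw [hG]
        exact if_congr and_comm rfl rfl
      · exact pow_le_pow_left₀ (by positivity) (by exact_mod_cast hc1) _
  have tot := total_Blk (D₀ ×ˢ R) g Q (s₀ * Q) (Q * S) ?_ ?_
  · rw [reidx_Blk] at tot
    have h1 : |∑ u ∈ D₀ ×ˢ R, ∑ v ∈ D₀ ×ˢ R, g u v| ≤
        ∑ z ∈ (({1, 2} : Finset ℕ) ×ˢ range Q) ×ˢ range S,
          |F_Blk (D₀ ×ˢ R) g Q z.1.1 (s₀ * Q + z.1.2 + Q * z.2)| := by
      rw [tot, sum_product, sum_product, sum_pair (by norm_num), ← sum_add_distrib]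
      refine (abs_sum_le_sum_abs _ _).trans (sum_le_sum fun c _ => ?_)
      rw [← sum_add_distrib]
      refine (abs_sum_le_sum_abs _ _).trans (sum_le_sum fun s _ => ?_)
      rw [← add_assoc, add_comm |_|]
      exact abs_sub _ _
    refine (pow_le_pow_left₀ (abs_nonneg _) h1 _).trans ?_
    have h2 := pow_sum_le_card_mul_sum_pow
      (s := (({1, 2} : Finset ℕ) ×ˢ range Q) ×ˢ range S)
      (f := fun z => |F_Blk (D₀ ×ˢ R) g Q z.1.1 (s₀ * Q + z.1.2 + Q * z.2)|)
      (fun _ _ => abs_nonneg _) (2 * r - 1)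
    rw [show 2 * r - 1 + 1 = 2 * r by omega, card_product, card_product, card_range, card_range,
      card_pair (by norm_num)] at h2
    refine h2.trans ?_
    push_cast
    rw [mul_assoc ((2 * Q * S : ℝ) ^ (2 * r - 1))]
    refine mul_le_mul_of_nonneg_left ?_ (by positivity)
    rw [sum_product]
    refine (sum_le_card_nsmul _ _ ((J ^ 2 * K : ℝ) ^ (2 * r) * W) fun z hz => ?_).trans ?_
    · obtain ⟨z1, z2⟩ := mem_product.1 hz
      refine key z.1 ?_ z.2 (mem_range.1 z2)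
      simp only [mem_insert, mem_singleton] at z1
      omega
    · rw [card_product, card_range, card_pair (by norm_num), nsmul_eq_mul]
      push_cast
      exact le_of_eq (by ring)
  · rintro ⟨k, p⟩ hu
    obtain ⟨u1, u2⟩ := mem_product.1 hu
    obtain ⟨-, k1, k2⟩ := hD k u1
    obtain ⟨p1, p2⟩ := mem_Icc.1 u2
    dsimp only at k1 k2 p1 p2 ⊢
    constructor
    · rw [Nat.le_div_iff_mul_le (by omega)]
      have b1 : s₀ * (2 * k) ≤ P := le_trans (Nat.mul_le_mul_left _ (by omega)) a1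
      have b2 : Q * (s₀ * (2 * k)) ≤ Q * p := Nat.mul_le_mul_left _ (b1.trans p1)
      have b3 : 1 * k ≤ s₀ * Q * k := Nat.mul_le_mul_right _ (Nat.mul_pos (by omega) hQ0)
      nlinarith
    · refine lt_of_lt_of_le ?_ (Nat.le_add_left _ _)
      rw [Nat.div_lt_iff_lt_mul (by omega), mul_assoc]
      exact Nat.mul_lt_mul_of_pos_left
        (p2.trans_lt (a4.trans_le (Nat.mul_le_mul_left _ k1))) hQ0
  · intro u hu v hv h0
    obtain ⟨-, b2, b3⟩ := hG' u v (right_ne_zero_of_mul h0)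
    have k1 := (hD _ (mem_product.1 hu).1).2.1
    have k2 := (hD _ (mem_product.1 hv).1).2.1
    exact ⟨near_Blk hK k1 k2 hQH b2, near_Blk hK k2 k1 hQH b3⟩

end Pool.Agent.MP_c853c5_nt.DT
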