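import Pool.Agent.MP_c853c5_nt.DT.Defs
import Pool.Agent.MP_c853c5_nt.DS.E3d
import Pool.Agent.MP_c853c5_nt.DS.Geo

/-!
From exponents to sizes, and the final bound.
-/

set_option autoImplicit false

open Finset Filter Real
open scoped ComplexConjugate

namespace Pool.Agent.MP_c853c5_nt.DT

open Pool.Agent.MP_88bd62_nt.U (ex)
open DS
open S (AF Slot prI Dl)

theorem geo_stmt : GeoStmt := by
  intro r η hr hη
  have hr2 : (2 : ℝ) ≤ r := by exact_mod_cast hr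
  obtain ⟨γ, hγ, hrγ⟩ : ∃ γ : ℝ, 0 < γ ∧ r * γ = η / 16 :=
    ⟨η / (16 * r), by positivity, by field_simp⟩
  have hγη : γ ≤ η / 32 := by nlinarith
  refine ⟨η / 4, γ, by positivity, hγ, ?_⟩
  filter_upwards [eventually_gt_atTop 1,
    (tendsto_rpow_atTop hγ).eventually_ge_atTop 2] with x hx h2
  intro τ t₁ a₀ a₂ a₁ M K P ht1 ht2 ht3 ht4 hD hM hK1 hK2 hP1 hP2 hN X hX1 hX2
  have hx0 : 0 < x := by linarith
  obtain ⟨d1, d2, d3, d4, d5, d6, d7, d8, d9⟩ := hD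
  have hM0 : (0 : ℝ) < M := (rpow_pos_of_pos hx0 _).trans_le hM
  have hK0 : (0 : ℝ) < K := (rpow_pos_of_pos hx0 _).trans_le hK1
  have hP0 : (0 : ℝ) < P := (rpow_pos_of_pos hx0 _).trans_le hP1
  have hX0 : 0 < X := by linarith
  have hL0 : 0 < Lm X (x ^ (-t₁)) K P := one_pos.trans_le (one_le_Lm _ _ _ _)
  obtain ⟨mm, hm⟩ := exists_rpow_Geo hx hM0
  obtain ⟨kk, hk⟩ := exists_rpow_Geo hx hK0
  obtain ⟨pp, hp⟩ := exists_rpow_Geo hx hP0
  obtain ⟨xx, hxx⟩ := exists_rpow_Geo hx hX0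
  obtain ⟨ll, hl⟩ := exists_rpow_Geo hx hL0
  have up : ∀ {a b : ℝ}, a ≤ b → x ^ a ≤ x ^ b := fun h => rpow_le_rpow_of_exponent_le hx.le h
  have dn : ∀ {a b : ℝ}, x ^ a ≤ x ^ b → a ≤ b := fun h => (rpow_le_rpow_left_iff hx).1 h
  have m1 : a₀ - γ ≤ mm := dn (hm ▸ hM)
  have k1 : a₂ - γ ≤ kk := dn (hk ▸ hK1)
  have k2 : kk ≤ a₂ + γ := dn (hk ▸ hK2)
  have p1 : a₁ - γ ≤ pp := dn (hp ▸ hP1)
  have p2 : pp ≤ a₁ + γ := dn (hp ▸ hP2)
  have x1 : 1 ≤ xx + γ := by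
    refine dn ?_
    rw [rpow_add hx0, rpow_one, ← hxx]
    have e1 := mul_le_mul_of_nonneg_left h2 hX0.le
    linarith
  have n1 : mm + (kk + pp) ≤ γ + 1 := by
    refine dn ?_
    rw [rpow_add hx0, rpow_add hx0, rpow_add hx0, rpow_one, ← hm, ← hk, ← hp]
    exact hN.trans (mul_le_mul_of_nonneg_right h2 hx0.le)
  have k0a : (0 : ℝ) ≤ max 0 (τ - a₀) := le_max_left _ _
  have k0b : τ - a₀ ≤ max 0 (τ - a₀) := le_max_right _ _
  generalize max 0 (τ - a₀) = k₀ at *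
  have l1 : ll ≤ k₀ + 3 * γ := by
    refine dn ?_
    rw [← hl]
    refine max_le (one_le_rpow hx.le (by linarith)) ?_
    rw [hk, hp, hxx, ← rpow_add hx0, ← rpow_add hx0, ← rpow_sub hx0]
    exact up (by linarith)
  have l2 : r * ll ≤ r * k₀ + 3 * (η / 16) := by
    have e1 := mul_le_mul_of_nonneg_left l1 (Nat.cast_nonneg r : (0 : ℝ) ≤ r)
    linarith
  have hinv : 1 / x ^ (-t₁) = x ^ t₁ := by rw [rpow_neg hx0.le, one_div, inv_inv]
  have c1 : ((r - 1 : ℕ) : ℝ) = r - 1 := by rw [Nat.cast_sub (by omega), Nat.cast_one]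
  have c2 : ((2 * r - 2 : ℕ) : ℝ) = 2 * r - 2 := by
    rw [Nat.cast_sub (by omega)]
    push_cast
    ring
  refine ⟨hX1, hX2, up (by linarith), up (by linarith), Nat.cast_pos.1 hK0, Nat.cast_pos.1 hP0,
    ?_, ?_, ?_, ?_, ?_, ?_, ?_, ?_, ?_⟩
  · rw [hp, hk, ← rpow_add hx0, ← rpow_add hx0]
    exact up (by linarith)
  · rw [hl, hk, hp, ← rpow_add hx0, ← rpow_add hx0, pow_Geo hx0, pow_Geo hx0, ← rpow_add hx0, c1]
    refine up ?_
    have e1 : (r - 1) * (a₁ + a₂ - τ - 2 * γ) ≤ (r - 1) * (kk + pp + -t₁) :=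
      mul_le_mul_of_nonneg_left (by linarith) (by linarith)
    linarith
  · rw [hk, hp, hxx, ← rpow_add hx0, pow_Geo hx0, ← rpow_add hx0, c2]
    refine up ?_
    have e1 : (2 * r - 2) * kk ≤ (2 * r - 2) * (a₂ + γ) :=
      mul_le_mul_of_nonneg_left (by linarith) (by linarith)
    linarith
  · have e1 : zb (1 / x ^ (-t₁)) (P / K) ≤ x ^ (min (t₁ / 2) (t₁ / 6 + (pp - kk) / 2)) := by
      rw [zb, hinv, hk, hp, ← rpow_sub hx0, sqrt_Geo hx0, sqrt_Geo hx0, ← rpow_mul hx0.le,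
        ← rpow_add hx0]
      rcases min_choice (t₁ / 2) (t₁ / 6 + (pp - kk) / 2) with h | h
      · rw [h]
        exact min_le_left _ _
      · rw [h]
        exact (min_le_right _ _).trans (up (by linarith))
    refine (mul_le_mul_of_nonneg_right (mul_le_mul_of_nonneg_left e1 (by positivity))
      (by positivity)).trans ?_
    rw [hl, hk, hp, pow_Geo hx0, ← rpow_add hx0, ← rpow_add hx0, ← rpow_sub hx0]
    refine up ?_
    have e2 := min_le_left (t₁ / 2) (t₁ / 6 + (pp - kk) / 2)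
    have e3 := min_le_right (t₁ / 2) (t₁ / 6 + (pp - kk) / 2)
    push_cast
    rcases min_choice (τ / 2) (τ / 6 + (a₁ - a₂) / 2) with h | h
    · rw [h] at d4
      linarith
    · rw [h] at d4
      linarith
  · rw [hl, hk, ← rpow_add hx0]
    exact up (by linarith)
  · rw [hl, hk, hp, hxx, pow_Geo hx0, ← rpow_add hx0, ← rpow_add hx0, ← rpow_add hx0,
      ← rpow_add hx0]
    refine up ?_
    push_cast
    linarith
  · rw [hl, hp, hinv, pow_Geo hx0, sqrt_Geo hx0, ← rpow_add hx0, ← rpow_add hx0]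
    refine up ?_
    push_cast
    linarith
  · rw [hl, hk, pow_Geo hx0, pow_Geo hx0, ← rpow_add hx0, c1]
    refine up ?_
    have e1 : (r - 1) * (a₂ - γ) ≤ (r - 1) * kk :=
      mul_le_mul_of_nonneg_left (by linarith) (by linarith)
    linarith
  · rw [hl, hp, pow_Geo hx0, sqrt_Geo hx0, ← rpow_add hx0, ← rpow_add hx0]
    refine up ?_
    push_cast
    linarith

theorem e3d_of (hT : TriStmt) (hG : GeoStmt) (hB : BoxVStmt) (hL : L2Stmt) (hR : GrpStmt)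
    (hP : Z.PrStmt) : E3D := by
  intro ι _ τ t η K A ht htτ hτ hη
  classical
  set k := Fintype.card ι with hk
  have h2 : 0 < η / 2 := by positivity
  have hΛ : 1 ≤ 2 ^ k := Nat.one_le_two_pow
  have keyG := fun r : {r : Fin (K + 1) // 2 ≤ (r : ℕ)} => hG r.1 η r.2 hη
  choose μ γG hμ hγG hGq using keyG
  have keyT := fun r : {r : Fin (K + 1) // 2 ≤ (r : ℕ)} =>
    hT r.1 (2 ^ k) A (k ^ 2 + 1) (μ r) r.2 hΛ (hμ r)
  choose ε hε hTq using keyT
  have keyB := fun q : {q : ι × ι // q.1 ≠ q.2} =>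
    hB ι K (2 * A + (k ^ 2 + 1) + 2) η (η / 2) q.1.1 q.1.2 q.2 hη h2
  choose f hf hq using keyB
  have hγG' : ∀ r, 0 < γG r / (k + 1) := fun r => div_pos (hγG r) (by positivity)
  obtain ⟨γ, ⟨hγ2, hγ3⟩, hγ, hγ1⟩ := (((eventually_all.2 fun q => Ioc_mem_nhdsGT (hf q)).and
    (eventually_all.2 fun r => Ioc_mem_nhdsGT (hγG' r))).and (Ioc_mem_nhdsGT h2)).exists
  refine ⟨γ, hγ, ?_⟩
  filter_upwards [eventually_all.2 hq, eventually_all.2 hGq, eventually_all.2 hTq,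
    eventually_all.2 fun r => div_E3d k (2 ^ k) (hε r), l2_E3d hL k (2 ^ k) hΛ,
    E.prime_slot hP h2 (show (0 : ℝ) < 1 / 2000 by norm_num) (2 * A + (k ^ 2 + 1) + 2 + 2),
    E.ev_le_log 1, eventually_ge_atTop 1]
    with x hx hxG hxT hd hl2 hp l1 x1 pr a N g ha hE hS hN hpr hle
  obtain ⟨B, i, j, r, hr2, hrK, hiB, hjB, hij, hi, aj, hD, hE⟩ := hE
  have x0 : 0 < x := by linarith
  let r' : {r : Fin (K + 1) // 2 ≤ (r : ℕ)} := ⟨⟨r, by omega⟩, hr2⟩
  set R := (univ \ B).erase i with hRdef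
  have ai : η ≤ a i := by linarith [hD.2.2.2.2.1, le_max_left 0 (τ - ∑ l ∈ B, a l)]
  have low : ∀ l, η ≤ a l → x ^ (η / 2) ≤ (N l : ℝ) := fun l hl =>
    (Real.rpow_le_rpow_of_exponent_le x1 (by linarith)).trans (hN l).1
  obtain ⟨P, Q, hg⟩ := hpr i hi
  have sz := size_E3d x1 hγ.le (hγ3 r').2 hN
  have hM1 : ∀ C : Finset ι, 1 ≤ ∏ l ∈ C, N l := fun C =>
    Nat.succ_le_of_lt (prod_pos fun l _ => (hS l).1)
  have hM1' : ∀ C : Finset ι, (1 : ℝ) ≤ (∏ l ∈ C, N l : ℕ) := fun C => by exact_mod_cast hM1 C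
  have hK1 : (1 : ℝ) ≤ N i := by exact_mod_cast (hS i).1
  have hle' : ((∏ l ∈ B, N l : ℕ) : ℝ) * (N i * (∏ l ∈ R, N l : ℕ)) ≤ 2 * x := by
    rw [split_E3d hiB] at hle
    push_cast
    rwa [← mul_assoc]
  have hKP : (1 : ℝ) ≤ N i * (∏ l ∈ R, N l : ℕ) := one_le_mul_of_one_le_of_one_le hK1 (hM1' R)
  have hMx : ((∏ l ∈ B, N l : ℕ) : ℝ) ≤ 2 * x :=
    (le_mul_of_one_le_right (Nat.cast_nonneg _) hKP).trans hle'
  have hPx : ((∏ l ∈ R, N l : ℕ) : ℝ) ≤ 2 * x :=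
    ((le_mul_of_one_le_left (Nat.cast_nonneg _) hK1).trans
      (le_mul_of_one_le_left (by positivity) (hM1' B))).trans hle'
  have hsup : ∀ (C : Finset ι) (n : ℕ), (∏ l ∈ C, g l) n ≠ 0 →
      n ∈ Icc (∏ l ∈ C, N l) (2 ^ k * ∏ l ∈ C, N l) := fun C n hn =>
    Icc_subset_Icc_right (Nat.mul_le_mul_right _ (Nat.pow_le_pow_right two_pos (card_le_univ C)))
      ((hR ι C N g fun l _ => hS l).1 n hn)
  have hbd : ∀ C : Finset ι, ((∏ l ∈ C, N l : ℕ) : ℝ) ≤ 2 * x → ∀ n,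
      |(∏ l ∈ C, g l) n| ≤ x ^ ε r' := by
    intro C hC n
    by_cases hn : (∏ l ∈ C, g l) n = 0
    · rw [hn, abs_zero]
      positivity
    refine ((hR ι C N g fun l _ => hS l).2.2.1 n).trans (hd r' n _ (card_le_univ C) ?_)
    have h3 : (n : ℝ) ≤ (2 ^ k * ∏ l ∈ C, N l : ℕ) := by
      exact_mod_cast (mem_Icc.1 (hsup C n hn)).2
    rw [Nat.cast_mul] at h3
    exact h3.trans (mul_le_mul_of_nonneg_left hC (Nat.cast_nonneg _))
  have hDs : ∀ n, g i n ≠ 0 → n ∈ (Ico (N i) (2 * N i)).filter Nat.Prime := by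
    intro n hn
    refine mem_filter.2 ⟨mem_Ico.2 ((hS i).2.2 n hn), ?_⟩
    by_contra h0
    simp [hg, prI, h0] at hn
  have ht1 : max t (τ - η / 2) ≤ τ := max_le htτ.le (by linarith)
  have ht2 : 1 / 3 ≤ max t (τ - η / 2) := ht.trans (le_max_left _ _)
  have hγi : γ ≤ γG r' := (hγ3 r').2.trans (div_le_self (hγG r').le (by simp))
  rw [split_E3d hiB]
  refine hxT r' t (max t (τ - η / 2)) (∏ l ∈ B, N l) (N i) (∏ l ∈ R, N l)
    ((Ico (N i) (2 * N i)).filter Nat.Prime) _ _ _ ht (le_max_left _ _)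
    (hxG r' τ _ _ _ _ _ _ _ ht2 ht1 hτ (le_max_right _ _) hD (sz B).1
      ((Real.rpow_le_rpow_of_exponent_le x1 (by linarith)).trans (hN i).1)
      ((hN i).2.trans (Real.rpow_le_rpow_of_exponent_le x1 (by linarith))) (sz R).1 (sz R).2 hle')
    (fun n hn => ⟨(mem_filter.1 hn).2, mem_Ico.1 (mem_filter.1 hn).1⟩) (hM1 B) hle' (hsup B) hDs
    (hsup R) (hbd B hMx) (hS i).2.1 (hbd R hPx)
    (hl2 _ _ _ (card_le_univ B) (hM1 B) hMx (hR ι B N g fun l _ => hS l).2.1) ?_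
  have hf' := (hγ2 ⟨(j, i), hij.symm⟩).2
  have eT : Real.log x / x ^ (-max t (τ - η / 2)) = x ^ max t (τ - η / 2) * Real.log x := by
    rw [Real.rpow_neg x0.le, div_inv_eq_mul, mul_comm]
  have hsum : ∑ l, (if l ∈ B then 0 else a l) = ∑ l ∈ univ \ B, a l := by
    rw [← sum_sdiff (subset_univ B), sum_eq_zero (s := B) fun l hl => if_pos hl, add_zero]
    exact sum_congr rfl fun l hl => if_neg (mem_sdiff.1 hl).2
  have hRB : ∀ l ∈ R, l ∉ B := fun l hl => (mem_sdiff.1 (mem_of_mem_erase hl)).2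
  have b1 := hx ⟨(j, i), hij.symm⟩ τ (Real.log x / x ^ (-max t (τ - η / 2)))
    (fun l => if l ∈ B then 0 else a l) (fun l => if l ∈ B then 1 else N l)
    (fun l => if l ∈ B then fun n => if n = 1 then 1 else 0 else g l) (by linarith) hτ
    (by
      rw [eT]
      exact (Real.rpow_le_rpow_of_exponent_le x1 (by linarith)).trans
        (le_mul_of_one_le_right (by positivity) l1))
    (by
      rw [eT]
      exact mul_le_mul_of_nonneg_right (Real.rpow_le_rpow_of_exponent_le x1 ht1) (by linarith))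
    (fun l => by
      split_ifs
      · exact ⟨le_rfl, zero_le_one⟩
      · exact ha l)
    (by
      rw [hsum]
      exact hE)
    (fun l => by
      split_ifs
      · refine ⟨le_rfl, ?_, ?_⟩
        · simpa using Real.rpow_le_one_of_one_le_of_nonpos x1 (neg_nonpos.2 (hγ.le.trans hf'))
        · simpa using Real.one_le_rpow x1 (hγ.le.trans hf')
      · exact ⟨(hS l).1, (Real.rpow_le_rpow_of_exponent_le x1 (by linarith)).trans (hN l).1,
          (hN l).2.trans (Real.rpow_le_rpow_of_exponent_le x1 (by linarith))⟩)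
    (by simpa only [if_neg hjB] using low j aj)
    (fun l n => by
      split_ifs
      · beta_reduce
        split_ifs <;> simp
      · exact (hS l).2.1 n)
    (fun s h3 h4 => by
      simp only [if_neg hiB, hg]
      exact hp _ P Q s (low i ai) h3 h4)
  refine le_of_eq_of_le (intervalIntegral.integral_congr fun u _ => ?_) (b1.trans_eq ?_)
  · have hfp : E.FP (Icc (∏ l ∈ R, N l) (2 ^ k * ∏ l ∈ R, N l)) (⇑(∏ l ∈ R, g l)) u =
        ∏ l ∈ R, E.BP (N l) (g l) u := (hR ι R N g fun l _ => hS l).2.2.2 _ u (hsup R)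
    rw [split_E3d hiB, prod_eq_one (s := B) fun l hl => by
      rw [if_pos hl, if_pos hl, BP_one_E3d, norm_one, one_pow], one_mul, if_neg hiB, if_neg hiB,
      hfp, norm_prod, ← prod_pow]
    congr 1
    · rw [E.BP, FP_eq_E3d hDs fun n hn =>
        mem_Icc.2 ⟨((hS i).2.2 n hn).1, ((hS i).2.2 n hn).2.le⟩]
    · exact prod_congr rfl fun l hl => by rw [if_neg (hRB l hl), if_neg (hRB l hl)]
  · rw [split_E3d hiB, prod_eq_one (s := B) fun l hl => by rw [if_pos hl, Nat.cast_one],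
      one_mul, if_neg hiB, Nat.cast_prod,
      prod_congr rfl fun l hl => by rw [if_neg (hRB l hl)]]

end Pool.Agent.MP_c853c5_nt.DT
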