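import Pool.Agent.MP_c853c5_nt.DT.Defs
import Pool.Agent.MP_c853c5_nt.DS.Loc

/-!
One cell.
-/

set_option autoImplicit false

open Finset Filter Real
open scoped ComplexConjugate

namespace Pool.Agent.MP_c853c5_nt.DT

open Pool.Agent.MP_88bd62_nt.U (ex)
open DS

theorem loc_stmt (hS : SumStmt) (hE : EdgeStmt) : LocStmt := by
  intro r hr
  obtain ⟨C₁, hC₁, hS⟩ := hS r hr
  obtain ⟨C₂, hC₂, hE⟩ := hE
  refine ⟨C₁ * (8 * C₂) ^ (2 * r), by positivity, ?_⟩
  intro K B H Q S P P' D q X Δ ρ w F hD hB hQ hK hcell hX hΔ hρ hw hSw hρX hlog hF hBw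
  have hK1 : 1 ≤ K := by omega
  have hK0 : (0 : ℝ) < K := by exact_mod_cast hK1
  have hρ0 : 0 < ρ := by linarith
  have hF0 : 0 ≤ F := by
    have h1 : 0 ≤ F * (ρ * K ^ 2) := by
      rw [← mul_assoc]
      exact le_trans (by positivity) hF
    exact nonneg_of_mul_nonneg_left h1 (by positivity)
  set Y : ℝ := X / (Δ * K ^ 2 * ρ) with hY
  have hY0 : 0 ≤ Y := by positivity
  have h := hS K B K S D X ρ w (8 * C₂ * w * Y) F
    (fun s => loc (G0 X Δ B H) (Icc P P') q s) (fun s => ff_Loc X Δ ρ H P P' q s) hD hB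
    ((Nat.le_mul_of_pos_left B (by positivity)).trans hB.le) hD.card_le hX hρ hw hSw hρX hlog hF
    (fun s a _ => by simp [loc, G0])
    (fun s a _ b _ _ => loc_eq_Loc X Δ ρ B H P P' q s a b)
    (fun a ha b hb h hh => by
      have h1 : nv S (fun s => if b * q a ≠ a * q b ∧ b * q a ≤ a * q b + H ∧
          a * q b ≤ b * q a + H then ed X Δ ρ q s a b h else 0) ≤ 2 * C₂ * w * Y := by
        by_cases h3 : b * q a ≠ a * q b ∧ b * q a ≤ a * q b + H ∧ a * q b ≤ b * q a + H
        · simp only [if_pos h3]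
          refine (hE X Δ ρ K Q H S a b q h hX hΔ hρ hK1 (hD a ha).2.1 (hD b hb).2.1 hQ hK
            (fun k hk => hcell k ?_) h3.2.1 h3.2.2).trans ?_
          · rcases mem_insert.1 hk with rfl | hk
            · exact ha
            · rw [mem_singleton.1 hk]
              exact hb
          · have h4 : |(h : ℝ)| * X * H / (K ^ 4 * ρ ^ 2) ≤ w := by
              rw [div_le_iff₀ (by positivity)]
              refine le_trans ?_ hBw
              have := abs_le_of_hs hh
              gcongr
            calc C₂ * Y * (1 + |(h : ℝ)| * X * H / (K ^ 4 * ρ ^ 2)) ≤ C₂ * Y * (w + w) := by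
                  gcongr
              _ = 2 * C₂ * w * Y := by ring
        · simp only [if_neg h3]
          rw [nv_const, norm_zero]
          positivity
      exact (nv_mul_le (nv_mul_le (nv_ind_Loc S P P' (q a) a) (nv_ind_Loc S P P' (q b) b))
        h1).trans_eq (by ring))
  refine h.trans (le_of_eq ?_)
  rw [mul_pow (8 * C₂ * w), mul_pow (8 * C₂), pow_add w]
  ring

end Pool.Agent.MP_c853c5_nt.DT
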