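import Pool.Agent.MP_c853c5_nt.DT.Defs
import Pool.Agent.MP_c853c5_nt.DS.Main

/-!
The main term of the dispersion when the last group is long.
-/

set_option autoImplicit false

open Finset Filter Real

namespace Pool.Agent.MP_c853c5_nt.DT

open DS

lemma fin_Long (m : ℕ) {T Q S J B K P X Δ Λ C w ZF s Z y g c L : ℝ} (hQ : 0 ≤ Q) (hS0 : 0 ≤ S)
    (hJ0 : 0 ≤ J) (hB0 : 0 ≤ B) (hK : 0 < K) (hP : 0 < P) (hΛ : 1 ≤ Λ)
    (hS : S ≤ 2 * Λ * (P / K)) (hX : 0 < X) (hΔ : 0 < Δ) (hC : 0 ≤ C)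
    (hw : 0 ≤ w) (hc : 1 ≤ c) (hL : 0 ≤ L) (hy : 0 ≤ y) (hZ : 0 ≤ Z)
    (hJ : J ≤ 17 * c * (P * Δ * g)) (hQP : Q * (P * Δ) ≤ K) (hB : B ≤ c * L)
    (h8 : L ^ (m + 1) * y ≤ K ^ m) (h4 : L ^ (2 * (m + 1)) * Z * y ≤ P / K)
    (hZF : ZF ≤ 16 * ((m + 1 : ℕ) : ℝ) * c * Z) (hs : s ≤ Z)
    (hT : T ≤ (2 * Q * S) ^ (2 * (m + 1) - 1) * (J ^ 2 * K) ^ (2 * (m + 1)) * (2 * Q *
      (C * w ^ (2 * (m + 1) + 6) * (8 * X / (Δ * (K * P))) ^ (2 * (m + 1)) *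
        (P / K * K ^ (m + 1 + 1) * B ^ (m + 1) +
          K ^ (2 * (m + 1)) * B ^ (2 * (m + 1)) * (ZF + s))))) :
    T * y ≤ (9248 * Λ * c ^ 2) ^ (2 * (m + 1)) * C * w ^ (2 * (m + 1) + 6) *
      ((8 * ((m + 1 : ℕ) : ℝ) + 2) * (2 * c) ^ (4 * (m + 1) + 1)) * (X * (K * P)) ^ (2 * (m + 1)) *
      g ^ (4 * (m + 1)) := by
  have hρ : 0 ≤ P / K := by positivity
  have a1 := inner_Main m hρ hK.le hB0 hc hK.le hL hy hZ (by nlinarith) hB h8 h4 hZF hs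
  have a2 := outer_Main m (H := J ^ 2 * K / 33) hQ hS0 (by positivity) hρ hΛ hS le_rfl rfl
  rw [mul_div_cancel₀ _ (by norm_num : (33 : ℝ) ≠ 0)] at a2
  have a3 : (132 * Λ * (Q * (J ^ 2 * K / 33) * (P / K))) ^ (2 * (m + 1)) *
      (8 * X / (Δ * (K * P))) ^ (2 * (m + 1)) * K ^ (2 * (m + 1)) ≤
      (9248 * Λ * c ^ 2) ^ (2 * (m + 1)) * (X * (K * P)) ^ (2 * (m + 1)) * g ^ (4 * (m + 1)) := by
    rw [show 4 * (m + 1) = 2 * (2 * (m + 1)) by ring, pow_mul g, ← mul_pow, ← mul_pow, ← mul_pow,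
      ← mul_pow]
    refine pow_le_pow_left₀ (by positivity) ?_ _
    calc 132 * Λ * (Q * (J ^ 2 * K / 33) * (P / K)) * (8 * X / (Δ * (K * P))) * K
        = 32 * Λ * X * (Q / Δ) * J ^ 2 := by
          field_simp
          ring
      _ ≤ 32 * Λ * X * (Q / Δ) * (17 * c * (P * Δ * g)) ^ 2 := by gcongr
      _ = 9248 * Λ * c ^ 2 * (X * (Q * (P * Δ) * P)) * g ^ 2 := by
          field_simp
          ring
      _ ≤ _ := by gcongr
  have p1 : 0 ≤ (2 * Q * S) ^ (2 * (m + 1) - 1) * (J ^ 2 * K) ^ (2 * (m + 1)) * (2 * Q) := by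
    positivity
  have p2 : 0 ≤ C * w ^ (2 * (m + 1) + 6) := by positivity
  have p3 : 0 ≤ (8 * X / (Δ * (K * P))) ^ (2 * (m + 1)) := by positivity
  have p4 : 0 ≤ (8 * ((m + 1 : ℕ) : ℝ) + 2) * (2 * c) ^ (4 * (m + 1) + 1) := by positivity
  have p5 : 0 ≤ K ^ (2 * (m + 1)) := by positivity
  generalize (P / K * K ^ (m + 1 + 1) * B ^ (m + 1) +
    K ^ (2 * (m + 1)) * B ^ (2 * (m + 1)) * (ZF + s)) = I at *
  generalize (8 * ((m + 1 : ℕ) : ℝ) + 2) * (2 * c) ^ (4 * (m + 1) + 1) = u at *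
  generalize (8 * X / (Δ * (K * P))) ^ (2 * (m + 1)) = v at *
  generalize K ^ (2 * (m + 1)) = e at *
  generalize (132 * Λ * (Q * (J ^ 2 * K / 33) * (P / K))) ^ (2 * (m + 1)) = o at *
  generalize (9248 * Λ * c ^ 2) ^ (2 * (m + 1)) = k at *
  generalize (X * (K * P)) ^ (2 * (m + 1)) = f at *
  generalize g ^ (4 * (m + 1)) = g' at *
  generalize w ^ (2 * (m + 1) + 6) = W at *
  generalize (2 * Q * S) ^ (2 * (m + 1) - 1) = a at *
  generalize (J ^ 2 * K) ^ (2 * (m + 1)) = b at *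
  generalize P / K = ρ at *
  calc T * y ≤ a * b * (2 * Q * (C * W * v * I)) * y := mul_le_mul_of_nonneg_right hT hy
    _ = a * b * (2 * Q) * (C * W) * v * (I * y) := by ring
    _ ≤ a * b * (2 * Q) * (C * W) * v * (ρ * u * e) :=
      mul_le_mul_of_nonneg_left a1 (mul_nonneg (mul_nonneg p1 p2) p3)
    _ = a * b * (2 * Q) * ρ * (C * W * v * u * e) := by ring
    _ ≤ o * (C * W * v * u * e) :=
      mul_le_mul_of_nonneg_right a2 (mul_nonneg (mul_nonneg (mul_nonneg p2 p3) p4) p5)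
    _ = o * v * e * (C * W * u) := by ring
    _ ≤ k * f * g' * (C * W * u) := mul_le_mul_of_nonneg_right a3 (mul_nonneg p2 p4)
    _ = _ := by ring

lemma facts_Long {m K P B H : ℕ} {x μ X Δ c : ℝ} (hm : 1 ≤ m) (G : Geo x μ (m + 1) X Δ K P)
    (hx : 1 ≤ x) (hc : 1 ≤ c) (hy : 8 * c ≤ x ^ μ)
    (hz : 2 * 4 ^ (2 * (m + 1) + 1) * c ≤ x ^ (1 / 400 : ℝ))
    (hB : (B : ℝ) ≤ c * (K * P / (X * Δ))) (hH1 : c * (K * P * Δ) ≤ H)
    (hH2 : (H : ℝ) ≤ c * (K * P * Δ) + 1) :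
    (B : ℝ) ≤ c * Lm X Δ K P ∧ (H : ℝ) ≤ 2 * c * (K * P * Δ) ∧ 1 ≤ H ∧ 4 * H ≤ K ^ 2 ∧
      4 ^ (2 * (m + 1) + 1) * B < K ∧ 8 * K ≤ P ∧ (K : ℝ) * P ≤ X ∧
      √((P : ℝ) / K) ≤ zb (1 / Δ) (P / K) := by
  have hx0 : 0 < x := by linarith
  have hΔ : 0 < Δ := (Real.rpow_pos_of_pos hx0 _).trans_le G.d1
  have hΔ1 : Δ ≤ 1 := G.d2.trans (Real.rpow_le_one_of_one_le_of_nonpos hx (by norm_num))
  have hK : (1 : ℝ) ≤ K := by exact_mod_cast G.k1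
  have hP : (1 : ℝ) ≤ P := by exact_mod_cast G.p1
  have hL := one_le_Lm X Δ K P
  have hL' := le_Lm X Δ K P
  have h1 := G.h1
  have h2 := G.h2
  have h3 := G.h3
  have h4 := G.h4
  have h5 := G.h5
  rw [Nat.add_sub_cancel] at h2
  have h44 : (4 : ℝ) ≤ 4 ^ (2 * (m + 1) + 1) := le_self_pow₀ (by norm_num) (by omega)
  generalize x ^ μ = y at *
  generalize x ^ (1 / 400 : ℝ) = z at *
  generalize Lm X Δ K P = L at *
  have hy1 : 1 ≤ y := by linarith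
  have hE0 : 0 ≤ (K : ℝ) * P * Δ := by positivity
  have hLE : L ≤ K * P * Δ := by
    rw [← pow_le_pow_iff_left₀ (by linarith) hE0 (show m ≠ 0 by omega)]
    refine le_trans ?_ h2
    exact (pow_le_pow_right₀ hL (Nat.le_succ m)).trans
      (le_mul_of_one_le_right (by positivity) hy1)
  have b1 : (B : ℝ) ≤ c * L := hB.trans (by gcongr)
  have b3 : 1 ≤ c * (K * P * Δ) := one_le_mul_of_one_le_of_one_le hc (hL.trans hLE)
  have hPΔ : 0 ≤ (P : ℝ) * Δ := by positivity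
  have b4 : 8 * c * (P * Δ) ≤ K := by nlinarith
  have b5 : 4 * (H : ℝ) ≤ K ^ 2 := by nlinarith
  have b6 : (4 : ℝ) ^ (2 * (m + 1) + 1) * B < K := by
    have : (4 : ℝ) ^ (2 * (m + 1) + 1) * B ≤ 4 ^ (2 * (m + 1) + 1) * (c * L) := by gcongr
    generalize (4 : ℝ) ^ (2 * (m + 1) + 1) = u at *
    nlinarith
  have b7 : (P : ℝ) / K ≤ 1 / Δ := by
    rw [div_le_div_iff₀ (by linarith) hΔ]
    nlinarith
  have b8 : √((P : ℝ) / K) ≤ zb (1 / Δ) (P / K) :=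
    sqrt_le_zb_Main b7 (one_le_one_div hΔ hΔ1)
  have b9 : (8 : ℝ) * K ≤ P := by
    have hρ : 0 < (P : ℝ) / K := by positivity
    have e := Real.mul_self_sqrt hρ.le
    have s0 := Real.sqrt_pos.2 hρ
    have p : 1 ≤ L ^ (2 * (m + 1)) := one_le_pow₀ hL
    have q : √((P : ℝ) / K) * y ≤ P / K := by
      refine le_trans ?_ h4
      refine mul_le_mul_of_nonneg_right (b8.trans ?_) (by linarith)
      exact le_mul_of_one_le_left (s0.le.trans b8) p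
    have q2 : y ≤ √((P : ℝ) / K) := by
      refine le_of_mul_le_mul_left ?_ s0
      rwa [e]
    rw [← le_div_iff₀ (by linarith), ← e]
    nlinarith
  have b10 : (K : ℝ) * P ≤ X :=
    (le_mul_of_one_le_left (by positivity) (one_le_pow₀ hK)).trans h3
  refine ⟨b1, by linarith, ?_, by exact_mod_cast b5, by exact_mod_cast b6,
    by exact_mod_cast b9, b10, b8⟩
  exact_mod_cast b3.trans hH1

lemma cond_Long {K P B H X Δ Λ l ρ w x : ℝ} (hx : 133 ≤ x) (hl : Real.log x = l) (hl1 : 1 ≤ l)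
    (hΛ : 1 ≤ Λ) (hK : 1 ≤ K) (hP : 1 ≤ P) (hH0 : 0 ≤ H) (hX : 0 < X) (hΔ : 0 < Δ)
    (hX2 : X ≤ 2 * x) (hN : K * P ≤ X) (hB : B ≤ 3 * Λ * l * (K * P / (X * Δ)))
    (hH : H ≤ 2 * (3 * Λ * l) * (K * P * Δ)) (h1 : P ≤ 8 * K * ρ)
    (hw : 1152 * Λ ^ 2 * l ^ 2 ≤ w) :
    Real.log (2 * K + 1) ≤ w ∧ B * X * H ≤ w * (K ^ 4 * ρ ^ 2) := by
  have hBX : B * X ≤ 3 * Λ * l * (K * P) * (1 / Δ) := by
    refine (mul_le_mul_of_nonneg_right hB hX.le).trans_eq ?_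
    field_simp
  have hN8 : K * P ≤ 8 * (ρ * K ^ 2) := by nlinarith
  constructor
  · have h2 : 1 ≤ Λ ^ 2 := one_le_pow₀ hΛ
    have h3 : l ≤ l ^ 2 := by nlinarith
    have h4 : 2 * l ≤ w := by nlinarith
    refine le_trans ?_ h4
    have hKX : K ≤ X := le_trans (by nlinarith) hN
    have : 2 * K + 1 ≤ x ^ 2 := by nlinarith
    refine (Real.log_le_log (by positivity) this).trans_eq ?_
    rw [Real.log_pow, hl]
    norm_num
  · calc B * X * H ≤ 3 * Λ * l * (K * P) * (1 / Δ) * (2 * (3 * Λ * l) * (K * P * Δ)) := by gcongr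
      _ = 18 * Λ ^ 2 * l ^ 2 * (K * P) ^ 2 := by
        field_simp
        ring
      _ ≤ 18 * Λ ^ 2 * l ^ 2 * (8 * (ρ * K ^ 2)) ^ 2 := by gcongr
      _ = 1152 * Λ ^ 2 * l ^ 2 * (K ^ 4 * ρ ^ 2) := by ring
      _ ≤ _ := by gcongr

lemma jq_Long {K P Q H J Δ c g : ℝ} (hK : 0 < K) (hQ : 0 < Q) (hPΔ : 0 ≤ P * Δ) (hc : 1 ≤ c)
    (hg : 1 ≤ g) (hE : 1 ≤ P * Δ * g) (q2 : Q * H ≤ K ^ 2) (q3 : K ^ 2 ≤ 2 * Q * H)
    (hH1 : c * (K * P * Δ) ≤ H) (hH2 : H ≤ 2 * c * (K * P * Δ)) (hJ : J ≤ 4 * K / Q + 1) :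
    J ≤ 17 * c * (P * Δ * g) ∧ Q * (P * Δ) ≤ K := by
  rw [mul_assoc K] at hH1 hH2
  generalize P * Δ = E at *
  constructor
  · have h1 : 4 * K / Q ≤ 16 * c * E := by
      rw [div_le_iff₀ hQ]
      refine le_of_mul_le_mul_left ?_ hK
      nlinarith [mul_le_mul_of_nonneg_left hH2 hQ.le]
    have h2 : c * E ≤ c * (E * g) := by
      gcongr
      exact le_mul_of_one_le_right hPΔ hg
    have h3 : 1 ≤ c * (E * g) := one_le_mul_of_one_le_of_one_le hc hE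
    linarith
  · refine le_of_mul_le_mul_left ?_ hK
    have h1 : K * E ≤ H := (le_mul_of_one_le_left (by positivity) hc).trans hH1
    nlinarith [mul_le_mul_of_nonneg_left h1 hQ.le]

lemma loc_Long (X Δ : ℝ) (B H : ℕ) (R : Finset ℕ) (q : ℕ → ℕ) (s : ℕ) :
    loc (G1 X Δ B H) R q s = loc (G0 X Δ B H) R q s := by
  funext a b
  unfold loc G1
  by_cases h : a = b
  · subst h
    simp [G0]
  · rw [if_neg h]

theorem long_stmt (hB : BlkStmt) (hL : LocStmt) : LongStmt := by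
  intro r Λ μ hr hΛ hμ
  obtain ⟨C, hC, hL⟩ := hL r (by omega)
  obtain ⟨m, rfl⟩ : ∃ m, r = m + 1 := ⟨r - 1, by omega⟩
  have hm : 1 ≤ m := by omega
  have hΛ' : (1 : ℝ) ≤ Λ := by exact_mod_cast hΛ
  have hr0 : (0 : ℝ) < ((m + 1 : ℕ) : ℝ) := by positivity
  refine ⟨μ / 2 / (4 * ((m + 1 : ℕ) : ℝ)), by positivity, ?_⟩
  filter_upwards [eventually_ge_atTop (133 : ℝ), E.ev_le_log 1, E.ev_log_le (24 * Λ) 1 hμ,
    E.ev_log_le (2 * 4 ^ (2 * (m + 1) + 1) * (3 * Λ)) 1 (show (0 : ℝ) < 1 / 400 by norm_num),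
    E.ev_log_le ((9248 * Λ * (3 * Λ) ^ 2) ^ (2 * (m + 1)) * C *
      (4 ^ (m + 1) + 1152 * Λ ^ 2 + 8 * Λ + 2) ^ (2 * (m + 1) + 6) *
      ((8 * ((m + 1 : ℕ) : ℝ) + 2) * (6 * Λ) ^ (4 * (m + 1) + 1)))
      (2 * (2 * (m + 1)) + 2 * (2 * (m + 1) + 6) + (4 * (m + 1) + 1)) (half_pos (half_pos hμ))]
    with x hx hl hy hz hfin X Δ K P D α G hE hD hα
  rw [pow_one] at hy hz
  have hx0 : 0 < x := by linarith
  have hΔ : 0 < Δ := (Real.rpow_pos_of_pos hx0 _).trans_le G.d1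
  have hX : 0 < X := lt_of_lt_of_le (by linarith) G.x1
  have hK : (0 : ℝ) < K := by exact_mod_cast G.k1
  have hP : (0 : ℝ) < P := by exact_mod_cast G.p1
  have hc1 : 1 ≤ 3 * (Λ : ℝ) * Real.log x := by nlinarith
  have hBle : (bb x X Δ Λ K P : ℝ) ≤ 3 * Λ * Real.log x * (K * P / (X * Δ)) :=
    Nat.floor_le (by positivity)
  have hH1 : 3 * Λ * Real.log x * (K * P * Δ) ≤ (hh x Δ Λ K P : ℝ) := Nat.le_ceil _
  have hH2 : (hh x Δ Λ K P : ℝ) ≤ 3 * Λ * Real.log x * (K * P * Δ) + 1 :=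
    (Nat.ceil_lt_add_one (by positivity)).le
  generalize bb x X Δ Λ K P = B at *
  generalize hh x Δ Λ K P = H at *
  obtain ⟨f1, f3, f4, f5, f6, f7, f8, f9⟩ := facts_Long hm G (by linarith) hc1
    (by linarith) (by linarith) hBle hH1 hH2
  have hK1 := G.k1
  have q1 : 4 ≤ K ^ 2 / H := (Nat.le_div_iff_mul_le f4).2 f5
  have q2 : K ^ 2 / H * H ≤ K ^ 2 := Nat.div_mul_le_self _ _
  have q3 : K ^ 2 ≤ 2 * (K ^ 2 / H) * H := by
    have := Nat.lt_div_mul_add (a := K ^ 2) f4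
    nlinarith
  generalize K ^ 2 / H = Q at *
  have q4 : 4 * K ≤ (4 * K / Q + 1) * Q := by
    have := Nat.lt_div_mul_add (a := 4 * K) (show 0 < Q by omega)
    rw [add_one_mul]
    exact this.le
  have hg : 1 ≤ x ^ (μ / (8 * ((m + 1 : ℕ) : ℝ))) :=
    Real.one_le_rpow (by linarith) (by positivity)
  obtain ⟨j1, j2⟩ := jq_Long (J := ((4 * K / Q + 1 : ℕ) : ℝ)) (Q := Q) hK
    (by exact_mod_cast (show 0 < Q by omega)) (by positivity) hc1 hg hE (by exact_mod_cast q2)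
    (by exact_mod_cast q3) hH1 f3 (by
      have := Nat.cast_div_le (α := ℝ) (m := 4 * K) (n := Q)
      rw [Nat.cast_mul, Nat.cast_ofNat] at this
      rw [Nat.cast_add, Nat.cast_one]
      linarith)
  generalize 4 * K / Q + 1 = J at *
  have hS : ((Λ * P / K + 1 : ℕ) : ℝ) ≤ Λ * (P / K) + 1 := by
    have := Nat.cast_div_le (α := ℝ) (m := Λ * P) (n := K)
    rw [Nat.cast_mul, mul_div_assoc] at this
    rw [Nat.cast_add, Nat.cast_one]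
    linarith
  have hρ0 : (1 : ℝ) ≤ P / K := by
    rw [le_div_iff₀ hK]
    have : (8 : ℝ) * K ≤ P := by exact_mod_cast f7
    linarith
  obtain ⟨w, hw⟩ : ∃ w : ℝ, w = (4 ^ (m + 1) + 1152 * Λ ^ 2 + 8 * Λ + 2) * Real.log x ^ 2 :=
    ⟨_, rfl⟩
  have hw4 : 1152 * Λ ^ 2 * Real.log x ^ 2 ≤ w := by
    rw [hw]
    refine mul_le_mul_of_nonneg_right ?_ (by positivity)
    have : (0 : ℝ) ≤ 4 ^ (m + 1) := by positivity
    linarith
  have hw1 : 1 ≤ w := by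
    refine le_trans ?_ hw4
    refine one_le_mul_of_one_le_of_one_le ?_ (one_le_pow₀ hl)
    have : (1 : ℝ) ≤ Λ ^ 2 := one_le_pow₀ hΛ'
    linarith
  have hA : 1 ≤ 16 * ((m + 1 : ℕ) : ℝ) * (3 * Λ * Real.log x) := by
    have : (1 : ℝ) ≤ ((m + 1 : ℕ) : ℝ) := by exact_mod_cast Nat.le_add_left 1 m
    nlinarith
  have key := hB K P Λ H Q J (m + 1) D (G1 X Δ B H) α
    (C * w ^ (2 * (m + 1) + 6) * (8 * X / (Δ * (K * P))) ^ (2 * (m + 1)) *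
      (P / K * K ^ (m + 1 + 1) * B ^ (m + 1) + K ^ (2 * (m + 1)) * B ^ (2 * (m + 1)) *
        (zb (16 * ((m + 1 : ℕ) : ℝ) * (3 * Λ * Real.log x) * (1 / Δ)) (P / K) + √(P / K))))
    (by omega) hΛ hD hK1 f7 (by omega) q2 q4
    (fun u v => by
      unfold G1
      rw [G0_comm X Δ B H u v]
      exact if_congr eq_comm rfl rfl)
    (fun u v h => by
      have h1 : u.1 ≠ v.1 := fun h' => h (if_pos h')
      refine ⟨h1, ?_⟩
      by_contra h'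
      exact h ((if_neg h1).trans (if_neg fun h2 => h' h2.2))) hα
    (fun D' q ρ hD' r1 r2 hcell => by
      obtain ⟨c1, c2, c3, -, c5, -, c7, c8⟩ := cond_Main (H := 0) (Nat.le_add_left 1 m) hx rfl hl
        hΛ' hK1 hX hΔ G.x2 G.h3 f8 hBle (by rw [Nat.cast_zero]; positivity) (Nat.zero_le _) f7 hS
        r1 r2 hw
      obtain ⟨c4, c6⟩ := cond_Long hx rfl hl hΛ' (by exact_mod_cast hK1) (by exact_mod_cast G.p1)
        (Nat.cast_nonneg H) hX hΔ G.x2 f8 hBle f3 r1 hw4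
      simp only [loc_Long]
      refine (hL K B H Q _ P (Λ * P) D' q X Δ ρ w _ (fun k hk => hD k (hD' hk)) f6
        (by omega) q3 hcell hX hΔ c1 hw1 c2 c3 c4 c5 c6).trans ?_
      have z1 := zb_mono (F := 16 * ((m + 1 : ℕ) : ℝ) * (3 * Λ * Real.log x) * (1 / Δ))
        (by positivity) le_rfl c8
      have z0 := zb_nonneg (F := 16 * ((m + 1 : ℕ) : ℝ) * (3 * Λ * Real.log x) * (1 / Δ))
        (by positivity) ρ
      have z2 := Real.sqrt_le_sqrt c8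
      have z3 := Real.sqrt_nonneg ρ
      have ρ0 : 0 < ρ := by linarith
      gcongr)
  have h8 := G.h8
  rw [Nat.add_sub_cancel] at h8
  have fin := fin_Long m (Nat.cast_nonneg Q) (Nat.cast_nonneg _) (Nat.cast_nonneg J)
    (Nat.cast_nonneg B) hK hP hΛ' (hS.trans (by nlinarith)) hX hΔ hC.le
    (by linarith) hc1 (zero_le_one.trans (one_le_Lm X Δ K P)) (Real.rpow_nonneg hx0.le μ)
    (zb_nonneg (by positivity) _) j1 j2 f1 h8 G.h4 (zb_scale_Main hA (by positivity)) f9 key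
  have e1 : (x ^ (μ / (8 * ((m + 1 : ℕ) : ℝ)))) ^ (4 * (m + 1)) = x ^ (μ / 2) := by
    rw [← Real.rpow_natCast, ← Real.rpow_mul hx0.le]
    congr 1
    rw [Nat.cast_mul]
    field_simp
    norm_num
  have e2 : x ^ μ = x ^ (μ / 2) * x ^ (μ / 2) := by rw [← Real.rpow_add hx0, add_halves]
  rw [e1, e2, ← mul_assoc] at fin
  refine end_Main (Nat.succ_pos m) hx0 (by positivity)
    (le_of_mul_le_mul_right fin (Real.rpow_pos_of_pos hx0 _)) (le_trans (le_of_eq ?_) hfin)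
  rw [hw, show 2 * (3 * (Λ : ℝ) * Real.log x) = 6 * Λ * Real.log x by ring,
    show 9248 * (Λ : ℝ) * (3 * Λ * Real.log x) ^ 2 = 9248 * Λ * (3 * Λ) ^ 2 * Real.log x ^ 2 by ring,
    mul_pow _ (Real.log x ^ 2), mul_pow _ (Real.log x ^ 2), mul_pow _ (Real.log x), ← pow_mul,
    ← pow_mul, pow_add (Real.log x) (_ + _), pow_add (Real.log x) (2 * _)]
  ring

end Pool.Agent.MP_c853c5_nt.DT
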