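import Pool.Agent.MP_c853c5_nt.DT.Defs

/-!
The terms with equal primes, and the main term.
-/

set_option autoImplicit false

open Finset Filter Real

namespace Pool.Agent.MP_c853c5_nt.DT

open DS

lemma rb_le_Main {X Δ n n' N : ℝ} (B : ℕ) (hX : 0 < X) (hΔ : 0 < Δ) (hN : 0 < N) (hn : N ≤ n) :
    |rb X Δ Δ B n n'| ≤ 2 * B * (X / (Δ * N)) := by
  have h1 : Δ * N ≤ √(dd Δ Δ n n') := by
    refine Real.le_sqrt_of_sq_le ?_
    have : (Δ * N) ^ 2 ≤ (Δ * n) ^ 2 := by gcongr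
    unfold dd
    nlinarith [sq_nonneg (n' * Δ)]
  refine (abs_sum_le_sum_abs _ _).trans ((sum_le_card_nsmul _ _ (X / (Δ * N)) fun h _ => ?_).trans ?_)
  · rw [abs_mul, abs_of_nonneg (am_nonneg hX.le _ _ _ _ _)]
    refine (mul_le_of_le_one_right (am_nonneg hX.le _ _ _ _ _) (Real.abs_cos_le_one _)).trans ?_
    have d0 : 0 < dd Δ Δ n n' := dd_pos n' hΔ (hN.trans_le hn)
    have e1 : Real.exp (-(π * (n - n') ^ 2 / dd Δ Δ n n')) ≤ 1 :=
      Real.exp_le_one_iff.2 (neg_nonpos.2 (by positivity))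
    have e2 : Real.exp (-(π * (h : ℝ) ^ 2 * (X * Δ * Δ) ^ 2 / dd Δ Δ n n')) ≤ 1 :=
      Real.exp_le_one_iff.2 (neg_nonpos.2 (by positivity))
    have e3 : X / √(dd Δ Δ n n') ≤ X / (Δ * N) := by gcongr
    unfold am
    calc _ ≤ X / (Δ * N) * 1 * 1 := by gcongr
      _ = _ := by ring
  · rw [card_hs, nsmul_eq_mul]
    push_cast
    exact le_rfl

theorem diag_stmt : DiagStmt := by
  classical
  intro X Δ K P Λ B H D α hX hΔ hK hP hD hα
  have hK0 : (0 : ℝ) < K := by exact_mod_cast hK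
  have hP0 : (0 : ℝ) < P := by exact_mod_cast hP
  set U := D ×ˢ Icc P (Λ * P) with hU
  set T : ℝ := 2 * B * (X / (Δ * (K * P))) with hT
  have T0 : 0 ≤ T := by positivity
  rw [← sum_sub_distrib]
  have key : ∀ u ∈ U, |∑ v ∈ U, α u * α v * G0 X Δ B H u v -
      ∑ v ∈ U, α u * α v * G1 X Δ B H u v| ≤ 2 * H / K * T := by
    intro u hu
    obtain ⟨u1, u2⟩ := mem_product.1 hu
    have k1 := (hD _ u1).2.1
    have p1 := (mem_Icc.1 u2).1
    rw [← sum_sub_distrib]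
    set V := U.filter fun v => v.1 = u.1 ∧ v.2 ≠ u.2 ∧ v.2 ≤ u.2 + H / K ∧ u.2 ≤ v.2 + H / K
      with hV
    have c1 : V.card ≤ 2 * (H / K) := by
      have := card_le_card_of_injOn (s := V)
        (t := (Icc (u.2 - H / K) (u.2 + H / K)).erase u.2) Prod.snd (fun v hv => ?_)
        fun v hv v' hv' e => ?_
      · rw [card_erase_of_mem (mem_Icc.2 ⟨Nat.sub_le _ _, Nat.le_add_right _ _⟩), Nat.card_Icc]
          at this
        generalize H / K = m at *
        omega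
      · obtain ⟨-, -, a, b, c⟩ := mem_filter.1 hv
        generalize H / K = m at *
        exact mem_coe.2 (mem_erase.2 ⟨a, mem_Icc.2 (by omega)⟩)
      · exact Prod.ext ((mem_filter.1 hv).2.1.trans (mem_filter.1 hv').2.1.symm) e
    have c2 : (V.card : ℝ) ≤ 2 * H / K := by
      have a : (V.card : ℝ) ≤ 2 * ((H / K : ℕ) : ℝ) := by exact_mod_cast c1
      have b := Nat.cast_div_le (α := ℝ) (m := H) (n := K)
      rw [mul_div_assoc]
      linarith
    rw [← sum_subset (filter_subset _ _ : V ⊆ U)]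
    · refine (abs_sum_le_sum_abs _ _).trans ((sum_le_card_nsmul _ _ T fun v hv => ?_).trans ?_)
      · have e := (mem_filter.1 hv).2.1
        rw [G1, if_pos e.symm, mul_zero, sub_zero, abs_mul, abs_mul]
        refine (mul_le_of_le_one_left (abs_nonneg _)
          (mul_le_one₀ (hα _) (abs_nonneg _) (hα _))).trans ?_
        unfold G0
        split_ifs
        · refine rb_le_Main B hX hΔ (by positivity) ?_
          rw [e]
          exact_mod_cast Nat.mul_le_mul k1 p1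
        · simpa using T0
      · rw [nsmul_eq_mul]
        gcongr
    · intro v hv hn
      unfold G1
      split_ifs with e
      · rw [mul_zero, sub_zero, G0, if_neg, mul_zero]
        rintro ⟨a, b, c⟩
        rw [← e] at a b
        rw [← e] at c
        have key : ∀ p p' : ℕ, u.1 * p ≤ u.1 * p' + H → p ≤ p' + H / K := fun p p' h => by
          have h1 : K * (p - p') ≤ H := by
            have : u.1 * (p - p') ≤ H := by
              rw [Nat.mul_sub]
              omega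
            exact (Nat.mul_le_mul_right _ k1).trans this
          have h2 : p - p' ≤ H / K := (Nat.le_div_iff_mul_le hK).2 (by rwa [mul_comm])
          omega
        exact hn (mem_filter.2 ⟨hv, e.symm, fun h => a (by rw [h]), key _ _ c, key _ _ b⟩)
      · exact sub_self _
  refine (abs_sum_le_sum_abs _ _).trans ((sum_le_card_nsmul _ _ _ key).trans ?_)
  have u0 : (U.card : ℝ) ≤ K * (Λ * P) := by
    have : U.card ≤ K * (Λ * P) := by
      rw [hU, card_product]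
      exact Nat.mul_le_mul hD.card_le (card_Icc_le hP)
    exact_mod_cast this
  rw [nsmul_eq_mul]
  refine (mul_le_mul_of_nonneg_right u0 (by positivity)).trans (le_of_eq ?_)
  rw [hT]
  field_simp
  ring

theorem main_stmt (hM : DS.MainStmt) (hL : LongStmt) (hD : DiagStmt) : MainStmt := by
  intro r Λ μ hr hΛ hμ
  have hr0 : (2 : ℝ) ≤ r := by exact_mod_cast hr
  have hΛ' : (1 : ℝ) ≤ Λ := by exact_mod_cast hΛ
  have hl0 : 0 < μ / (8 * r) := by positivity
  have hl1 : μ / (8 * r) ≤ μ := div_le_self hμ.le (by linarith)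
  obtain ⟨ν₁, h1, e1⟩ := hM r Λ (μ / (8 * r)) hr hΛ hl0
  obtain ⟨ν₂, h2, e2⟩ := hL r Λ μ hr hΛ hμ
  obtain ⟨ν, hν, n1, n2, n3⟩ : ∃ ν : ℝ, 0 < ν ∧ ν ≤ ν₁ ∧ 2 * ν ≤ ν₂ ∧ 2 * ν ≤ 1 / 800 :=
    ⟨min ν₁ (min (ν₂ / 2) (1 / 1600)), by positivity, min_le_left _ _,
      by linarith [min_le_right ν₁ (min (ν₂ / 2) (1 / 1600)), min_le_left (ν₂ / 2) (1 / 1600)],
      by linarith [min_le_right ν₁ (min (ν₂ / 2) (1 / 1600)), min_le_right (ν₂ / 2) (1 / 1600)]⟩
  refine ⟨ν, hν, ?_⟩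
  filter_upwards [e1, e2, eventually_ge_atTop (1 : ℝ), E.ev_le_log 1, E.ev_const_le 2 hν,
    E.ev_log_le (72 * (Λ : ℝ) ^ 3) 2 (show (0 : ℝ) < 1 / 800 by norm_num)]
    with x e1 e2 hx hl c1 c2 X Δ Γ K P D b c G hW hP hb hc
  have hx0 : 0 < x := by linarith
  have hΔ : 0 < Δ := (Real.rpow_pos_of_pos hx0 _).trans_le G.d1
  have hX : 0 < X := lt_of_lt_of_le (by linarith) G.x1
  have hK : (0 : ℝ) < K := by exact_mod_cast G.k1
  have hP0 : (0 : ℝ) < P := by exact_mod_cast G.p1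
  have up : ∀ {s t : ℝ}, s ≤ t → x ^ s ≤ x ^ t := fun h => Real.rpow_le_rpow_of_exponent_le hx h
  have hL1 := one_le_Lm X Δ K P
  rcases le_total (P * Δ * x ^ (μ / (8 * r))) 1 with h | h
  · refine (e1 X Δ Γ K P D b c ⟨G.x1, G.x2, G.d1, G.d2, G.k1, G.p1, h, le_trans ?_ G.h2, G.h3,
      le_trans ?_ G.h4, G.h5, G.h6, G.h7⟩ hW hP hb hc).trans ?_
    · exact mul_le_mul_of_nonneg_left (up hl1) (by positivity)
    · exact mul_le_mul_of_nonneg_left (up hl1)
        (mul_nonneg (by positivity) (zb_nonneg (by positivity) _))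
    · exact mul_le_mul_of_nonneg_left (up (neg_le_neg n1)) (by positivity)
  have hα : ∀ u : ℕ × ℕ, |b u.1 * c u.2| ≤ 1 := fun u => by
    rw [abs_mul]
    exact mul_le_one₀ (hb _) (abs_nonneg _) (hc _)
  have a1 := e2 X Δ K P D _ G h hP hα
  have a2 := hD X Δ K P Λ (bb x X Δ Λ K P) (hh x Δ Λ K P) D _ hX hΔ G.k1 G.p1 hP hα
  have hc1 : 1 ≤ 3 * (Λ : ℝ) * Real.log x := by nlinarith
  have hB : (bb x X Δ Λ K P : ℝ) ≤ 3 * Λ * Real.log x * Lm X Δ K P :=
    (Nat.floor_le (by positivity)).trans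
      (mul_le_mul_of_nonneg_left (le_Lm X Δ K P) (by positivity))
  have hE : 1 ≤ (K : ℝ) * P * Δ := by
    by_contra h0
    have b1 : ((K : ℝ) * P * Δ) ^ (r - 1) < 1 :=
      pow_lt_one₀ (by positivity) (not_le.1 h0) (by omega)
    have b2 : 1 ≤ Lm X Δ K P ^ r * x ^ μ :=
      one_le_mul_of_one_le_of_one_le (one_le_pow₀ hL1) (Real.one_le_rpow hx hμ.le)
    linarith [G.h2]
  have hH : (hh x Δ Λ K P : ℝ) ≤ 2 * (3 * Λ * Real.log x) * (K * P * Δ) := by
    have : (hh x Δ Λ K P : ℝ) ≤ 3 * Λ * Real.log x * (K * P * Δ) + 1 :=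
      (Nat.ceil_lt_add_one (by positivity)).le
    nlinarith
  have a3 : 4 * Λ * X * (hh x Δ Λ K P : ℝ) * (bb x X Δ Λ K P : ℝ) / (Δ * K) ≤
      X * (K * P) * x ^ (-(2 * ν)) := by
    have z0 : 0 < x ^ (1 / 800 : ℝ) := by positivity
    have z1 : x ^ (1 / 400 : ℝ) = x ^ (1 / 800 : ℝ) * x ^ (1 / 800 : ℝ) := by
      rw [← Real.rpow_add hx0]
      norm_num
    have z2 : (x ^ (1 / 800 : ℝ))⁻¹ ≤ x ^ (-(2 * ν)) := by
      rw [← Real.rpow_neg hx0.le]
      exact up (neg_le_neg n3)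
    have h5 := G.h5
    rw [z1] at h5
    generalize x ^ (1 / 800 : ℝ) = z at *
    calc _ ≤ 4 * Λ * X * (2 * (3 * Λ * Real.log x) * (K * P * Δ)) *
          (3 * Λ * Real.log x * Lm X Δ K P) / (Δ * K) := by gcongr
      _ = X * P * (72 * Λ ^ 3 * Real.log x ^ 2) * Lm X Δ K P := by
          field_simp
          ring
      _ ≤ X * P * z * Lm X Δ K P := by gcongr
      _ = X * P * (Lm X Δ K P * (z * z)) * z⁻¹ := by field_simp
      _ ≤ X * P * K * x ^ (-(2 * ν)) := by gcongr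
      _ = _ := by ring
  have a4 : X * (K * P) * x ^ (-ν₂) ≤ X * (K * P) * x ^ (-(2 * ν)) :=
    mul_le_mul_of_nonneg_left (up (neg_le_neg n2)) (by positivity)
  have a5 : 2 * x ^ (-(2 * ν)) ≤ x ^ (-ν) := by
    have e : x ^ (-ν) = x ^ ν * x ^ (-(2 * ν)) := by
      rw [← Real.rpow_add hx0]
      congr 1
      ring
    rw [e]
    exact mul_le_mul_of_nonneg_right c1 (by positivity)
  have a6 := mul_le_mul_of_nonneg_left a5 (show 0 ≤ X * ((K : ℝ) * P) by positivity)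
  change |S0 x X Δ Λ K P D b c| ≤ _
  unfold S0
  rw [abs_le] at a1 a2 ⊢
  constructor <;> linarith [a1.1, a1.2, a2.1, a2.2]

end Pool.Agent.MP_c853c5_nt.DT
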