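import Pool.Agent.MP_c853c5_nt.DT.Defs
import Pool.Agent.MP_c853c5_nt.DS.Small
import Pool.Agent.MP_c853c5_nt.DS.Zero

/-!
The small terms.
-/

set_option autoImplicit false

open Finset Filter Real
open scoped ComplexConjugate

namespace Pool.Agent.MP_c853c5_nt.DT

open Pool.Agent.MP_88bd62_nt.U (ex)
open DS

theorem small_stmt (hP : PoisStmt) : SmallStmt := by
  intro r Λ μ hr hΛ hμ
  have hr0 : (0 : ℝ) < r := by exact_mod_cast (by omega : 0 < r)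
  have hγ : 0 < μ / (2 * r) := by positivity
  refine ⟨min (μ / (2 * r)) 1, lt_min hγ one_pos, ?_⟩
  filter_upwards [E.ev_log_le (44 * (Λ : ℝ) ^ 3) 1 one_pos, E.ev_log_le (24 * (Λ : ℝ) ^ 2) 1 hγ,
    E.ev_le_log 1, eventually_ge_atTop 1] with x e1 e2 hl hx
  intro X Δ Γ K P D b c hG _ hD hb hc
  rw [pow_one] at e1 e2
  rw [Real.rpow_one] at e1
  have hx0 : 0 < x := by linarith
  have hX : 0 < X := by linarith [hG.x1]
  have hΔ : 0 < Δ := (Real.rpow_pos_of_pos hx0 _).trans_le hG.d1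
  have hK : (1 : ℝ) ≤ K := by exact_mod_cast hG.k1
  have hP1 : (1 : ℝ) ≤ P := by exact_mod_cast hG.p1
  have hL : (1 : ℝ) ≤ Λ := by exact_mod_cast hΛ
  have hN : (0 : ℝ) < K * P := by positivity
  have hl0 : 0 < Real.log x := by linarith
  have hB1 : 3 * Λ * Real.log x * (K * P / (X * Δ)) ≤ (bb x X Δ Λ K P : ℝ) + 1 :=
    (Nat.lt_floor_add_one _).le
  have hB2 : (bb x X Δ Λ K P : ℝ) ≤ 3 * Λ * Real.log x * (K * P / (X * Δ)) :=
    Nat.floor_le (by positivity)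
  have hH : 3 * Λ * Real.log x * (K * P * Δ) ≤ (hh x Δ Λ K P : ℝ) := Nat.le_ceil _
  refine (sum_Small hP hX hΔ hG.k1 hG.p1 hl0.le hD hb hc hB1 hH).trans ?_
  have hNX : (K : ℝ) * P ≤ X :=
    (le_mul_of_one_le_left hN.le (one_le_pow₀ hK)).trans hG.h3
  have hs : 1 ≤ x ^ (1 / 2 : ℝ) := Real.one_le_rpow hx (by norm_num)
  have hsΔ : 1 ≤ Δ * x ^ (1 / 2 : ℝ) := by
    calc (1 : ℝ) = x ^ (-(1 / 2) : ℝ) * x ^ (1 / 2 : ℝ) := by
          rw [← Real.rpow_add hx0]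
          norm_num
      _ ≤ _ := mul_le_mul_of_nonneg_right hG.d1 (by positivity)
  have hs2 : (x ^ (1 / 2 : ℝ)) ^ 2 = x := by
    rw [← Real.rpow_natCast, ← Real.rpow_mul hx0.le]
    norm_num
  have he : 44 * (Λ : ℝ) ^ 3 * Real.log x *
      ((x ^ (1 / 2 : ℝ)) ^ 2 * Real.exp (-(3 * Real.log x ^ 2))) ≤ x ^ (-min (μ / (2 * r)) 1) := by
    have a1 : Real.exp (-(3 * Real.log x ^ 2)) ≤ (x ^ 3)⁻¹ := by
      have : (x ^ 3)⁻¹ = Real.exp (-(3 * Real.log x)) := by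
        rw [Real.exp_neg, show 3 * Real.log x = ((3 : ℕ) : ℝ) * Real.log x by norm_num,
          Real.exp_nat_mul, Real.exp_log hx0]
      rw [this]
      exact Real.exp_le_exp.2 (by nlinarith)
    rw [hs2]
    calc 44 * (Λ : ℝ) ^ 3 * Real.log x * (x * Real.exp (-(3 * Real.log x ^ 2)))
        ≤ x * (x * (x ^ 3)⁻¹) :=
          mul_le_mul e1 (mul_le_mul_of_nonneg_left a1 hx0.le) (by positivity) hx0.le
      _ = x ^ (-1 : ℝ) := by
          rw [Real.rpow_neg_one]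
          field_simp
      _ ≤ _ := Real.rpow_le_rpow_of_exponent_le hx (neg_le_neg (min_le_right _ _))
  have t1 := fin1_Small hX hΔ hN hL hl hs hsΔ hNX hB2 (Real.exp_pos _).le he
  have hz : 1 ≤ x ^ (μ / (2 * r)) := Real.one_le_rpow hx hγ.le
  have hM : Lm X Δ K P * (x ^ (μ / (2 * r))) ^ 2 ≤ K * P * Δ := by
    refine root_Small hr (one_le_Lm _ _ _ _) (one_le_pow₀ hz) (by positivity)
      (le_trans (le_of_eq ?_) hG.h2)
    rw [← pow_mul, ← Real.rpow_natCast (x ^ (μ / (2 * r))), ← Real.rpow_mul hx0.le]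
    congr 2
    push_cast
    field_simp
  have hw : (x ^ (μ / (2 * r)))⁻¹ ≤ x ^ (-min (μ / (2 * r)) 1) := by
    rw [← Real.rpow_neg hx0.le]
    exact Real.rpow_le_rpow_of_exponent_le hx (neg_le_neg (min_le_left _ _))
  have t2 := fin2_Small hX hΔ hN (by linarith : (0 : ℝ) < Λ) hl0 (by linarith)
    (hB2.trans (mul_le_mul_of_nonneg_left (le_Lm X Δ K P) (by positivity))) hM e2 hw
  linarith

theorem zero_stmt (hP : PoisStmt) : ZeroStmt := by
  intro r Λ μ _ hΛ _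
  refine ⟨1, one_pos, ?_⟩
  filter_upwards [eventually_ge_atTop 1, E.ev_const_le 2 (γ := 1 / 2000) (by norm_num),
    E.ev_log_le (24 * (Λ : ℝ) ^ 2) 1 (γ := 1 / 500) (by norm_num),
    eventually_ge_atTop (8 * (Λ : ℝ) ^ 2 * (1 + 3 * Λ))] with x hx hu hl hc
  intro X Δ Γ K P D b c hG hW hD hb hc'
  have hx0 : 0 < x := by linarith
  have hX : 0 < X := by linarith [hG.x1]
  have hL : (1 : ℝ) ≤ Λ := by exact_mod_cast hΛ
  have hK : (1 : ℝ) ≤ K := by exact_mod_cast hG.k1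
  have hp : (1 : ℝ) ≤ P := by exact_mod_cast hG.p1
  have hN : (0 : ℝ) < K * P := by positivity
  obtain ⟨u, hu'⟩ : ∃ u, u = x ^ (1 / 2000 : ℝ) := ⟨_, rfl⟩
  have e : ∀ k : ℕ, x ^ ((k : ℝ) / 2000) = u ^ k := fun k => by
    rw [hu', ← Real.rpow_natCast, ← Real.rpow_mul hx0.le]
    congr 1
    ring
  have e2 : x ^ (-(1 / 1000) : ℝ) = (u ^ 2)⁻¹ := by
    rw [Real.rpow_neg hx0.le, ← e 2]
    norm_num
  have e4 : x ^ (1 / 500 : ℝ) = (u ^ 2) ^ 2 := by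
    rw [← pow_mul, ← e]
    norm_num
  have e5 : x ^ (1 / 400 : ℝ) = u ^ 5 := by
    rw [← e 5]
    norm_num
  rw [← hu'] at hu
  have hu0 : 0 < u := by linarith
  have w1 : 1 ≤ 2 * u ^ 2 * Γ := by
    have a1 := hW.1
    rw [e2, div_le_iff₀ two_pos, inv_le_iff_one_le_mul₀' (by positivity)] at a1
    linarith
  have hΓ : 0 < Γ := by
    by_contra a1
    nlinarith [mul_nonneg (sq_nonneg u) (neg_nonneg.2 (not_lt.1 a1))]
  have w2 : (K : ℝ) * P * u ^ 5 ≤ X := by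
    refine le_trans ?_ (e5 ▸ hG.h6)
    have a1 : 1 ≤ Lm X Δ K P ^ 2 * K :=
      one_le_mul_of_one_le_of_one_le (one_le_pow₀ (one_le_Lm _ _ _ _)) hK
    exact mul_le_mul_of_nonneg_right (le_mul_of_one_le_left hN.le a1) (by positivity)
  have w3 : u ^ 2 * (K * P) ≤ X * Γ := by
    calc u ^ 2 * (K * P) ≤ u ^ 2 * (K * P) * (2 * u ^ 2 * Γ) :=
          le_mul_of_one_le_right (by positivity) w1
      _ ≤ u ^ 2 * (K * P) * (u * u ^ 2 * Γ) := by gcongr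
      _ = K * P * u ^ 5 * Γ := by ring
      _ ≤ X * Γ := by gcongr
  have w4 : u ^ 2 ≤ x := by
    rw [← e 2]
    exact (Real.rpow_le_rpow_of_exponent_le hx (by norm_num)).trans (Real.rpow_one x).le
  have w5 : Real.exp (-((u ^ 2) ^ 2 / (8 * (Λ : ℝ) ^ 2))) ≤ (x ^ 3)⁻¹ := by
    rw [Real.exp_neg]
    refine inv_anti₀ (by positivity) ?_
    rw [← Real.log_le_iff_le_exp (by positivity), Real.log_pow, le_div_iff₀ (by positivity), ← e4]
    push_cast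
    linarith
  have hr : ∀ v ∈ D ×ˢ Icc P (Λ * P),
      (K : ℝ) * P ≤ (v.1 : ℝ) * v.2 ∧ (v.1 : ℝ) * v.2 ≤ 2 * Λ * (K * P) := fun v hv => by
    obtain ⟨a1, a2⟩ := mem_product.1 hv
    obtain ⟨-, a3, a4⟩ := hD _ a1
    obtain ⟨a5, a6⟩ := mem_Icc.1 a2
    refine ⟨by exact_mod_cast Nat.mul_le_mul a3 a5, ?_⟩
    have a7 : v.1 * v.2 ≤ 2 * Λ * (K * P) :=
      (Nat.mul_le_mul a4.le a6).trans (le_of_eq (by ring))
    exact_mod_cast a7
  have hcard : ((D ×ˢ Icc P (Λ * P)).card : ℝ) ≤ Λ * (K * P) := by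
    rw [card_product]
    have a1 := (Nat.mul_le_mul hD.card_le (card_Icc_le (Λ := Λ) hG.p1)).trans
      (le_of_eq (show K * (Λ * P) = Λ * (K * P) by ring))
    exact_mod_cast a1
  obtain ⟨W, hW'⟩ : ∃ W, W = 4 * (1 + 3 * (Λ : ℝ)) * (X / (Γ * (K * P)) * (x ^ 3)⁻¹) := ⟨_, rfl⟩
  have hW0 : 0 ≤ W := by
    rw [hW']
    positivity
  have h1 : |QF D (Icc P (Λ * P)) b c (og X Γ Γ)| ≤ Λ * (K * P) * (Λ * (K * P) * W) := by
    have a0 : ∀ v : ℕ × ℕ, |b v.1 * c v.2| ≤ 1 := fun v => by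
      rw [abs_mul]
      exact mul_le_one₀ (hb _) (abs_nonneg _) (hc' _)
    refine (abs_sum_le_sum_abs _ _).trans ((sum_le_card_nsmul _ _ (Λ * (K * P) * W)
      fun v hv => ?_).trans ?_)
    · refine (abs_sum_le_sum_abs _ _).trans ((sum_le_card_nsmul _ _ W fun w hw => ?_).trans ?_)
      · rw [abs_mul, abs_mul]
        refine (mul_le_of_le_one_left (abs_nonneg _)
          (mul_le_one₀ (a0 v) (abs_nonneg _) (a0 w))).trans
          ((og_Zero hP hX hΓ hN hL (one_le_pow₀ (by linarith)) w3 (hr v hv).1 (hr v hv).2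
            (hr w hw).1 (hr w hw).2).trans ?_)
        rw [hW']
        gcongr
      · rw [nsmul_eq_mul]
        exact mul_le_mul_of_nonneg_right hcard hW0
    · rw [nsmul_eq_mul]
      exact mul_le_mul_of_nonneg_right hcard (by positivity)
  refine h1.trans ?_
  have h2 : Λ * (K * P) * (Λ * (K * P) * W) =
      X * (K * P) * x⁻¹ * (4 * (Λ : ℝ) ^ 2 * (1 + 3 * Λ) / (Γ * x ^ 2)) := by
    rw [hW']
    field_simp
  rw [h2, Real.rpow_neg_one]
  refine mul_le_of_le_one_right (by positivity) ?_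
  rw [div_le_one (by positivity)]
  have a1 : 1 ≤ 2 * x * Γ := w1.trans (by gcongr)
  nlinarith

end Pool.Agent.MP_c853c5_nt.DT
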