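import Pool.Agent.MP_c853c5_nt.DS.All
import Pool.Agent.MP_c853c5_nt.DT.Avg
import Pool.Agent.MP_c853c5_nt.DT.Blk
import Pool.Agent.MP_c853c5_nt.DT.Cross
import Pool.Agent.MP_c853c5_nt.DT.E3d
import Pool.Agent.MP_c853c5_nt.DT.Loc
import Pool.Agent.MP_c853c5_nt.DT.Long
import Pool.Agent.MP_c853c5_nt.DT.Main
import Pool.Agent.MP_c853c5_nt.DT.Mean
import Pool.Agent.MP_c853c5_nt.DT.Small

/-!
The dispersion bound with a long last group, without hypotheses.
-/

set_option autoImplicit false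

namespace Pool.Agent.MP_c853c5_nt.DT

open DS

theorem main_all : DT.MainStmt :=
  DT.main_stmt DS.main_all
    (long_stmt (DT.blk_stmt op_stmt avg_stmt) (DT.loc_stmt sum_all edge_stmt)) diag_stmt

theorem mean_all : DT.MeanStmt :=
  DT.mean_stmt (sq_stmt pois_stmt) (cmp1_stmt cmp0_stmt) (cmp3_stmt (cmp2_stmt cmp0_stmt))
    (vTr_stmt E.tr_stmt) DT.main_all (DT.small_stmt pois_stmt)
    (DT.cross_stmt pois_stmt (cRow_stmt cEdge_stmt exp2_all)) (DT.zero_stmt pois_stmt)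

theorem e3d_all : DT.E3D :=
  DT.e3d_of (DT.tri_stmt DT.mean_all conv_stmt) DT.geo_stmt
    (boxV_stmt (gridV_stmt S.core_all E.self_stmt (E.hal_stmt Z.ker_all)) E.grd_stmt)
    l2_stmt grp_fix Z.pr_all

end Pool.Agent.MP_c853c5_nt.DT
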