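import Pool.Agent.MP_c853c5_nt.DS.Basic

/-!
Type II information by dispersion, the last group being allowed to be long.
-/

set_option autoImplicit false

open Finset Filter Real

namespace Pool.Agent.MP_c853c5_nt.DT

open S (AF Slot prI Dl)
open DS (zb mp PrK G0 loc Cell Lm Wid QF bb hh S0 og FF)

/-- the size conditions on the three groups: `a₀` is removed first, `a₂` is the prime -/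
def DispOK (τ η : ℝ) (r : ℕ) (a₀ a₂ a₁ : ℝ) : Prop :=
  a₁ + η ≤ τ + a₂ ∧ r * max 0 (τ - a₀) + η ≤ (r - 1) * (a₁ + a₂ - τ) ∧
  (2 * r - 2) * a₂ + η ≤ a₀ ∧
  2 * r * max 0 (τ - a₀) + min (τ / 2) (τ / 6 + (a₁ - a₂) / 2) + η ≤ a₁ - a₂ ∧
  max 0 (τ - a₀) + 1 / 400 + η ≤ a₂ ∧ 2 * max 0 (τ - a₀) + a₂ + 1 / 400 + η ≤ a₀ ∧
  2 * max 0 (τ - a₀) + τ / 2 + 1 / 400 + η ≤ a₁ ∧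
  r * max 0 (τ - a₀) + η ≤ (r - 1) * a₂ ∧ 2 * max 0 (τ - a₀) + a₁ / 2 + 1 / 400 + η ≤ a₁

open Classical in
/-- the slots in `A` form the first group, `i` is the prime, the others form the last group -/
def E3pt {ι : Type} [Fintype ι] (τ η : ℝ) (K : ℕ) (pr : ι → Prop) (a : ι → ℝ) : Prop :=
  ∃ (A : Finset ι) (i j : ι) (r : ℕ), 2 ≤ r ∧ r ≤ K ∧ i ∉ A ∧ j ∉ A ∧ i ≠ j ∧ pr i ∧ η ≤ a j ∧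
    DispOK τ η r (∑ l ∈ A, a l) (a i) (∑ l ∈ (univ \ A).erase i, a l) ∧
    S.Eval τ η K (fun o : Option ι => o.elim τ fun l => if l ∈ A then 0 else a l)
      ((τ + ∑ l ∈ univ \ A, a l) / 2)

def E3D : Prop := ∀ (ι : Type) [Fintype ι] (τ t η : ℝ) (K A : ℕ), 1 / 3 ≤ t → t < τ →
  τ ≤ 1 / 2 → 0 < η → ∃ γ : ℝ, 0 < γ ∧ ∀ᶠ x : ℝ in atTop,
    ∀ (pr : ι → Prop) (a : ι → ℝ) (N : ι → ℕ) (g : ι → AF), (∀ i, 0 ≤ a i ∧ a i ≤ 1) →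
      E3pt τ η K pr a → (∀ i, Slot (N i) (g i)) →
      (∀ i, x ^ (a i - γ) ≤ N i ∧ (N i : ℝ) ≤ x ^ (a i + γ)) →
      (∀ i, pr i → ∃ P Q : ℕ, g i = prI P Q) →
      (∏ i, (N i : ℝ)) ≤ 2 * x →
      |Dl t x (∏ i, g i)| ≤ x / Real.log x ^ A

/-- averaging over all selections -/
def AvgStmt : Prop := ∀ (D : Finset ℕ) (J n : ℕ) (T : Finset ℕ) (φ : ℕ → ℕ → ℕ → ℕ → ℕ → ℝ)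
  (W : ℝ), 1 ≤ J → 1 ≤ n → (∀ s a i i', φ s a i a i' = 0) →
  (∀ j : ℕ → ℕ, (∀ a, j a < J) →
    ∑ s ∈ T, |∑ a ∈ D, ∑ b ∈ D, φ s a (j a) b (j b)| ^ n ≤ W) →
  ∑ s ∈ T, |∑ a ∈ D, ∑ i ∈ range J, ∑ b ∈ D, ∑ i' ∈ range J, φ s a i b i'| ^ n ≤
    ((J : ℝ) ^ 2) ^ n * W

def BlkStmt : Prop := ∀ (K P Λ H Q J r : ℕ) (D₀ : Finset ℕ) (G : ℕ × ℕ → ℕ × ℕ → ℝ)
  (α : ℕ × ℕ → ℝ) (W : ℝ), 1 ≤ r → 1 ≤ Λ → PrK K D₀ → 1 ≤ K → 8 * K ≤ P → 1 ≤ Q →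
  Q * H ≤ K ^ 2 → 4 * K ≤ J * Q → (∀ u v, G u v = G v u) →
  (∀ u v, G u v ≠ 0 → u.1 ≠ v.1 ∧ v.1 * u.2 ≤ u.1 * v.2 + H ∧ u.1 * v.2 ≤ v.1 * u.2 + H) →
  (∀ u, |α u| ≤ 1) →
  (∀ (D : Finset ℕ) (q : ℕ → ℕ) (ρ : ℝ), D ⊆ D₀ → (P : ℝ) ≤ 8 * K * ρ →
    K * ρ ≤ P → Cell Q ρ D q →
    ∑ s ∈ range (Λ * P / K + 1), ∑ a ∈ D, ∑ k ∈ D,
      mp D (loc G (Icc P (Λ * P)) q s) r a k ^ 2 ≤ W) →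
  |∑ u ∈ D₀ ×ˢ Icc P (Λ * P), ∑ v ∈ D₀ ×ˢ Icc P (Λ * P), α u * α v * G u v| ^ (2 * r) ≤
    (2 * Q * (Λ * P / K + 1 : ℕ) : ℝ) ^ (2 * r - 1) * (J ^ 2 * K : ℝ) ^ (2 * r) * (2 * Q * W)

def LocStmt : Prop := ∀ r : ℕ, 1 ≤ r → ∃ C : ℝ, 0 < C ∧
  ∀ (K B H Q S P P' : ℕ) (D : Finset ℕ) (q : ℕ → ℕ) (X Δ ρ w F : ℝ), PrK K D →
    4 ^ (2 * r + 1) * B < K → 2 ≤ Q → K ^ 2 ≤ 2 * Q * H →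
    Cell Q ρ D q → 0 < X → 0 < Δ → 1 ≤ ρ → 1 ≤ w → ρ + S ≤ w * ρ →
    ρ * (2 * K) ^ (2 * r) ≤ w * X → Real.log (2 * K + 1) ≤ w → 2 * r * B * X ≤ F * ρ * K ^ 2 →
    B * X * H ≤ w * (K ^ 4 * ρ ^ 2) →
    ∑ s ∈ range S, ∑ a ∈ D, ∑ k ∈ D, mp D (loc (G0 X Δ B H) (Icc P P') q s) r a k ^ 2 ≤
      C * w ^ (2 * r + 6) * (X / (Δ * K ^ 2 * ρ)) ^ (2 * r) *
        (ρ * K ^ (r + 1) * B ^ r + K ^ (2 * r) * B ^ (2 * r) * (zb F ρ + √ρ))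

/-- the kernel without the terms with equal primes -/
noncomputable def G1 (X Δ : ℝ) (B H : ℕ) (u v : ℕ × ℕ) : ℝ :=
  if u.1 = v.1 then 0 else G0 X Δ B H u v

def DiagStmt : Prop := ∀ (X Δ : ℝ) (K P Λ B H : ℕ) (D : Finset ℕ) (α : ℕ × ℕ → ℝ), 0 < X →
  0 < Δ → 1 ≤ K → 1 ≤ P → PrK K D → (∀ u, |α u| ≤ 1) →
  |∑ u ∈ D ×ˢ Icc P (Λ * P), ∑ v ∈ D ×ˢ Icc P (Λ * P), α u * α v * G0 X Δ B H u v -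
      ∑ u ∈ D ×ˢ Icc P (Λ * P), ∑ v ∈ D ×ˢ Icc P (Λ * P), α u * α v * G1 X Δ B H u v| ≤
    4 * Λ * X * H * B / (Δ * K)

structure Geo (x μ : ℝ) (r : ℕ) (X Δ : ℝ) (K P : ℕ) : Prop where
  x1 : x / 2 ≤ X
  x2 : X ≤ 2 * x
  d1 : x ^ (-(1 / 2) : ℝ) ≤ Δ
  d2 : Δ ≤ x ^ (-(1 / 3) : ℝ)
  k1 : 1 ≤ K
  p1 : 1 ≤ P
  h1 : P * Δ * x ^ μ ≤ K
  h2 : Lm X Δ K P ^ r * x ^ μ ≤ (K * P * Δ) ^ (r - 1)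
  h3 : (K : ℝ) ^ (2 * r - 2) * (K * P) ≤ X
  h4 : Lm X Δ K P ^ (2 * r) * zb (1 / Δ) (P / K) * x ^ μ ≤ P / K
  h5 : Lm X Δ K P * x ^ (1 / 400 : ℝ) ≤ K
  h6 : Lm X Δ K P ^ 2 * K * (K * P) * x ^ (1 / 400 : ℝ) ≤ X
  h7 : Lm X Δ K P ^ 2 * √(1 / Δ) * x ^ (1 / 400 : ℝ) ≤ P
  h8 : Lm X Δ K P ^ r * x ^ μ ≤ K ^ (r - 1)
  h9 : Lm X Δ K P ^ 2 * √P * x ^ (1 / 400 : ℝ) ≤ P

/-- the shape of the statements below -/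
def Sav (Φ : ℝ → ℝ → ℝ → ℝ → ℕ → ℕ → ℕ → Finset ℕ → (ℕ → ℝ) → (ℕ → ℝ) → ℝ) : Prop :=
  ∀ (r Λ : ℕ) (μ : ℝ), 2 ≤ r → 1 ≤ Λ → 0 < μ → ∃ ν : ℝ, 0 < ν ∧ ∀ᶠ x : ℝ in atTop,
    ∀ (X Δ Γ : ℝ) (K P : ℕ) (D : Finset ℕ) (b c : ℕ → ℝ), Geo x μ r X Δ K P → Wid x Γ →
      PrK K D → (∀ n, |b n| ≤ 1) → (∀ n, |c n| ≤ 1) →
      |Φ x X Δ Γ Λ K P D b c| ≤ X * (K * P) * x ^ (-ν)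

/-- the long case, without the terms with equal primes -/
def LongStmt : Prop := ∀ (r Λ : ℕ) (μ : ℝ), 2 ≤ r → 1 ≤ Λ → 0 < μ → ∃ ν : ℝ, 0 < ν ∧
  ∀ᶠ x : ℝ in atTop, ∀ (X Δ : ℝ) (K P : ℕ) (D : Finset ℕ) (α : ℕ × ℕ → ℝ), Geo x μ r X Δ K P →
    1 ≤ P * Δ * x ^ (μ / (8 * r)) → PrK K D → (∀ u, |α u| ≤ 1) →
    |∑ u ∈ D ×ˢ Icc P (Λ * P), ∑ v ∈ D ×ˢ Icc P (Λ * P),
      α u * α v * G1 X Δ (bb x X Δ Λ K P) (hh x Δ Λ K P) u v| ≤ X * (K * P) * x ^ (-ν)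

def MainStmt : Prop := Sav fun x X Δ _ Λ K P D b c => S0 x X Δ Λ K P D b c

def SmallStmt : Prop := Sav fun x X Δ _ Λ K P D b c =>
  QF D (Icc P (Λ * P)) b c (og X Δ Δ) - S0 x X Δ Λ K P D b c

def ZeroStmt : Prop := Sav fun _ X _ Γ Λ K P D b c => QF D (Icc P (Λ * P)) b c (og X Γ Γ)

def CrossStmt : Prop := Sav fun _ X Δ Γ Λ K P D b c => QF D (Icc P (Λ * P)) b c (og X Δ Γ)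

/-- the mean square of the inner sum -/
def MeanStmt : Prop := ∀ (r Λ : ℕ) (μ : ℝ), 2 ≤ r → 1 ≤ Λ → 0 < μ → ∃ ν : ℝ, 0 < ν ∧
  ∀ᶠ x : ℝ in atTop, ∀ (X Δ Γ W : ℝ) (M K P : ℕ) (D : Finset ℕ) (b c : ℕ → ℝ),
    Geo x μ r X Δ K P → Wid x Γ → PrK K D → 1 ≤ M → (M : ℝ) * (K * P) ≤ 2 * x →
    (∀ n, |b n| ≤ 1) → (∀ n, |c n| ≤ 1) →
    ∫ t in (x ^ (1 / 2000 : ℝ))..(Real.log x / Δ),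
      ‖E.FP D b t‖ ^ 2 * ‖E.FP (Icc P (Λ * P)) c t‖ ^ 2 ≤ W →
    ∑ m ∈ Icc M (Λ * M), FF X Δ Γ D (Icc P (Λ * P)) b c m ^ 2 ≤
      32 * Λ * (x / (K * P)) * W + x * (K * P) * x ^ (-ν)

/-- three groups, all shorter heights -/
def TriStmt : Prop := ∀ (r Λ A C₀ : ℕ) (μ : ℝ), 2 ≤ r → 1 ≤ Λ → 0 < μ → ∃ ε : ℝ, 0 < ε ∧
  ∀ᶠ x : ℝ in atTop, ∀ (t t₁ : ℝ) (M K P : ℕ) (D : Finset ℕ) (a b c : AF), 1 / 3 ≤ t →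
    t ≤ t₁ → (∀ X : ℝ, x / 2 ≤ X → X ≤ 2 * x → Geo x μ r X (x ^ (-t₁)) K P) → PrK K D →
    1 ≤ M → (M : ℝ) * (K * P) ≤ 2 * x →
    (∀ n, a n ≠ 0 → n ∈ Icc M (Λ * M)) → (∀ n, b n ≠ 0 → n ∈ D) →
    (∀ n, c n ≠ 0 → n ∈ Icc P (Λ * P)) → (∀ n, |a n| ≤ x ^ ε) → (∀ n, |b n| ≤ 1) →
    (∀ n, |c n| ≤ x ^ ε) → ∑ m ∈ Icc M (Λ * M), a m ^ 2 ≤ M * Real.log x ^ C₀ →
    ∫ u in (x ^ (1 / 2000 : ℝ))..(Real.log x / x ^ (-t₁)),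
      ‖E.FP D b u‖ ^ 2 * ‖E.FP (Icc P (Λ * P)) c u‖ ^ 2 ≤
        (K * P) ^ 2 / Real.log x ^ (2 * A + C₀ + 2) →
    |Dl t x (a * b * c)| ≤ x / Real.log x ^ A

/-- from exponents to sizes -/
def GeoStmt : Prop := ∀ (r : ℕ) (η : ℝ), 2 ≤ r → 0 < η → ∃ μ γ : ℝ, 0 < μ ∧ 0 < γ ∧
  ∀ᶠ x : ℝ in atTop, ∀ (τ t₁ a₀ a₂ a₁ : ℝ) (M K P : ℕ), 1 / 3 ≤ t₁ → t₁ ≤ τ → τ ≤ 1 / 2 →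
    τ - η / 2 ≤ t₁ → DispOK τ η r a₀ a₂ a₁ → x ^ (a₀ - γ) ≤ M → x ^ (a₂ - γ) ≤ K →
    (K : ℝ) ≤ x ^ (a₂ + γ) → x ^ (a₁ - γ) ≤ P → (P : ℝ) ≤ x ^ (a₁ + γ) →
    (M : ℝ) * (K * P) ≤ 2 * x → ∀ X : ℝ, x / 2 ≤ X → X ≤ 2 * x → Geo x μ r X (x ^ (-t₁)) K P

end Pool.Agent.MP_c853c5_nt.DT
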