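import Pool.Agent.MP_c853c5_nt.DT.Win
import Pool.Agent.MP_c853c5_nt.REG.Fast

/-!
A checker for polytopes on which the dispersion bound applies.
-/

set_option autoImplicit false

open Finset

namespace Pool.Agent.MP_c853c5_nt.DT

open Pool.Agent.MP_c853c5_nt.S Pool.Agent.MP_c853c5_nt.REG Pool.Agent.MP_c853c5_nt.Y
open Pool.Agent.MP_c853c5_nt.E (Con)

open Classical in
/-- type II, or the dispersion bound with first group `A` and prime `i` -/
def T3 {ι : Type} [Fintype ι] (τ η : ℝ) (K : ℕ) (w : ι → ℝ) (A : Finset ι) (i : ι) : Prop :=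
  S.Eval τ η K w (1 / 2) ∨ ∃ r : ℕ, 2 ≤ r ∧ r ≤ K ∧
    DispOK τ η r (∑ l ∈ A, w l) (w i) (∑ l ∈ (univ \ A).erase i, w l) ∧
    S.Eval τ η K (fun o : Option ι => o.elim τ fun l => if l ∈ A then 0 else w l)
      ((τ + ∑ l ∈ univ \ A, w l) / 2)

/-- the saving -/
noncomputable def eta3 (η c N : ℝ) (K : ℕ) : ℝ :=
  min (min η (min c (1 / (13 * ((K : ℝ) + 1)) / N))) (1 / 6 / N)

lemma eta3_pos {η c N : ℝ} (K : ℕ) (hη : 0 < η) (hc : 0 < c) (hN : 0 < N) :
    0 < eta3 η c N K := by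
  unfold eta3
  positivity

theorem T3.q2 {ι : Type} [Fintype ι] {τ η c N : ℝ} {K : ℕ} {w : ι → ℝ} {A : Finset ι} {i : ι}
    {pr : ι → Prop} (h : T3 τ η K w A i) (hη : 0 < η) (hτ : 1 / 3 ≤ τ) (hw : ∀ j, 0 ≤ w j)
    (hs : ∑ j, w j = 1) (hA : i ∉ A) (hi : pr i) (hc0 : 0 < c) (hc : c ≤ w i)
    (hN : (Fintype.card ι : ℝ) ≤ N) : sysD.q2 τ (eta3 η c N K) K pr w := by
  classical
  rcases h with h | ⟨r, h1, h2, h3, h4⟩
  · exact Or.inl ((e2pt_of_eval h hη hτ hw hs hi hc hN).mono le_rfl (min_le_left _ _))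
  have : Nonempty ι := ⟨i⟩
  have n0 : (0 : ℝ) < Fintype.card ι := by exact_mod_cast Fintype.card_pos
  have n1 : 0 < N := n0.trans_le hN
  have e0 := eta3_pos K hη hc0 n1
  have e1 : eta3 η c N K ≤ η := (min_le_left _ _).trans (min_le_left _ _)
  have e3 : (Fintype.card ι : ℝ) * eta3 η c N K ≤ 1 / 6 := by
    refine (mul_le_mul hN (min_le_right _ _) e0.le n1.le).trans (le_of_eq ?_)
    field_simp
  obtain ⟨d1, d2, d3, d4, d5, d6, d7, d8, d9⟩ := h3
  have m := le_max_left 0 (τ - ∑ l ∈ A, w l)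
  obtain ⟨j, hj, hj'⟩ := exists_large (a := w) _ e0 (e3.trans (le_trans (by linarith) d7))
  exact Or.inr ⟨A, i, j, r, h1, h2, hA, (mem_sdiff.1 (mem_of_mem_erase hj)).2,
    (ne_of_mem_erase hj).symm, hi, hj',
    ⟨by linarith, by linarith, by linarith, by linarith, by linarith, by linarith, by linarith,
      by linarith, by linarith⟩, h4.mono le_rfl e1 le_rfl⟩

/-- the programme with the mean value bound for the slot `0` for free -/
def EvalV {k : ℕ} (τ η : ℝ) (K : ℕ) (b : Fin k → ℝ) : Prop :=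
  ∀ (r : ℝ) (v : Fin k → ℝ), 0 ≤ r → r ≤ τ → (∀ j, v j ≤ b j / 2) →
    (∀ κ : Fin k → ℕ, (∀ j, κ j ≤ K) → Con τ (∑ j, (κ j : ℝ) * b j) (∑ j, (κ j : ℝ) * v j) r) →
    (∀ j : Fin k, (j : ℕ) = 0 → r + 2 * v j ≤ b j) → (1 + η) * r + ∑ j, v j ≤ 1 / 2

lemma con_of {τ n w r : ℝ} (h0 : 0 ≤ r) (h : r ≤ n - 2 * w) : Con τ n w r :=
  ⟨by linarith [le_max_right τ n], le_max_of_le_left h, le_max_of_le_left h, le_max_of_le_left h,
    le_max_of_le_left (by linarith)⟩

lemma EvalV.big {k K : ℕ} {τ η : ℝ} {b : Fin (k + 1) → ℝ} (h : EvalV τ η K b) (hK : 1 ≤ K)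
    (hb : τ ≤ b 0) : S.Eval τ η K b (1 / 2) := fun r v h0 h1 h2 h3 =>
  h r v h0 h1 h2 h3 fun j hj => by
    obtain rfl : j = 0 := Fin.ext hj
    have := (h3 (Pi.single 0 1) fun j => by
      rw [Pi.single_apply]
      split_ifs <;> omega).1
    simp only [Fin.sum_univ_succ, Pi.single_eq_same, Nat.cast_one, one_mul, ne_eq,
      Fin.succ_ne_zero, not_false_eq_true, Pi.single_eq_of_ne, Nat.cast_zero, zero_mul,
      sum_const_zero, add_zero, max_eq_right hb] at this
    linarith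

lemma EvalV.pad {k K : ℕ} {τ η : ℝ} {b : Fin (k + 1) → ℝ} (h : EvalV τ η K b) (hK : 1 ≤ K) :
    S.Eval τ η K (Fin.cons τ (Fin.tail b) : Fin (k + 1) → ℝ) ((τ + (1 - b 0)) / 2) := by
  intro r v h0 h1 h2 h3
  have g0 : r + 2 * v 0 ≤ τ := by
    have := (h3 (Pi.single 0 1) fun j => by
      rw [Pi.single_apply]
      split_ifs <;> omega).1
    simp only [Fin.sum_univ_succ, Pi.single_eq_same, Nat.cast_one, one_mul, ne_eq,
      Fin.succ_ne_zero, not_false_eq_true, Pi.single_eq_of_ne, Nat.cast_zero, zero_mul,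
      sum_const_zero, add_zero, Fin.cons_zero, max_self] at this
    linarith
  have g1 : ∀ j : Fin k, v j.succ ≤ b j.succ / 2 := fun j => by simpa [Fin.tail] using h2 j.succ
  have key := h r (Fin.cons (v 0 - (τ - b 0) / 2) (Fin.tail v)) h0 h1
    (fun j => by
      refine Fin.cases ?_ (fun j => ?_) j
      · rw [Fin.cons_zero]
        linarith
      · exact g1 j)
    (fun κ hκ => by
      have c := h3 κ hκ
      simp only [Fin.sum_univ_succ, Fin.cons_zero, Fin.cons_succ, Fin.tail] at c ⊢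
      rcases Nat.eq_zero_or_pos (κ 0) with e | e
      · simpa only [e, Nat.cast_zero, zero_mul] using c
      · have e' : (1 : ℝ) ≤ κ 0 := by exact_mod_cast e
        have s : 2 * ∑ j : Fin k, (κ j.succ : ℝ) * v j.succ ≤
            ∑ j : Fin k, (κ j.succ : ℝ) * b j.succ := by
          rw [mul_sum]
          exact sum_le_sum fun j _ => by
            nlinarith [g1 j, (Nat.cast_nonneg (κ j.succ) : (0 : ℝ) ≤ _)]
        exact con_of h0 (by nlinarith))
    (fun j hj => by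
      obtain rfl : j = 0 := Fin.ext hj
      rw [Fin.cons_zero]
      linarith)
  simp only [Fin.sum_univ_succ, Fin.cons_zero, Fin.cons_succ, Fin.tail] at key ⊢
  linarith

noncomputable def chkV (tn k : ℕ) (P : Poly) (c : CT) : Bool :=
  force (QQ * sprL k (List.replicate k 1)) fun q =>
    withR k P fun P => withR k [(List.replicate k 1, SC)] fun R =>
      chkF k tn 1 q c (.cons 1 168 0 84 .nil) P R

theorem chkV_ok {tn k : ℕ} {P : Poly} {c : CT} (h : chkV tn (k + 1) P c = true)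
    {b : Fin (k + 1) → ℝ} (hb : ∀ j, 0 ≤ b j) (hP : Mem P b) (hs : ∑ j, b j = 1) :
    EvalV ((tn : ℝ) / SC) (1 / 10000) 64 b := by
  intro r v hr hr' hv hc h0
  have e : QQ * sprL (k + 1) (List.replicate (k + 1) 1) = pack (k + 1) fun _ => QQ := by
    rw [sprL_eq, pack, pack, mul_sum]
    refine sum_congr rfl fun j hj => ?_
    rw [List.getD_eq_getElem _ _ (by simpa using hj)]
    simp
  rw [chkV, force_eq, e] at h
  obtain ⟨P, h1, h⟩ := withR_ok (s := 1) (b := b) _ _ (fun y hy => by linarith [hP y hy]) h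
  obtain ⟨R, h2, h⟩ := withR_ok (s := -1) (b := b) _ _ (fun y hy => by
    rw [List.mem_singleton.1 hy, div_self SC_pos.ne', ← hs, dot]
    refine le_of_eq (congrArg _ (sum_congr rfl fun j _ => ?_))
    rw [List.getD_eq_getElem _ _ (by simpa using j.2)]
    simp) h
  have := chkF_ok hb hr hr' hv
    (fun n => hc (fun j => dig n j) fun j => (Nat.mod_lt _ (by norm_num)).le) c _ _ _ h
    ⟨⟨fun j => if j = 0 then 1 else 0, by rw [pack_succ]; simp [pack_zero],
      fun j => by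
        beta_reduce
        split_ifs <;> omega, by norm_num, by norm_num, by
        have := h0 0 rfl
        simp only [dt, Fin.sum_univ_succ, Fin.val_zero, if_true, Fin.val_succ, Nat.succ_ne_zero,
          if_false, Nat.cast_zero, zero_mul, sum_const_zero, Nat.cast_one, one_mul, add_zero,
          Nat.cast_ofNat]
        linarith⟩, trivial⟩ h1 h2
  simpa using this

/-- the row `x * b 0 + u * b 1 + y * (rest) + e₁ ≤ e₂` follows from the rows of `P` -/
def impL (k : ℕ) (P : Poly) (x u y e₁ e₂ : ℕ) (d : ℕ × ℕ × List ℕ) : Bool :=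
  Nat.blt 0 d.1 &&
    Nat.ble ((rows P d.2.2 ([], 0)).2 + d.1 * e₁) (d.1 * e₂ + d.2.1 * SC) &&
    (List.range k).all fun j =>
      Nat.ble (d.1 * (if j = 0 then x else if j = 1 then u else y) + d.2.1)
        ((rows P d.2.2 ([], 0)).1.getD j 0)

lemma impL_ok {k x u y e₁ e₂ : ℕ} {P : Poly} {d : ℕ × ℕ × List ℕ}
    (h : impL (k + 2) P x u y e₁ e₂ d = true) {b : Fin (k + 2) → ℝ} (hb : ∀ j, 0 ≤ b j)
    (hP : Mem P b) (hs : ∑ j, b j = 1) :
    x * b 0 + u * b 1 + y * (1 - b 0 - b 1) + (e₁ : ℝ) / SC ≤ (e₂ : ℝ) / SC := by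
  obtain ⟨m, μ, zs⟩ := d
  simp only [impL, Bool.and_eq_true, Nat.blt_eq, Nat.ble_eq, List.all_eq_true, List.mem_range]
    at h
  obtain ⟨⟨h1, h2⟩, h3⟩ := h
  have a1 := rows_ok P zs ([], 0) hP (by simp [dot_nil])
  generalize rows P zs ([], 0) = z at *
  have a2 : ∑ j : Fin (k + 2), ((m : ℝ) *
      (if (j : ℕ) = 0 then x else if (j : ℕ) = 1 then u else y : ℕ) + μ) * b j ≤ dot z.1 b :=
    sum_le_sum fun j _ => mul_le_mul_of_nonneg_right (by exact_mod_cast h3 j j.2) (hb j)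
  have a3 : (z.2 : ℝ) + m * e₁ ≤ m * e₂ + μ * SC := by exact_mod_cast h2
  have m0 : (0 : ℝ) < m := by exact_mod_cast h1
  simp only [Fin.sum_univ_succ, Fin.val_zero, Fin.val_succ, if_true, zero_add, one_ne_zero,
    if_false, Nat.add_eq_zero_iff, and_false, Nat.add_eq_right, ← mul_sum, Fin.succ_zero_eq_one]
    at a2 hs
  have a4 : ∑ j : Fin k, b j.succ.succ = 1 - b 0 - b 1 := by linarith
  rw [a4] at a2
  have a5 := div_le_div_of_nonneg_right a3 SC_pos.le
  rw [add_div, add_div, mul_div_cancel_right₀ _ SC_pos.ne', mul_div_assoc, mul_div_assoc] at a5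
  refine le_of_mul_le_mul_left ?_ m0
  linarith

/-- the size conditions; `d` holds the multipliers -/
def dispL (tn k r : ℕ) (P : Poly) (d : List (ℕ × ℕ × List ℕ)) : Bool :=
  impL k P 1 0 2 100 (SC + tn) (d.getD 0 (0, 0, [])) &&
  impL k P 0 1 1 (2 * r * tn + 100) (r * SC + tn) (d.getD 1 (0, 0, [])) &&
  impL k P 1 (2 * r) 2 100 (2 * SC) (d.getD 2 (0, 0, [])) &&
  (impL k P 2 (4 * r + 4) (4 * r) ((4 * r + 1) * tn + 200) ((4 * r + 2) * SC)
      (d.getD 3 (0, 0, [])) ||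
    impL k P 3 (12 * r + 6) (12 * r) ((12 * r + 1) * tn + 600) ((12 * r + 3) * SC)
      (d.getD 3 (0, 0, []))) &&
  impL k P 0 0 1 (tn + 2600) SC (d.getD 4 (0, 0, [])) &&
  impL k P 0 4 3 (2 * tn + 2600) (3 * SC) (d.getD 5 (0, 0, [])) &&
  impL k P 0 4 2 (5 * tn + 5200) (4 * SC) (d.getD 6 (0, 0, [])) &&
  impL k P 0 1 r (r * tn + 100) (r * SC) (d.getD 7 (0, 0, [])) &&
  impL k P 0 4 3 (4 * tn + 5200) (4 * SC) (d.getD 8 (0, 0, []))

lemma dispL_ok {tn k r : ℕ} {P : Poly} {d : List (ℕ × ℕ × List ℕ)}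
    (h : dispL tn (k + 2) r P d = true) {b : Fin (k + 2) → ℝ} (hb : ∀ j, 0 ≤ b j)
    (hP : Mem P b) (hs : ∑ j, b j = 1) (h0 : b 0 ≤ (tn : ℝ) / SC) :
    DispOK ((tn : ℝ) / SC) (1 / 10000) r (b 0) (b 1) (1 - b 0 - b 1) := by
  simp only [dispL, Bool.and_eq_true, Bool.or_eq_true] at h
  obtain ⟨⟨⟨⟨⟨⟨⟨⟨h1, h2⟩, h3⟩, h4⟩, h5⟩, h6⟩, h7⟩, h8⟩, h9⟩ := h
  have g1 := impL_ok h1 hb hP hs
  have g2 := impL_ok h2 hb hP hs
  have g3 := impL_ok h3 hb hP hs
  have g4 := h4.imp (fun h => impL_ok h hb hP hs) fun h => impL_ok h hb hP hs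
  have g5 := impL_ok h5 hb hP hs
  have g6 := impL_ok h6 hb hP hs
  have g7 := impL_ok h7 hb hP hs
  have g8 := impL_ok h8 hb hP hs
  have g9 := impL_ok h9 hb hP hs
  have e : (SC : ℝ) = 1000000 := by norm_num [SC]
  unfold DispOK
  rw [max_eq_right (by linarith)]
  push_cast at g1 g2 g3 g4 g5 g6 g7 g8 g9
  rw [e] at *
  refine ⟨by linarith, by linarith, by linarith, ?_, by linarith, by linarith, by linarith,
    by linarith, by linarith⟩
  rcases g4 with g | g
  · linarith [min_le_left ((tn : ℝ) / 1000000 / 2)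
      ((tn : ℝ) / 1000000 / 6 + (1 - b 0 - b 1 - b 1) / 2)]
  · linarith [min_le_right ((tn : ℝ) / 1000000 / 2)
      ((tn : ℝ) / 1000000 / 6 + (1 - b 0 - b 1 - b 1) / 2)]

/-- on the polytope the slot `0` is the first group and the slot `1` is the prime -/
def Good3 (tn k : ℕ) (P : Poly) : Prop :=
  ∀ (ι : Type) [Fintype ι] (w : ι → ℝ) (g : ι → ℕ) (i : ι), (∀ j, g j < k) → (∀ j, 0 ≤ w j) →
    ∑ j, w j = 1 → (∀ j, g j = 1 ↔ j = i) →
    (∀ x ∈ P, ∑ j, (x.1.getD (g j) 0 : ℝ) * w j ≤ (x.2 : ℝ) / SC) →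
    T3 ((tn : ℝ) / SC) (1 / 10000) 64 w (univ.filter fun j => g j = 0) i

noncomputable def chk3 (tn k r : ℕ) (P : Poly) (d : List (ℕ × ℕ × List ℕ)) (c : CT) : Bool :=
  Nat.ble 2 k && Nat.ble 2 r && Nat.ble r 64 &&
    dispL tn k r (([1], tn) :: (List.replicate k 1, SC) :: P) d &&
    chkV tn k ((List.replicate k 1, SC) :: P) c

theorem chk3_ok {tn k r : ℕ} {P : Poly} {d : List (ℕ × ℕ × List ℕ)} {c : CT}
    (h : chk3 tn k r P d c = true) : Good3 tn k P := by
  classical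
  simp only [chk3, Bool.and_eq_true, Nat.ble_eq] at h
  obtain ⟨⟨⟨⟨h1, h2⟩, h3⟩, h4⟩, h5⟩ := h
  obtain ⟨k, rfl⟩ : ∃ m, k = m + 2 := ⟨k - 2, by omega⟩
  intro ι _ w g i hg hw hs hi hP
  set b : Fin (k + 2) → ℝ := fun n => asum g w n with hb
  have key : ∀ c : List ℕ, dot c b = ∑ j, (c.getD (g j) 0 : ℝ) * w j := fun c => by
    have := sum_asum hg w fun n => (c.getD n 0 : ℝ)
    rw [dot, Fin.sum_univ_eq_sum_range (fun n => (c.getD n 0 : ℝ) * asum g w n), this]
  have b0 : ∀ j, 0 ≤ b j := fun j => asum_nonneg g hw _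
  have bs : ∑ j, b j = 1 := by
    have := sum_asum hg w fun _ => 1
    simp only [one_mul] at this
    rw [Fin.sum_univ_eq_sum_range (fun n => asum g w n), this, hs]
  have m1 : Mem ((List.replicate (k + 2) 1, SC) :: P) b := by
    refine List.forall_mem_cons.2 ⟨?_, fun x hx => by rw [key]; exact hP x hx⟩
    rw [div_self SC_pos.ne', ← bs]
    refine le_of_eq (sum_congr rfl fun j _ => ?_)
    rw [List.getD_eq_getElem _ _ (by simpa using j.2)]
    simp
  have hV := chkV_ok h5 b0 m1 bs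
  have gr : ∀ n : Fin (k + 2),
      ∑ j ∈ univ.filter (fun j => (⟨g j, hg j⟩ : Fin (k + 2)) = n), w j = b n := fun n =>
    sum_congr (filter_congr fun j _ => by simp [Fin.ext_iff]) fun _ _ => rfl
  rcases le_total ((tn : ℝ) / SC) (b 0) with e | e
  · exact Or.inl ((hV.big (by norm_num) e).group (fun j => (⟨g j, hg j⟩ : Fin (k + 2)))
      fun n => (gr n).le)
  have hD := dispL_ok h4 b0 (List.forall_mem_cons.2 ⟨by
    simpa [dot, Fin.sum_univ_succ] using e, m1⟩) bs e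
  have e0 : ∑ l ∈ univ.filter (fun j => g j = 0), w l = b 0 := rfl
  have e1 : w i = b 1 := by
    have : univ.filter (fun j => g j = 1) = {i} := by
      ext j
      simp [hi]
    show _ = asum g w 1
    rw [asum, this, sum_singleton]
  have iA : i ∈ univ \ univ.filter (fun j => g j = 0) := by simp [(hi i).2 rfl]
  have e2 : ∑ l ∈ univ \ univ.filter (fun j => g j = 0), w l = 1 - b 0 := by
    have := sum_sdiff (subset_univ (univ.filter fun j => g j = 0)) (f := w)
    linarith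
  have e3 := sum_erase_add _ w iA
  refine Or.inr ⟨r, h2, h3, ?_, ?_⟩
  · convert hD using 1
    convert (show ∑ l ∈ (univ \ univ.filter fun j => g j = 0).erase i, w l = 1 - b 0 - b 1 by
      linarith)
  have := (hV.pad (by norm_num)).group
    (b := fun o : Option ι => o.elim ((tn : ℝ) / SC) fun l => if g l = 0 then 0 else w l)
    (fun o : Option ι => o.elim 0 fun j => (⟨g j, hg j⟩ : Fin (k + 2))) fun n => le_of_eq ?_
  · rw [← e2] at this
    convert this using 4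
    simp
  rw [sum_filter, Fintype.sum_option]
  refine Fin.cases ?_ (fun n => ?_) n
  · simp only [Option.elim, if_true, Fin.cons_zero]
    rw [sum_eq_zero fun l _ => by
      by_cases c : g l = 0 <;> simp [c, Fin.ext_iff], add_zero]
  · simp only [Option.elim, Fin.cons_succ, Fin.tail, (Fin.succ_ne_zero n).symm, if_false, zero_add]
    rw [← gr, sum_filter]
    refine sum_congr rfl fun l _ => ?_
    by_cases c : g l = 0
    · rw [if_pos c, ite_self, if_neg fun h => Nat.succ_ne_zero _ (c.symm.trans (Fin.ext_iff.1 h)).symm]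
    · rw [if_neg c]

end Pool.Agent.MP_c853c5_nt.DT
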