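import Pool.Agent.MP_c853c5_nt.DT.L3D
import Pool.Agent.MP_c853c5_nt.DT.VChk
import Pool.Agent.MP_c853c5_nt.X.Cv
import Pool.Agent.MP_c853c5_nt.Y.X

/-!
Soundness of the rule for polytopes on which the dispersion bound applies.
-/

set_option autoImplicit false

open Finset

namespace Pool.Agent.MP_c853c5_nt.X

open Pool.Agent.MP_c853c5_nt.S Pool.Agent.MP_c853c5_nt.REG Pool.Agent.MP_c853c5_nt.Y
open Pool.Agent.MP_c853c5_nt.DT

/-- the rows as lists -/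
def PP.rows (x : PP) : Poly :=
  x.P.map fun y => ((List.range x.k).map fun j => dg y.1 (12 * j), y.2)

/-- the group `0` is the first group, the group `1` is the prime -/
def PP.Good3 (tn : ℕ) (x : PP) : Prop := DT.Good3 tn x.k x.rows

theorem PP.of_chk3 {tn : ℕ} {x : PP} (r : ℕ) (d : List (ℕ × ℕ × List ℕ)) (c : CT)
    (h : chk3 tn x.k r x.rows d c = true) : x.Good3 tn := chk3_ok h

lemma cnt3_ok (kd G m n : ℕ) : cnt3 kd G m n ≤ 1 → (∀ j < n, d4 G j < m) ∧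
    (cnt3 kd G m n = 0 → ∀ j < n, d4 G j ≠ 1) ∧
    (cnt3 kd G m n = 1 → ∃ p < n, get kd p = 0 ∧ ∀ j < n, d4 G j = 1 ↔ j = p) := by
  induction n with
  | zero => exact fun _ => ⟨by simp, by simp, fun h => absurd h Nat.zero_ne_one⟩
  | succ n ih =>
    have e : cnt3 kd G m (n + 1) = if d4 G n < m then if d4 G n = 1 then
        if get kd n = 0 then cnt3 kd G m n + 1 else 2 else cnt3 kd G m n else 2 := by
      simp only [cnt3, force_eq, cnd_eq, Nat.blt_eq, Nat.beq_eq]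
    rw [e]
    simp only [Nat.forall_lt_succ_right]
    split_ifs with c1 c2 c3 <;> intro h
    · obtain ⟨h1, h2, -⟩ := ih (by omega)
      refine ⟨⟨h1, c1⟩, fun g => g.elim, fun g => ⟨n, by omega, c3, fun j hj => ?_, by simpa using c2⟩⟩
      exact iff_of_false (h2 (by omega) j hj) hj.ne
    · omega
    · obtain ⟨h1, h2, h3⟩ := ih h
      refine ⟨⟨h1, c1⟩, fun g => ⟨h2 g, c2⟩, fun g => ?_⟩
      obtain ⟨p, p1, p2, p3⟩ := h3 g
      exact ⟨p, by omega, p2, p3, iff_of_false c2 p1.ne'⟩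
    · omega

variable {S : NS} {A : ℕ → Finset ℕ} {t : ℝ} {sg : Bool} {tn : ℕ}

lemma leaf3_pr (R : CutStmt2) (h1 : 1 / 3 ≤ t) (h2 : t < (tn : ℝ) / SC)
    (h3 : (tn : ℝ) / SC ≤ 1 / 2) {x : PP} {G : ℕ} (hL : Leaf2G sysD) (hx : x.Good3 tn)
    (hI : Inv S A) (hG : g3 S G x.k = true) :
    H sg t S.k S.kind (fun a => ∀ y ∈ x.P, Pr S.k G y a) 0 := by
  rw [g3, Nat.beq_eq] at hG
  obtain ⟨g1, -, g2⟩ := cnt3_ok _ _ _ _ hG.le
  obtain ⟨p, hp, hp0, g3⟩ := g2 hG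
  refine xLeaf2G R hL h1 h2 h3 hI.pos hI.kv fun B a ha hb _ hc => ?_
  have u := un_eq_SndL
  have k0 : (0 : ℝ) < S.k := by exact_mod_cast hI.pos
  refine ⟨_, eta3_pos (η := 1 / 10000) (c := 1 / 100) 64 (by norm_num) (by norm_num) k0, 64,
    fun w hw hs => T3.q2 (hx _ w (fun j => d4 G j) ⟨p, hp⟩ (fun j => g1 j j.2)
      (fun j => (hw j).1) hs (fun j => (g3 j j.2).trans (by rw [Fin.ext_iff])) fun z hz => ?_)
      (by norm_num) (by linarith) (fun j => (hw j).1) hs ?_ ((hc ⟨p, hp⟩).2.2.2 (kind_P hp0))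
      (by norm_num) (by linarith [(hc ⟨p, hp⟩).1, hb p hp, (hw ⟨p, hp⟩).2.1]) (by simp)⟩
  · obtain ⟨y, hy, rfl⟩ := List.mem_map.1 hz
    have := ha y hy (fun i => if h : i < S.k then w ⟨i, h⟩ else 0) (fun i hi => by
      rw [dif_pos hi]
      exact ⟨(hw _).1, (hc ⟨i, hi⟩).1.trans (hw _).2.1, (hw _).2.2.trans (hc ⟨i, hi⟩).2.1⟩)
      (by simpa only [sum_range, Fin.is_lt, dif_pos, Fin.eta] using hs)
    simp only [sum_range, Fin.is_lt, dif_pos, Fin.eta, wt] at this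
    refine le_trans (le_of_eq (sum_congr rfl fun j _ => ?_)) this
    rw [List.getD_eq_getElem _ _ (by simpa using g1 j j.2)]
    simp
  · simp [(g3 p hp).2 rfl]

theorem l3R_ok {im : NS → Rw → ℕ → Bool} (hm : Imok im) (R : CutStmt2) (h1 : 1 / 3 ≤ t)
    (h2 : t < (tn : ℝ) / SC) (h4 : 2 * tn ≤ SC) (hL : Leaf2G sysD) {PL : BT PP}
    (hx : PL.All (PP.Good3 tn)) : XTok t (l3R im PL) := fun _ ih _ hH sg S s => by
  have : (2 : ℝ) * tn ≤ SC := by exact_mod_cast h4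
  simp only [l3R, force_eq]
  refine Val.grd fun g hl A hI => ?_
  exact cv_ok hm (hH sg) hI ((leaf3_pr R h1 h2 ((div_le_iff₀ SC_pos).2 (by linarith)) hL
    (hx.find _) hI g).anti fun _ ha => ha.2) hl

end Pool.Agent.MP_c853c5_nt.X
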