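import Pool.Agent.MP_c853c5_nt.X.CvD

/-!
The rule for polytopes on which the dispersion bound applies (definitions only).
-/

set_option autoImplicit false

namespace Pool.Agent.MP_c853c5_nt.X

/-- equal to `1` iff all labels are below `m` and exactly one block, a prime, has the label `1` -/
noncomputable def cnt3 (kd G m n : ℕ) : ℕ :=
  Nat.rec (motive := fun _ => ℕ) 0
    (fun j ih => force (d4 G j) fun g => cnd (Nat.blt g m)
      (cnd (Nat.beq g 1) (cnd (Nat.beq (get kd j) 0) (Nat.succ ih) 2) ih) 2) n

noncomputable def g3 (S : NS) (G m : ℕ) : Bool := Nat.beq (cnt3 S.kd G m S.k) 1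

/-- code after the tags: `16` bits for the polytope, `4 k` bits for the groups, then `cv` -/
noncomputable def l3R (im : NS → Rw → ℕ → Bool) (PL : BT PP) : Rule := fun _ ih sg S s =>
  force (Nat.mod s 65536) fun i => force (Nat.mul 4 S.k) fun w =>
  force (Nat.mod (Nat.shiftRight s 16) (one w)) fun G =>
  grd (g3 S G (PL.find i).k)
    (force (Nat.shiftRight s (Nat.add 16 w)) (cv im (ih sg) S G (PL.find i).P))

end Pool.Agent.MP_c853c5_nt.X
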