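import Pool.Agent.MP_c853c5_nt.DT.L3
import Pool.Agent.MP_c853c5_nt.X.FQ
import Pool.Agent.MP_c853c5_nt.X.Gd

/-!
Polytopes on which the dispersion bound applies, as providers of rows.
-/

set_option autoImplicit false

namespace Pool.Agent.MP_c853c5_nt.X

open Pool.Agent.MP_c853c5_nt.S Pool.Agent.MP_c853c5_nt.REG Pool.Agent.MP_c853c5_nt.Y
open Pool.Agent.MP_c853c5_nt.DT

variable {t : ℝ} {tn : ℕ} {PL : BT PP}

theorem gd3_ok (R : CutStmt2) (h1 : 1 / 3 ≤ t) (h2 : t < (tn : ℝ) / SC) (h4 : 2 * tn ≤ SC)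
    (hL : Leaf2G sysD) (hx : PL.All (PP.Good3 tn)) : PL.All (PP.Gd t g3) := by
  have : (2 : ℝ) * tn ≤ SC := by exact_mod_cast h4
  refine hx.imp fun x hx sg S A G hI c => ⟨?_,
    leaf3_pr R h1 h2 ((div_le_iff₀ SC_pos).2 (by linarith)) hL hx hI c⟩
  rw [g3, Nat.beq_eq] at c
  exact (cnt3_ok _ _ _ _ c.le).1

theorem t3P_ok (R : CutStmt2) (h1 : 1 / 3 ≤ t) (h2 : t < (tn : ℝ) / SC) (h4 : 2 * tn ≤ SC)
    (hL : Leaf2G sysD) (hx : PL.All (PP.Good3 tn)) : Prok t (tabP g3 PL) :=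
  tabP_ok fun sg S A i G hI c => ((gd3_ok R h1 h2 h4 hL hx).find i sg S A G hI c).2

end Pool.Agent.MP_c853c5_nt.X
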