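import Pool.Agent.MP_c853c5_nt.DS.Basic

/-!
The terms with nonzero frequency as an integral of a bilinear form in primes (statements).
-/

set_option autoImplicit false

open Finset Filter Real MeasureTheory

namespace Pool.Agent.MP_c853c5_nt.DT

open DS (hs rb QF mp PrK og Lm bb)

/-- the kernel without its constant term -/
noncomputable def DB (B : ℕ) (y : ℝ) : ℝ := ∑ h ∈ hs B, Real.cos (2 * π * (h * y))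

/-- the matrix on primes -/
noncomputable def GM (X : ℝ) (B : ℕ) (z : ℝ) (a b : ℕ) : ℝ :=
  if a = b then 0 else DB B (z * X / (a * b))

/-- the vector on primes -/
noncomputable def AV (Δ : ℝ) (R : Finset ℕ) (c : ℕ → ℝ) (k : ℕ) (z : ℝ) : ℝ :=
  ∑ n ∈ R, c n * Z.gg Δ (z * n / k - 1)

def GaussStmt : Prop := ∀ A c ξ : ℝ, 0 < A →
  Integrable (fun y : ℝ => Real.exp (-(π * A * (y - c) ^ 2)) * Real.cos (2 * π * (ξ * y))) ∧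
  ∫ y : ℝ, Real.exp (-(π * A * (y - c) ^ 2)) * Real.cos (2 * π * (ξ * y)) =
    (√A)⁻¹ * (Real.exp (-(π * ξ ^ 2 / A)) * Real.cos (2 * π * (ξ * c)))

def IntStmt : Prop := ∀ (X Δ Γ : ℝ) (B : ℕ) (D R : Finset ℕ) (b c : ℕ → ℝ), 0 < X → 0 < Δ →
  0 < Γ → 0 ∉ D → 0 ∉ R →
  QF D R b c (rb X Δ Γ B) = X * ∫ z : ℝ, ∑ a ∈ D, ∑ k ∈ D,
    (b a * AV Γ R c a z / a) * (b k * AV Δ R c k z / k) * DB B (z * X / (a * k))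

def TrStmt : Prop := ∀ r : ℕ, 1 ≤ r → ∃ C : ℝ, 0 < C ∧
  ∀ (K B : ℕ) (D : Finset ℕ) (X Z l : ℝ), PrK K D → 4 ^ (2 * r + 1) * B < K → 0 < X → 0 < Z →
    0 ≤ l → (2 * K : ℝ) ^ (2 * r) * l ≤ Z * X →
    Integrable (fun z : ℝ => Real.exp (-(π * z ^ 2 / Z ^ 2)) *
      ∑ a ∈ D, ∑ k ∈ D, mp D (GM X B z) r a k ^ 2) ∧
    ∫ z : ℝ, Real.exp (-(π * z ^ 2 / Z ^ 2)) * ∑ a ∈ D, ∑ k ∈ D, mp D (GM X B z) r a k ^ 2 ≤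
      Z * (C * K ^ (r + 1) * B ^ r + K * (2 * K * B) ^ (2 * r) * Real.exp (-(π * l ^ 2)))

def VecStmt : Prop := ∀ (Δ Z : ℝ) (K P Λ k : ℕ), 0 < Δ → Δ ≤ 1 / 4 → 1 ≤ P → 1 ≤ Λ → 1 ≤ K →
  K ≤ k → k ≤ 2 * K → 4 * K ≤ Z * P →
  (∀ z, AV Δ (Icc P (Λ * P)) (fun _ => 1) k z ≤ 4 / Δ + 16 * Λ * P) ∧
  (∀ z, AV Δ (Icc P (Λ * P)) (fun _ => 1) k z ^ 2 ≤
    25 * (4 / Δ + 16 * Λ * P) ^ 2 * Real.exp (-(π * z ^ 2 / Z ^ 2))) ∧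
  Integrable (AV Δ (Icc P (Λ * P)) (fun _ => 1) k) ∧
  ∫ z, AV Δ (Icc P (Λ * P)) (fun _ => 1) k z ≤ 2 * Λ * K

def TailStmt : Prop := ∀ Λ : ℕ, 1 ≤ Λ → ∀ᶠ x : ℝ in atTop,
  ∀ (X Δ Δ₁ Δ₂ : ℝ) (K P : ℕ) (D : Finset ℕ) (b c : ℕ → ℝ), x / 2 ≤ X → X ≤ 2 * x →
    x ^ (-(1 / 2) : ℝ) ≤ Δ → Δ ≤ Δ₁ → Δ ≤ Δ₂ → 1 ≤ K → 1 ≤ P → (K : ℝ) * P ≤ X → PrK K D →
    (∀ n, |b n| ≤ 1) → (∀ n, |c n| ≤ 1) →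
    |QF D (Icc P (Λ * P)) b c (og X Δ₁ Δ₂) -
      QF D (Icc P (Λ * P)) b c (rb X Δ₁ Δ₂ (bb x X Δ Λ K P))| ≤ X * (K * P) * x ^ (-1 : ℝ)

def Op2Stmt : Prop := ∀ (D : Finset ℕ) (G : ℕ → ℕ → ℝ) (α β : ℕ → ℝ) (r : ℕ), 1 ≤ r →
  (∀ a b, G a b = G b a) →
  |∑ a ∈ D, ∑ b ∈ D, α a * β b * G a b| ^ (2 * r) ≤
    ((∑ a ∈ D, α a ^ 2) * ∑ a ∈ D, β a ^ 2) ^ r * ∑ a ∈ D, ∑ k ∈ D, mp D G r a k ^ 2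

/-- the bound before the choice of the parameters -/
def RbStmt : Prop := ∀ r : ℕ, 1 ≤ r → ∃ C : ℝ, 0 < C ∧
  ∀ (X Δ Δ₁ Δ₂ Z l lam : ℝ) (K P Λ B : ℕ) (D : Finset ℕ) (b c : ℕ → ℝ), 0 < X → 0 < Δ →
    Δ ≤ Δ₁ → Δ₁ ≤ 1 / 4 → Δ ≤ Δ₂ → Δ₂ ≤ 1 / 4 → 1 ≤ P → 1 ≤ Λ → PrK K D →
    4 ^ (2 * r + 1) * B < K → 4 * K ≤ Z * P → 0 ≤ l → (2 * K : ℝ) ^ (2 * r) * l ≤ Z * X →
    0 < lam → (∀ n, |b n| ≤ 1) → (∀ n, |c n| ≤ 1) →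
    |QF D (Icc P (Λ * P)) b c (rb X Δ₁ Δ₂ B)| ≤
      X * ((lam + B) * (4 * Λ * (4 / Δ + 16 * Λ * P)) +
        50 * (4 / Δ + 16 * Λ * P) ^ 2 / K / lam ^ (2 * r - 1) *
          (Z * (C * K ^ (r + 1) * B ^ r + K * (2 * K * B) ^ (2 * r) * Real.exp (-(π * l ^ 2)))))

structure GeoN (x μ : ℝ) (r : ℕ) (X Δ : ℝ) (K P : ℕ) : Prop where
  x1 : x / 2 ≤ X
  x2 : X ≤ 2 * x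
  d1 : x ^ (-(1 / 2) : ℝ) ≤ Δ
  d2 : Δ ≤ x ^ (-(1 / 3) : ℝ)
  k1 : 1 ≤ K
  p1 : 1 ≤ P
  p4 : x ^ (1 / 400 : ℝ) ≤ P
  h3 : (K : ℝ) ^ (2 * r - 2) * (K * P) ≤ X
  hn : Lm X Δ K P ^ r * max 1 (1 / (P * Δ)) ^ (2 * r + 1) * x ^ μ ≤ K ^ (r - 1)

def NewStmt : Prop := ∀ (r Λ : ℕ) (μ : ℝ), 2 ≤ r → 1 ≤ Λ → 0 < μ → ∃ ν : ℝ, 0 < ν ∧
  ∀ᶠ x : ℝ in atTop, ∀ (X Δ Δ₁ Δ₂ : ℝ) (K P : ℕ) (D : Finset ℕ) (b c : ℕ → ℝ),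
    GeoN x μ r X Δ K P → Δ ≤ Δ₁ → Δ₁ ≤ 1 / 4 → Δ ≤ Δ₂ → Δ₂ ≤ 1 / 4 → PrK K D →
    (∀ n, |b n| ≤ 1) → (∀ n, |c n| ≤ 1) →
    |QF D (Icc P (Λ * P)) b c (og X Δ₁ Δ₂)| ≤ X * (K * P) * x ^ (-ν)

end Pool.Agent.MP_c853c5_nt.DT
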