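import Pool.Agent.MP_c853c5_nt.DT.NDefs

set_option autoImplicit false

open Finset Filter Real MeasureTheory

namespace Pool.Agent.MP_c853c5_nt.DT

open DS

lemma re_NInt (p q : ℝ) :
    (Complex.exp ((p : ℂ) + (q : ℂ) * Complex.I)).re = Real.exp p * Real.cos q := by
  rw [Complex.exp_re]
  simp

theorem gauss_stmt : GaussStmt := by
  intro A c ξ hA
  have hA' : (A : ℂ) ≠ 0 := by exact_mod_cast hA.ne'
  have hp : (π : ℂ) ≠ 0 := by exact_mod_cast Real.pi_pos.ne'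
  have hb : (((-(π * A) : ℝ)) : ℂ).re < 0 := by
    rw [Complex.ofReal_re]
    exact neg_lt_zero.2 (by positivity)
  have h1 := integrable_cexp_quadratic' hb (2 * π * A * c + 2 * π * ξ * Complex.I) (-(π * A * c ^ 2))
  have h2 := integral_cexp_quadratic hb (2 * π * A * c + 2 * π * ξ * Complex.I) (-(π * A * c ^ 2))
  have h3 : ∀ y : ℝ, (((-(π * A) : ℝ)) : ℂ) * (y : ℂ) ^ 2 +
      (2 * π * A * c + 2 * π * ξ * Complex.I) * y + -(π * A * c ^ 2) =
      ((-(π * A * (y - c) ^ 2) : ℝ) : ℂ) + ((2 * π * (ξ * y) : ℝ) : ℂ) * Complex.I := fun y => by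
    push_cast
    ring
  have h4 : (-(π * A * c ^ 2) : ℂ) - (2 * π * A * c + 2 * π * ξ * Complex.I) ^ 2 /
      (4 * (((-(π * A) : ℝ)) : ℂ)) =
      ((-(π * ξ ^ 2 / A) : ℝ) : ℂ) + ((2 * π * (ξ * c) : ℝ) : ℂ) * Complex.I := by
    push_cast
    field_simp
    linear_combination (4 * (ξ : ℂ) ^ 2) * Complex.I_mul_I
  have h5 : ((π : ℂ) / -(((-(π * A) : ℝ)) : ℂ)) ^ (1 / 2 : ℂ) = (((√A)⁻¹ : ℝ) : ℂ) := by
    have e : (π : ℂ) / -(((-(π * A) : ℝ)) : ℂ) = ((A⁻¹ : ℝ) : ℂ) := by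
      push_cast
      field_simp
    rw [e, ← Real.sqrt_inv, Real.sqrt_eq_rpow, Complex.ofReal_cpow (inv_pos.2 hA).le]
    norm_num
  simp only [h3] at h1 h2
  have h6 := Complex.reCLM.integral_comp_comm h1
  rw [h2, h4, h5] at h6
  simp only [Complex.reCLM_apply, Complex.re_ofReal_mul, re_NInt] at h6
  refine ⟨?_, h6⟩
  simpa only [RCLike.re_to_complex, re_NInt] using h1.re

lemma term_NInt (hG : GaussStmt) {X Δ Γ n n' κ : ℝ} (hΔ : 0 < Δ) (hΓ : 0 < Γ)
    (hn : 0 < n) (hκ : 0 < κ) (h : ℤ) :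
    Integrable (fun z : ℝ => Z.gg Δ (z * n / κ - 1) * Z.gg Γ (z * n' / κ - 1) *
      Real.cos (2 * π * (h * (z * X / κ)))) ∧
    am X Δ Γ n n' h * Real.cos (2 * π * (h * ct X Δ Γ n n')) =
      X / κ * ∫ z : ℝ, Z.gg Δ (z * n / κ - 1) * Z.gg Γ (z * n' / κ - 1) *
        Real.cos (2 * π * (h * (z * X / κ))) := by
  have hd := dd_pos (Δ := Δ) n' hΓ hn
  set d := dd Δ Γ n n' with hdd
  set A := d / (κ * Δ * Γ) ^ 2 with hAd
  have hA : 0 < A := by positivity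
  set c := ct κ Δ Γ n n' with hc
  set E := Real.exp (-(π * (n - n') ^ 2 / d)) with hE
  have hsA : √A = √d / (κ * Δ * Γ) := by
    rw [hAd, Real.sqrt_div hd.le, Real.sqrt_sq (by positivity)]
  have hsd : 0 < √d := Real.sqrt_pos.2 hd
  have h1 : ∀ m : ℝ, Z.gg Δ (m * n / κ - 1) * Z.gg Γ (m * n' / κ - 1) *
      Real.cos (2 * π * (h * (m * X / κ))) = (Δ * Γ)⁻¹ * E *
        (Real.exp (-(π * A * (m - c) ^ 2)) * Real.cos (2 * π * (h * X / κ * m))) := fun m => by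
    rw [← mul_assoc _ (Real.exp _)]
    congr 1
    · unfold Z.gg
      rw [hE, mul_assoc ((Δ * Γ)⁻¹), ← Real.exp_add, mul_mul_mul_comm, ← Real.exp_add, mul_inv]
      congr 2
      rw [hAd, hc, ct, ← hdd]
      field_simp
      rw [hdd, dd]
      ring
    · congr 2
      ring
  obtain ⟨g1, g2⟩ := hG A c (h * X / κ) hA
  simp only [h1]
  refine ⟨g1.const_mul _, ?_⟩
  have e1 : π * (h * X / κ) ^ 2 / A = π * (h : ℝ) ^ 2 * (X * Δ * Γ) ^ 2 / d := by
    rw [hAd]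
    field_simp
  have e2 : h * X / κ * c = h * ct X Δ Γ n n' := by
    rw [hc, ct, ct, ← hdd]
    field_simp
  rw [integral_const_mul, g2, e1, e2, hsA, am, ← hdd, ← hE]
  field_simp

theorem int_stmt (hG : GaussStmt) : IntStmt := by
  intro X Δ Γ B D R b c hX hΔ hΓ hD hR
  have hp : ∀ {S : Finset ℕ} {a : ℕ}, 0 ∉ S → a ∈ S → (0 : ℝ) < a := fun h0 ha =>
    Nat.cast_pos.2 (Nat.pos_of_ne_zero fun e => h0 (e ▸ ha))
  have key := fun (u v : ℕ × ℕ) (hu : u ∈ D ×ˢ R) (hv : v ∈ D ×ˢ R) (h : ℤ) =>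
    term_NInt hG (X := X) (n := (u.1 : ℝ) * u.2) (n' := (v.1 : ℝ) * v.2) (κ := (u.1 : ℝ) * v.1)
      hΔ hΓ (mul_pos (hp hD (mem_product.1 hu).1) (hp hR (mem_product.1 hu).2))
      (mul_pos (hp hD (mem_product.1 hu).1) (hp hD (mem_product.1 hv).1)) h
  have e : ∀ z : ℝ, ∑ a ∈ D, ∑ k ∈ D,
      (b a * AV Γ R c a z / a) * (b k * AV Δ R c k z / k) * DB B (z * X / (a * k)) =
      ∑ u ∈ D ×ˢ R, ∑ v ∈ D ×ˢ R, ∑ h ∈ hs B, b u.1 * c u.2 * (b v.1 * c v.2) / (u.1 * v.1) *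
        (Z.gg Δ (z * ((u.1 : ℝ) * u.2) / (u.1 * v.1) - 1) *
          Z.gg Γ (z * ((v.1 : ℝ) * v.2) / (u.1 * v.1) - 1) *
          Real.cos (2 * π * (h * (z * X / (u.1 * v.1))))) := fun z => by
    simp only [sum_product]
    refine sum_congr rfl fun a ha => ?_
    rw [sum_comm (s := R)]
    refine sum_congr rfl fun k hk => ?_
    have ha' := (hp hD ha).ne'
    have hk' := (hp hD hk).ne'
    have e0 : b a * AV Γ R c a z / a * (b k * AV Δ R c k z / k) =
        b a * b k / (a * k) * (AV Δ R c k z * AV Γ R c a z) := by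
      field_simp
    rw [e0, AV, AV, sum_mul_sum, mul_sum, sum_mul]
    refine sum_congr rfl fun n _ => ?_
    rw [mul_sum, sum_mul]
    refine sum_congr rfl fun n' _ => ?_
    rw [DB, mul_sum]
    refine sum_congr rfl fun h _ => ?_
    have e1 : z * ((a : ℝ) * n) / (a * k) = z * n / k := by field_simp
    have e2 : z * ((k : ℝ) * n') / (a * k) = z * n' / a := by field_simp
    rw [e1, e2]
    ring
  simp only [e]
  rw [integral_finsetSum _ fun u hu => integrable_finsetSum _ fun v hv =>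
    integrable_finsetSum _ fun h _ => (key u v hu hv h).1.const_mul _, QF, mul_sum]
  refine sum_congr rfl fun u hu => ?_
  rw [integral_finsetSum _ fun v hv =>
    integrable_finsetSum _ fun h _ => (key u v hu hv h).1.const_mul _, mul_sum]
  refine sum_congr rfl fun v hv => ?_
  rw [integral_finsetSum _ fun h _ => (key u v hu hv h).1.const_mul _, rb, mul_sum, mul_sum]
  refine sum_congr rfl fun h _ => ?_
  rw [(key u v hu hv h).2, integral_const_mul]
  ring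

end Pool.Agent.MP_c853c5_nt.DT
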