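import Pool.Agent.MP_c853c5_nt.DT.NDefs

/-!
The terms with nonzero frequency: choice of the parameters.
-/

set_option autoImplicit false

open Finset Filter Real MeasureTheory

namespace Pool.Agent.MP_c853c5_nt.DT

open DS

lemma root_NNew {m : ℕ} {L J y K : ℝ} (hL : 1 ≤ L) (hJ : 1 ≤ J) (hy : 1 ≤ y) (hK : 1 ≤ K)
    (h : L ^ (m + 1) * J ^ (2 * (m + 1) + 1) * y ^ (4 * (m + 1)) ≤ K ^ m) : L * J * y ^ 4 ≤ K := by
  rw [← pow_le_pow_iff_left₀ (by positivity) (by positivity) (Nat.succ_ne_zero m)]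
  refine le_trans ?_ (h.trans (pow_le_pow_right₀ hK (Nat.le_succ m)))
  rw [mul_pow, mul_pow, ← pow_mul]
  gcongr
  omega

lemma fin_NNew {m : ℕ} {L J y K P a B c l C E Λ : ℝ} (hL : 1 ≤ L) (hJ : 1 ≤ J) (hy : 1 ≤ y)
    (hK : 1 ≤ K) (hP : 0 < P) (ha0 : 0 < a) (hΛ : 1 ≤ Λ) (hc : 1 ≤ c) (hl : 0 ≤ l) (hC : 0 ≤ C)
    (hB0 : 0 ≤ B) (hB : B ≤ c * L) (ha : a ≤ 20 * Λ * P * J) (hE : E ≤ 1)
    (h : L ^ (m + 1) * J ^ (2 * (m + 1) + 1) * y ^ (4 * (m + 1)) ≤ K ^ m)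
    (w1 : 80 * Λ ^ 2 * c ≤ y)
    (w2 : 50 * 4 ^ (m + 1) * l * (C + 1) * (20 * Λ) ^ (2 * (m + 1) + 1) * c ^ (m + 1) ≤ y) :
    (K * P / (a * y) + B) * (4 * Λ * a) + 50 * a ^ 2 / K / (K * P / (a * y)) ^ (2 * m + 1) *
      (4 ^ (m + 1) * l * K / P * (C * K ^ (m + 1 + 1) * B ^ (m + 1) + E)) ≤
      K * P * ((4 * Λ + 2) / y) := by
  have f1 := root_NNew hL hJ hy hK h
  have y0 : 0 < y := by linarith
  have k0 : 0 < K := by linarith
  have t1 : K * P / (a * y) * (4 * Λ * a) = K * P * (4 * Λ / y) := by field_simp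
  have t2 : B * (4 * Λ * a) ≤ K * P * (1 / y) := by
    rw [mul_one_div, le_div_iff₀ y0]
    calc B * (4 * Λ * a) * y ≤ c * L * (4 * Λ * (20 * Λ * P * J)) * y := by gcongr
      _ = 80 * Λ ^ 2 * c * (L * J * y) * P := by ring
      _ ≤ y * (L * J * y) * P := by gcongr
      _ = L * J * y ^ 2 * P := by ring
      _ ≤ L * J * y ^ 4 * P := by
        gcongr
        omega
      _ ≤ _ := by gcongr
  have e1 : C * K ^ (m + 1 + 1) * B ^ (m + 1) + E ≤ (C + 1) * K ^ (m + 1 + 1) * (c * L) ^ (m + 1) := by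
    have b1 : C * K ^ (m + 1 + 1) * B ^ (m + 1) ≤ C * K ^ (m + 1 + 1) * (c * L) ^ (m + 1) := by gcongr
    have b2 : 1 ≤ K ^ (m + 1 + 1) * (c * L) ^ (m + 1) := one_le_mul_of_one_le_of_one_le
      (one_le_pow₀ hK) (one_le_pow₀ (one_le_mul_of_one_le_of_one_le hc hL))
    linarith
  have e2 : a / P ≤ 20 * Λ * J := by
    rw [div_le_iff₀ hP]
    linarith
  have t3 : 50 * a ^ 2 / K / (K * P / (a * y)) ^ (2 * m + 1) *
      (4 ^ (m + 1) * l * K / P * (C * K ^ (m + 1 + 1) * B ^ (m + 1) + E)) ≤ K * P * (1 / y) := by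
    calc _ ≤ 50 * a ^ 2 / K / (K * P / (a * y)) ^ (2 * m + 1) *
          (4 ^ (m + 1) * l * K / P * ((C + 1) * K ^ (m + 1 + 1) * (c * L) ^ (m + 1))) := by gcongr
      _ = 50 * 4 ^ (m + 1) * l * (C + 1) * (a / P) ^ (2 * (m + 1) + 1) * c ^ (m + 1) *
          (L ^ (m + 1) * y ^ (2 * m + 1)) * (K * P / K ^ m) := by
        simp only [div_pow, mul_pow]
        field_simp
        ring
      _ ≤ 50 * 4 ^ (m + 1) * l * (C + 1) * (20 * Λ * J) ^ (2 * (m + 1) + 1) * c ^ (m + 1) *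
          (L ^ (m + 1) * y ^ (2 * m + 1)) * (K * P / K ^ m) := by gcongr
      _ = 50 * 4 ^ (m + 1) * l * (C + 1) * (20 * Λ) ^ (2 * (m + 1) + 1) * c ^ (m + 1) *
          (L ^ (m + 1) * J ^ (2 * (m + 1) + 1) * y ^ (2 * m + 1)) * (K * P / K ^ m) := by
        rw [mul_pow (20 * Λ) J]
        ring
      _ ≤ y * (L ^ (m + 1) * J ^ (2 * (m + 1) + 1) * y ^ (2 * m + 1)) * (K * P / K ^ m) := by gcongr
      _ = L ^ (m + 1) * J ^ (2 * (m + 1) + 1) * y ^ (2 * m + 3) / K ^ m * (K * P * (1 / y)) := by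
        field_simp
        ring
      _ ≤ _ := by
        refine mul_le_of_le_one_left (by positivity) ((div_le_one (by positivity)).2 (le_trans ?_ h))
        gcongr
        omega
  have t4 : K * P * ((4 * Λ + 2) / y) = K * P * (4 * Λ / y) + K * P * (1 / y) + K * P * (1 / y) := by
    ring
  rw [add_mul, t1, t4]
  linarith

lemma exp_NNew {r : ℕ} {x K B : ℝ} (hx : 8 ≤ x) (hl : 6 * r + 2 ≤ Real.log x) (hB0 : 0 ≤ B)
    (hB : B ≤ K) (hK : K ≤ 2 * x) :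
    K * (2 * K * B) ^ (2 * r) * Real.exp (-(π * Real.log x ^ 2)) ≤ 1 := by
  have k0 := hB0.trans hB
  have x0 : 0 < x := by linarith
  have a1 : 2 * K * B ≤ x ^ 3 := by
    have : K * B ≤ (2 * x) * (2 * x) := by gcongr; linarith
    nlinarith [mul_pos x0 x0]
  have a2 : K * (2 * K * B) ^ (2 * r) ≤ x ^ 2 * (x ^ 3) ^ (2 * r) := by
    gcongr
    nlinarith
  rw [Real.exp_neg, ← div_eq_mul_inv, div_le_one (Real.exp_pos _)]
  refine a2.trans ?_
  rw [← pow_mul, ← pow_add, ← Real.log_le_iff_le_exp (by positivity), Real.log_pow]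
  have r0 : (0 : ℝ) ≤ r := Nat.cast_nonneg r
  push_cast
  nlinarith [Real.pi_gt_three, sq_nonneg (Real.log x)]

theorem new_stmt (hR : RbStmt) (hT : TailStmt) : NewStmt := by
  intro r Λ μ hr hΛ hμ
  obtain ⟨C, hC, hR⟩ := hR r (by omega)
  obtain ⟨m, rfl⟩ : ∃ m, r = m + 1 := ⟨r - 1, by omega⟩
  have hΛ' : (1 : ℝ) ≤ Λ := by exact_mod_cast hΛ
  obtain ⟨s, hs, e⟩ : ∃ s : ℝ, 0 < s ∧ s * (4 * (m + 1) : ℕ) = μ :=
    ⟨μ / (4 * (m + 1) : ℕ), by positivity, by field_simp⟩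
  have hν : 0 < min (s / 2) (1 / 2) := by positivity
  refine ⟨_, hν, ?_⟩
  filter_upwards [hT Λ hΛ, eventually_ge_atTop (8 : ℝ), E.ev_le_log (6 * (m + 1 : ℕ) + 2),
    E.ev_log_le (2 * 4 ^ (2 * (m + 1) + 1) * (3 * Λ)) 1 hs, E.ev_log_le (80 * Λ ^ 2 * (3 * Λ)) 1 hs,
    E.ev_log_le (50 * 4 ^ (m + 1) * (C + 1) * (20 * Λ) ^ (2 * (m + 1) + 1) * (3 * Λ) ^ (m + 1))
      (m + 1 + 1) hs, E.ev_const_le (8 * Λ + 4) (half_pos hs), E.ev_const_le 2 one_half_pos]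
    with x hT hx hl w0 w1 w2 w3 w4 X Δ Δ₁ Δ₂ K P D b c G a1 a2 a3 a4 hD hb hc
  rw [pow_one] at w0 w1
  have x0 : 0 < x := by linarith
  have x1 : 1 ≤ x := by linarith
  have l1 : 1 ≤ Real.log x := le_trans (by
    have : (0 : ℝ) ≤ (m + 1 : ℕ) := Nat.cast_nonneg _
    linarith) hl
  have hΔ : 0 < Δ := (Real.rpow_pos_of_pos x0 _).trans_le G.d1
  have hX : 0 < X := lt_of_lt_of_le (by linarith) G.x1
  have hK : (1 : ℝ) ≤ K := by exact_mod_cast G.k1
  have hP : (1 : ℝ) ≤ P := by exact_mod_cast G.p1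
  have hN : (K : ℝ) * P ≤ X := (le_mul_of_one_le_left (by positivity) (one_le_pow₀ hK)).trans G.h3
  have t1 := hT X Δ Δ₁ Δ₂ K P D b c G.x1 G.x2 G.d1 a1 a3 G.k1 G.p1 hN hD hb hc
  have c1 : 1 ≤ 3 * (Λ : ℝ) * Real.log x := by nlinarith
  have hL := one_le_Lm X Δ K P
  have hB : (bb x X Δ Λ K P : ℝ) ≤ 3 * Λ * Real.log x * Lm X Δ K P :=
    (Nat.floor_le (by positivity)).trans
      (mul_le_mul_of_nonneg_left (le_Lm X Δ K P) (by positivity))
  have hn := G.hn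
  rw [Nat.add_sub_cancel, ← e, Real.rpow_mul_natCast x0.le] at hn
  have y1 : 1 ≤ x ^ s := Real.one_le_rpow x1 hs.le
  have ey : x ^ s = x ^ (s / 2) * x ^ (s / 2) := by rw [← Real.rpow_add x0, add_halves]
  have hJ : (1 : ℝ) ≤ max 1 (1 / (P * Δ)) := le_max_left _ _
  have ha : 4 / Δ + 16 * Λ * P ≤ 20 * Λ * P * max 1 (1 / (P * Δ)) := by
    have b1 : 4 / Δ ≤ 4 * P * max 1 (1 / (P * Δ)) := by
      refine le_trans (le_of_eq ?_)
        (mul_le_mul_of_nonneg_left (le_max_right _ _) (by positivity))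
      field_simp
    have b2 : (P : ℝ) ≤ P * max 1 (1 / (P * Δ)) := le_mul_of_one_le_right (by positivity) hJ
    nlinarith
  generalize max 1 (1 / ((P : ℝ) * Δ)) = J at *
  generalize bb x X Δ Λ K P = B at *
  generalize Lm X Δ K P = L at *
  have f1 := root_NNew hL hJ y1 hK hn
  have f2 : (4 : ℝ) ^ (2 * (m + 1) + 1) * B < K := by
    have b1 : (4 : ℝ) ^ (2 * (m + 1) + 1) * B ≤
        4 ^ (2 * (m + 1) + 1) * (3 * Λ * Real.log x * L) := by gcongr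
    have b2 : L * x ^ s ≤ L * J * (x ^ s) ^ 4 := by
      rw [mul_assoc]
      exact mul_le_mul_of_nonneg_left ((le_self_pow₀ y1 (by norm_num)).trans
        (le_mul_of_one_le_left (by positivity) hJ)) (by positivity)
    have b3 := mul_le_mul_of_nonneg_left w0 (show 0 ≤ L by positivity)
    nlinarith
  have f3 : (B : ℝ) ≤ K :=
    (le_mul_of_one_le_left (Nat.cast_nonneg B) (one_le_pow₀ (by norm_num))).trans f2.le
  have f4 : (4 : ℝ) ≤ 4 ^ (m + 1) := le_self_pow₀ (by norm_num) (by omega)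
  have t2 := hR X Δ Δ₁ Δ₂ (4 ^ (m + 1) * Real.log x * K / P) (Real.log x)
    (K * P / ((4 / Δ + 16 * Λ * P) * x ^ s)) K P Λ B D b c hX hΔ a1 a2 a3 a4 G.p1 hΛ hD
    (by exact_mod_cast f2)
    (by
      rw [div_mul_cancel₀ _ (by positivity)]
      exact mul_le_mul_of_nonneg_right (by nlinarith) (by positivity))
    (by linarith)
    (by
      have := G.h3
      rw [show 2 * (m + 1) - 2 = 2 * m by omega] at this
      refine le_trans (le_of_eq ?_) (mul_le_mul_of_nonneg_left this (by positivity))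
      rw [mul_pow, pow_mul (2 : ℝ)]
      field_simp
      ring)
    (by positivity) hb hc
  rw [show 2 * (m + 1) - 1 = 2 * m + 1 by omega] at t2
  have t3 := fin_NNew (l := Real.log x) hL hJ y1 hK (by linarith) (by positivity) hΛ' c1 (by linarith) hC.le
    (Nat.cast_nonneg B) hB ha
    (exp_NNew hx hl (Nat.cast_nonneg B) f3 (by nlinarith [G.x2])) hn (by linarith)
    (le_trans (le_of_eq (by ring)) w2)
  have t4 := t2.trans (mul_le_mul_of_nonneg_left t3 hX.le)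
  have up : ∀ {u v : ℝ}, u ≤ v → x ^ u ≤ x ^ v := fun h => Real.rpow_le_rpow_of_exponent_le x1 h
  have u1 : (4 * Λ + 2) / x ^ s ≤ x ^ (-min (s / 2) (1 / 2)) / 2 := by
    refine le_trans ?_ (div_le_div_of_nonneg_right (up (neg_le_neg (min_le_left _ _))) zero_le_two)
    rw [Real.rpow_neg x0.le, div_le_iff₀ (by positivity), ey]
    field_simp
    linarith
  have u2 : x ^ (-1 : ℝ) ≤ x ^ (-min (s / 2) (1 / 2)) / 2 := by
    refine le_trans ?_ (div_le_div_of_nonneg_right (up (neg_le_neg (min_le_right _ _))) zero_le_two)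
    rw [le_div_iff₀ two_pos]
    refine (mul_le_mul_of_nonneg_left w4 (by positivity)).trans_eq ?_
    rw [← Real.rpow_add x0]
    norm_num
  have u3 := mul_le_mul_of_nonneg_left u1 (show 0 ≤ X * ((K : ℝ) * P) by positivity)
  have u4 := mul_le_mul_of_nonneg_left u2 (show 0 ≤ X * ((K : ℝ) * P) by positivity)
  rw [abs_le] at t1 t4 ⊢
  constructor <;> linarith [t1.1, t1.2, t4.1, t4.2]

end Pool.Agent.MP_c853c5_nt.DT
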