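import Pool.Agent.MP_c853c5_nt.DT.NDefs
import Pool.Agent.MP_c853c5_nt.DS.Op

/-!
The bilinear form in primes: the bound before the choice of the parameters.
-/

set_option autoImplicit false

open Finset Filter Real MeasureTheory

namespace Pool.Agent.MP_c853c5_nt.DT

open DS

theorem op2_stmt : Op2Stmt := by
  intro D G α β r hr hG
  obtain ⟨n, rfl⟩ : ∃ n, r = n + 1 := ⟨r - 1, by omega⟩
  obtain ⟨v, hv⟩ : ∃ v : ℕ → ℕ → ℝ, ∀ m a, v m a = ∑ k ∈ D, mp D G m a k * β k :=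
    ⟨_, fun _ _ => rfl⟩
  have v0 : ∀ a ∈ D, v 0 a = β a := fun a ha => by
    simp only [hv, mp, ite_mul, one_mul, zero_mul, sum_ite_eq, if_pos ha]
  have v1 : ∀ m a, v (m + 1) a = ∑ b ∈ D, G a b * v m b := fun m a => by
    simp only [hv, mp, sum_mul, mul_sum]
    rw [sum_comm]
    exact sum_congr rfl fun b _ => sum_congr rfl fun k _ => mul_assoc _ _ _
  obtain ⟨s, hs⟩ : ∃ s : ℕ → ℝ, ∀ m, s m = ∑ a ∈ D, v m a ^ 2 := ⟨_, fun _ => rfl⟩
  have h0 : ∀ m, 0 ≤ s m := fun m => hs m ▸ sum_nonneg fun _ _ => sq_nonneg _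
  have h1 : ∀ m, s (m + 1) ^ 2 ≤ s m * s (m + 2) := fun m => by
    have e : s (m + 1) = ∑ a ∈ D, v m a * v (m + 2) a := by
      have e1 := shift_Op (D := D) hG (v m) (v (m + 1))
      simp only [← v1] at e1
      rw [← e1, hs]
      exact sum_congr rfl fun a _ => sq _
    rw [e, hs, hs]
    exact sum_mul_sq_le_sq_mul_sq _ _ _
  have e0 : s 0 = ∑ a ∈ D, β a ^ 2 := by
    rw [hs]
    exact sum_congr rfl fun a ha => by rw [v0 a ha]
  have h2 : 0 ≤ ∑ a ∈ D, α a ^ 2 := sum_nonneg fun _ _ => sq_nonneg _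
  have h3 : (∑ a ∈ D, ∑ b ∈ D, α a * β b * G a b) ^ 2 ≤ (∑ a ∈ D, α a ^ 2) * s 1 := by
    have e : ∑ a ∈ D, ∑ b ∈ D, α a * β b * G a b = ∑ a ∈ D, α a * v 1 a :=
      sum_congr rfl fun a _ => by
        rw [v1 0 a, mul_sum]
        exact sum_congr rfl fun b hb => by rw [v0 b hb]; ring
    rw [e, hs]
    exact sum_mul_sq_le_sq_mul_sq _ _ _
  have h4 : s (n + 1) ≤ (∑ a ∈ D, ∑ k ∈ D, mp D G (n + 1) a k ^ 2) * s 0 := by
    rw [hs, sum_mul, e0]
    exact sum_le_sum fun a _ => hv _ a ▸ sum_mul_sq_le_sq_mul_sq _ _ _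
  rw [← e0]
  generalize ∑ a ∈ D, ∑ k ∈ D, mp D G (n + 1) a k ^ 2 = M at h4
  generalize ∑ a ∈ D, α a ^ 2 = u at h2 h3
  have h6 := h0 0
  calc |∑ a ∈ D, ∑ b ∈ D, α a * β b * G a b| ^ (2 * (n + 1))
      = ((∑ a ∈ D, ∑ b ∈ D, α a * β b * G a b) ^ 2) ^ (n + 1) := by rw [pow_mul, sq_abs]
    _ ≤ (u * s 1) ^ (n + 1) := pow_le_pow_left₀ (sq_nonneg _) h3 _
    _ = u ^ (n + 1) * s 1 ^ (n + 1) := mul_pow _ _ _
    _ ≤ u ^ (n + 1) * (s 0 ^ n * (M * s 0)) :=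
        mul_le_mul_of_nonneg_left ((pow_Op h0 h1 n).trans
          (mul_le_mul_of_nonneg_left h4 (pow_nonneg h6 n))) (pow_nonneg h2 _)
    _ = _ := by ring

lemma young_NRb {f N t lam : ℝ} {m : ℕ} (hf : 0 ≤ f) (hN : 0 ≤ N) (ht : 0 ≤ t) (hl : 0 < lam)
    (h : f ^ (m + 1) ≤ N ^ (m + 1) * t) : f ≤ lam * N + N * t / lam ^ m := by
  have p : 0 ≤ N * t / lam ^ m := by positivity
  rcases le_or_gt f (lam * N) with g | g
  · linarith
  rcases hN.eq_or_lt with e | e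
  · subst e
    have : f ^ (m + 1) ≤ 0 := by simpa using h
    have := pow_pos (show 0 < f by linarith) (m + 1)
    linarith
  have a1 : (lam * N) ^ m * f ≤ f ^ (m + 1) := by
    rw [pow_succ]
    exact mul_le_mul_of_nonneg_right (pow_le_pow_left₀ (by positivity) g.le m) hf
  have a2 : f ≤ N * t / lam ^ m := by
    rw [le_div_iff₀ (by positivity)]
    refine le_of_mul_le_mul_left ?_ (pow_pos e m)
    rw [mul_pow] at a1
    rw [pow_succ N] at h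
    linarith
  have : 0 ≤ lam * N := by positivity
  linarith

lemma db_le_NRb (B : ℕ) (y : ℝ) : |DB B y| ≤ 2 * B := by
  refine (abs_sum_le_sum_abs _ _).trans
    ((sum_le_card_nsmul _ _ 1 fun _ _ => Real.abs_cos_le_one _).trans ?_)
  rw [card_hs]
  simp

lemma pt_NRb (D : Finset ℕ) (X z lam : ℝ) (B m : ℕ) (α β : ℕ → ℝ) (hl : 0 < lam) :
    |∑ a ∈ D, ∑ k ∈ D, α a * β k * DB B (z * X / (a * k))| ≤
      (lam + B) * (∑ a ∈ D, (α a ^ 2 + β a ^ 2)) + (∑ a ∈ D, (α a ^ 2 + β a ^ 2)) *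
        (∑ a ∈ D, ∑ k ∈ D, mp D (GM X B z) (m + 1) a k ^ 2) / lam ^ (2 * m + 1) := by
  have e : ∑ a ∈ D, ∑ k ∈ D, α a * β k * DB B (z * X / (a * k)) =
      ∑ a ∈ D, ∑ k ∈ D, α a * β k * GM X B z a k +
        ∑ a ∈ D, α a * β a * DB B (z * X / (a * a)) := by
    rw [← sum_add_distrib]
    refine sum_congr rfl fun a ha => ?_
    rw [← add_sum_erase _ _ ha, ← add_sum_erase _ (fun k => α a * β k * GM X B z a k) ha, GM,
      if_pos rfl, mul_zero, zero_add, add_comm]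
    congr 1
    exact sum_congr rfl fun k hk => by rw [GM, if_neg (ne_of_mem_erase hk).symm]
  have h1 := op2_stmt D (GM X B z) α β (m + 1) (by omega) fun a b => by
    unfold GM
    rw [mul_comm (a : ℝ) b]
    exact if_congr eq_comm rfl rfl
  have h2 : |∑ a ∈ D, α a * β a * DB B (z * X / (a * a))| ≤ B * ∑ a ∈ D, (α a ^ 2 + β a ^ 2) := by
    rw [mul_sum]
    refine (abs_sum_le_sum_abs _ _).trans (sum_le_sum fun a _ => ?_)
    rw [abs_mul]
    have b1 : 2 * |α a * β a| ≤ α a ^ 2 + β a ^ 2 := by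
      rw [abs_mul, ← sq_abs (α a), ← sq_abs (β a)]
      nlinarith [sq_nonneg (|α a| - |β a|)]
    have b2 := mul_le_mul_of_nonneg_left (db_le_NRb B (z * X / (a * a))) (abs_nonneg (α a * β a))
    have b3 := mul_le_mul_of_nonneg_left b1 (Nat.cast_nonneg (α := ℝ) B)
    linarith
  have u0 : 0 ≤ ∑ a ∈ D, α a ^ 2 := sum_nonneg fun _ _ => sq_nonneg _
  have v0 : 0 ≤ ∑ a ∈ D, β a ^ 2 := sum_nonneg fun _ _ => sq_nonneg _
  have t0 : 0 ≤ ∑ a ∈ D, ∑ k ∈ D, mp D (GM X B z) (m + 1) a k ^ 2 :=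
    sum_nonneg fun _ _ => sum_nonneg fun _ _ => sq_nonneg _
  rw [e]
  rw [sum_add_distrib] at h2 ⊢
  generalize ∑ a ∈ D, α a ^ 2 = u at *
  generalize ∑ a ∈ D, β a ^ 2 = v at *
  generalize ∑ a ∈ D, ∑ k ∈ D, mp D (GM X B z) (m + 1) a k ^ 2 = t at *
  have h3 := young_NRb (m := 2 * m + 1) (abs_nonneg _) (add_nonneg u0 v0) t0 hl (h1.trans (by
    refine mul_le_mul_of_nonneg_right ?_ t0
    rw [show 2 * m + 1 + 1 = 2 * (m + 1) by ring, pow_mul]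
    exact pow_le_pow_left₀ (by positivity) (by nlinarith [mul_nonneg u0 v0]) _))
  refine (abs_add_le _ _).trans ?_
  linarith

lemma av_NRb {Δ : ℝ} (hΔ : 0 < Δ) (R : Finset ℕ) {b c : ℕ → ℝ} (hb : ∀ n, |b n| ≤ 1)
    (hc : ∀ n, |c n| ≤ 1) {K k : ℕ} (hK : 1 ≤ K) (hk : K ≤ k) (z : ℝ) :
    0 ≤ AV Δ R (fun _ => 1) k z ∧
      (b k * AV Δ R c k z / k) ^ 2 ≤ AV Δ R (fun _ => 1) k z ^ 2 / K ^ 2 := by
  have g : ∀ y, 0 ≤ Z.gg Δ y := fun y => by
    unfold Z.gg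
    positivity
  have h0 : 0 ≤ AV Δ R (fun _ => 1) k z := sum_nonneg fun n _ => mul_nonneg zero_le_one (g _)
  have h1 : |AV Δ R c k z| ≤ AV Δ R (fun _ => 1) k z :=
    (abs_sum_le_sum_abs _ _).trans (sum_le_sum fun n _ => by
      rw [abs_mul, abs_of_nonneg (g _)]
      exact mul_le_mul_of_nonneg_right (hc n) (g _))
  have k0 : (0 : ℝ) < K := by exact_mod_cast hK
  have k1 : (K : ℝ) ≤ k := by exact_mod_cast hk
  refine ⟨h0, ?_⟩
  rw [← div_pow, ← sq_abs, abs_div, abs_mul, Nat.abs_cast]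
  refine pow_le_pow_left₀ (by positivity) (div_le_div₀ h0 ?_ k0 k1) 2
  exact (mul_le_of_le_one_left (abs_nonneg _) (hb k)).trans h1

theorem rb_stmt (hI : IntStmt) (hT : TrStmt) (hV : VecStmt) : RbStmt := by
  intro r hr
  obtain ⟨C, hC, hT⟩ := hT r hr
  obtain ⟨m, rfl⟩ : ∃ m, r = m + 1 := ⟨r - 1, by omega⟩
  refine ⟨C, hC, ?_⟩
  intro X Δ Δ₁ Δ₂ Z l lam K P Λ B D b c hX hΔ a1 a2 a3 a4 hP hΛ hD hB hZ hl hZX hlam hb hc
  have hK : 1 ≤ K := by omega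
  have k0 : (0 : ℝ) < K := by exact_mod_cast hK
  have p0 : (0 : ℝ) < P := by exact_mod_cast hP
  have z0 : 0 < Z := pos_of_mul_pos_left (lt_of_lt_of_le (by linarith) hZ) p0.le
  obtain ⟨t1, t2⟩ := hT K B D X Z l hD hB hX z0 hl hZX
  set R := Icc P (Λ * P) with hR
  set a : ℝ := 4 / Δ + 16 * Λ * P with ha
  have a0 : 0 ≤ a := by positivity
  have key : ∀ Γ, Δ ≤ Γ → Γ ≤ 1 / 4 → ∀ k ∈ D,
      (∀ z, (b k * AV Γ R c k z / k) ^ 2 ≤ a / K ^ 2 * AV Γ R (fun _ => 1) k z) ∧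
      (∀ z, (b k * AV Γ R c k z / k) ^ 2 ≤ 25 * a ^ 2 / K ^ 2 * Real.exp (-(π * z ^ 2 / Z ^ 2))) ∧
      Integrable (AV Γ R (fun _ => 1) k) ∧ ∫ z, AV Γ R (fun _ => 1) k z ≤ 2 * Λ * K := by
    intro Γ g1 g2 k hk
    have g0 := hΔ.trans_le g1
    obtain ⟨v1, v2, v3, v4⟩ := hV Γ Z K P Λ k g0 g2 hP hΛ hK (hD k hk).2.1 (hD k hk).2.2.le hZ
    have g3 : 4 / Γ + 16 * Λ * P ≤ a := by
      have : 4 / Γ ≤ 4 / Δ := by gcongr
      linarith
    refine ⟨fun z => ?_, fun z => ?_, v3, v4⟩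
    · obtain ⟨w0, w1⟩ := av_NRb g0 R hb hc hK (hD k hk).2.1 z
      refine w1.trans ?_
      rw [div_mul_eq_mul_div, sq]
      gcongr
      exact (v1 z).trans g3
    · refine (av_NRb g0 R hb hc hK (hD k hk).2.1 z).2.trans ?_
      rw [div_mul_eq_mul_div]
      gcongr
      refine (v2 z).trans ?_
      gcongr
  have k1 := key Δ₁ a1 a2
  have k2 := key Δ₂ a3 a4
  have cD : (D.card : ℝ) ≤ K := by exact_mod_cast hD.card_le
  have i1 : Integrable fun z => ∑ k ∈ D,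
      (AV Δ₂ R (fun _ => 1) k z + AV Δ₁ R (fun _ => 1) k z) :=
    integrable_finset_sum _ fun k hk => (k2 k hk).2.2.1.add (k1 k hk).2.2.1
  have i2 : ∫ z, ∑ k ∈ D, (AV Δ₂ R (fun _ => 1) k z + AV Δ₁ R (fun _ => 1) k z) ≤
      K * (4 * Λ * K) := by
    refine (integral_finset_sum (f := fun k z => AV Δ₂ R (fun _ => 1) k z +
      AV Δ₁ R (fun _ => 1) k z) _ fun k hk => (k2 k hk).2.2.1.add (k1 k hk).2.2.1).trans_le ?_
    refine (sum_le_card_nsmul _ _ (4 * Λ * K : ℝ) fun k hk => ?_).trans ?_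
    · rw [integral_add (k2 k hk).2.2.1 (k1 k hk).2.2.1]
      linarith [(k2 k hk).2.2.2, (k1 k hk).2.2.2]
    · rw [nsmul_eq_mul]
      gcongr
  rw [hI X Δ₁ Δ₂ B D R b c hX (hΔ.trans_le a1) (hΔ.trans_le a3)
    (fun h => Nat.not_prime_zero (hD 0 h).1) (fun h => by have := (mem_Icc.1 h).1; omega),
    abs_mul, abs_of_pos hX, show 2 * (m + 1) - 1 = 2 * m + 1 by omega]
  refine mul_le_mul_of_nonneg_left ?_ hX.le
  have c1 : 0 ≤ (lam + B) * (a / K ^ 2) := by positivity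
  have c2 : 0 ≤ 50 * a ^ 2 / K / lam ^ (2 * m + 1) := by positivity
  rw [← Real.norm_eq_abs]
  refine (norm_integral_le_of_norm_le ((i1.const_mul ((lam + B) * (a / K ^ 2))).add
    (t1.const_mul (50 * a ^ 2 / K / lam ^ (2 * m + 1)))) (Eventually.of_forall fun z => ?_)).trans ?_
  · refine (pt_NRb D X z lam B m _ _ hlam).trans (add_le_add ?_ ?_)
    · beta_reduce
      rw [mul_assoc, mul_sum D _ (a / K ^ 2)]
      refine mul_le_mul_of_nonneg_left (sum_le_sum fun k hk => ?_) (by positivity)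
      rw [mul_add]
      exact add_le_add ((k2 k hk).1 z) ((k1 k hk).1 z)
    · have b1 : ∑ k ∈ D, ((b k * AV Δ₂ R c k z / k) ^ 2 + (b k * AV Δ₁ R c k z / k) ^ 2) ≤
          50 * a ^ 2 / K * Real.exp (-(π * z ^ 2 / Z ^ 2)) := by
        refine (sum_le_card_nsmul _ _ _ fun k hk =>
          add_le_add ((k2 k hk).2.1 z) ((k1 k hk).2.1 z)).trans ?_
        rw [nsmul_eq_mul]
        refine (mul_le_mul_of_nonneg_right cD (by positivity)).trans_eq ?_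
        field_simp
        ring
      have t0 : 0 ≤ ∑ a ∈ D, ∑ k ∈ D, mp D (GM X B z) (m + 1) a k ^ 2 :=
        sum_nonneg fun _ _ => sum_nonneg fun _ _ => sq_nonneg _
      refine (div_le_div_of_nonneg_right (mul_le_mul_of_nonneg_right b1 t0)
        (by positivity)).trans_eq ?_
      beta_reduce
      ring
  · simp only [Pi.add_apply]
    rw [integral_add (i1.const_mul _) (t1.const_mul _), integral_const_mul, integral_const_mul]
    refine add_le_add ((mul_le_mul_of_nonneg_left i2 c1).trans_eq ?_)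
      (mul_le_mul_of_nonneg_left t2 c2)
    field_simp

end Pool.Agent.MP_c853c5_nt.DT
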