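import Pool.Agent.MP_c853c5_nt.DT.NDefs

/-!
The frequencies beyond the cut are negligible.
-/

set_option autoImplicit false

open Finset Filter Real MeasureTheory

namespace Pool.Agent.MP_c853c5_nt.DT

open DS

lemma term_NTail (hP : PoisStmt) {X Δ Δ₁ Δ₂ N L l n n' : ℝ} {B : ℕ} (hX : 0 < X) (hΔ : 0 < Δ)
    (g1 : Δ ≤ Δ₁) (g2 : Δ ≤ Δ₂) (hN : 1 ≤ N) (hL : 1 ≤ L) (hl : 0 ≤ l) (h1 : N ≤ n)
    (h2 : n ≤ 2 * L * N) (h3 : N ≤ n') (h4 : n' ≤ 2 * L * N)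
    (hB : 3 * L * l * (N / (X * Δ)) ≤ (B : ℝ) + 1) :
    |og X Δ₁ Δ₂ n n' - rb X Δ₁ Δ₂ B n n'| ≤
      4 * (X / Δ + 1 / Δ ^ 2) * Real.exp (-(3 * l ^ 2)) := by
  have hn : 0 < n := by linarith
  have hn' : 0 < n' := by linarith
  have hΔ₁ : 0 < Δ₁ := hΔ.trans_le g1
  have hΔ₂ : 0 < Δ₂ := hΔ.trans_le g2
  have h5 := (hP X Δ₁ Δ₂ n n' B hX hΔ₁ hΔ₂ hn hn').2
  have hd := dd_pos (Δ := Δ₁) n' hΔ₂ hn
  have d1 : Δ ^ 2 ≤ dd Δ₁ Δ₂ n n' := by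
    unfold dd
    have a1 : 1 ^ 2 * Δ ^ 2 ≤ n ^ 2 * Δ₂ ^ 2 := by
      gcongr
      linarith
    nlinarith [mul_nonneg (sq_nonneg n') (sq_nonneg Δ₁)]
  have d2 : dd Δ₁ Δ₂ n n' ≤ (2 * L * N) ^ 2 * (Δ₁ ^ 2 + Δ₂ ^ 2) := by
    unfold dd
    have a1 : n ^ 2 * Δ₂ ^ 2 ≤ (2 * L * N) ^ 2 * Δ₂ ^ 2 := by gcongr
    have a2 : n' ^ 2 * Δ₁ ^ 2 ≤ (2 * L * N) ^ 2 * Δ₁ ^ 2 := by gcongr
    linarith
  have s0 : 0 < √(dd Δ₁ Δ₂ n n') := Real.sqrt_pos.2 hd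
  have s1 : Δ ≤ √(dd Δ₁ Δ₂ n n') := Real.le_sqrt_of_sq_le d1
  have s3 : 3 * l ^ 2 ≤
      π * ((((B : ℤ) + 1 : ℤ) : ℝ)) ^ 2 * (X * Δ₁ * Δ₂) ^ 2 / dd Δ₁ Δ₂ n n' := by
    rw [le_div_iff₀ hd]
    push_cast
    obtain ⟨b, hb⟩ : ∃ b : ℝ, b = (B : ℝ) + 1 := ⟨_, rfl⟩
    rw [← hb] at hB ⊢
    have a0 : 3 * L * l * N ≤ b * (X * Δ) := by
      rwa [← mul_div_assoc, div_le_iff₀ (by positivity)] at hB
    have a1 : (3 * L * l * N) ^ 2 ≤ (b * (X * Δ)) ^ 2 := by gcongr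
    have a2 : Δ ^ 2 * (Δ₁ ^ 2 + Δ₂ ^ 2) ≤ 2 * (Δ₁ * Δ₂) ^ 2 := by
      have b1 : Δ ^ 2 * Δ₁ ^ 2 ≤ Δ₂ ^ 2 * Δ₁ ^ 2 := by gcongr
      have b2 : Δ ^ 2 * Δ₂ ^ 2 ≤ Δ₁ ^ 2 * Δ₂ ^ 2 := by gcongr
      linarith
    have a3 := mul_le_mul_of_nonneg_left d2 (by positivity : 0 ≤ 3 * l ^ 2)
    have a4 := mul_le_mul_of_nonneg_right a1 (by positivity : 0 ≤ Δ₁ ^ 2 + Δ₂ ^ 2)
    have a5 := mul_le_mul_of_nonneg_left a2 (by positivity : 0 ≤ (b * X) ^ 2)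
    have a6 : 3 * (b ^ 2 * (X * Δ₁ * Δ₂) ^ 2) ≤ π * (b ^ 2 * (X * Δ₁ * Δ₂) ^ 2) :=
      mul_le_mul_of_nonneg_right Real.pi_gt_three.le (by positivity)
    have a7 : 0 ≤ (L * l * N) ^ 2 * (Δ₁ ^ 2 + Δ₂ ^ 2) := by positivity
    nlinarith
  have s4 : am X Δ₁ Δ₂ n n' ((B : ℤ) + 1) ≤
      X / √(dd Δ₁ Δ₂ n n') * Real.exp (-(3 * l ^ 2)) := by
    unfold am
    refine mul_le_mul (mul_le_of_le_one_right (by positivity) (Real.exp_le_one_iff.2 ?_))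
      (Real.exp_le_exp.2 (neg_le_neg s3)) (Real.exp_pos _).le (by positivity)
    rw [neg_nonpos]
    positivity
  refine h5.trans ((mul_le_mul_of_nonneg_left s4 (by positivity)).trans ?_)
  have e : 4 * (1 + √(dd Δ₁ Δ₂ n n') / (X * Δ₁ * Δ₂)) *
      (X / √(dd Δ₁ Δ₂ n n') * Real.exp (-(3 * l ^ 2))) =
      4 * (X / √(dd Δ₁ Δ₂ n n') + 1 / (Δ₁ * Δ₂)) * Real.exp (-(3 * l ^ 2)) := by
    field_simp
  rw [e, sq Δ]
  gcongr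

theorem tail_stmt (hP : PoisStmt) : TailStmt := by
  intro Λ hΛ
  filter_upwards [eventually_ge_atTop 1, E.ev_le_log 2,
    eventually_ge_atTop (12 * (Λ : ℝ) ^ 2)] with x hx hl hc
  intro X Δ Δ₁ Δ₂ K P D b c x1 x2 d1 g1 g2 k1 p1 hNX hD hb hc'
  have hx0 : 0 < x := by linarith
  have hX : 0 < X := by linarith
  have hΔ : 0 < Δ := (Real.rpow_pos_of_pos hx0 _).trans_le d1
  have hL : (1 : ℝ) ≤ Λ := by exact_mod_cast hΛ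
  have hK : (1 : ℝ) ≤ K := by exact_mod_cast k1
  have hp : (1 : ℝ) ≤ P := by exact_mod_cast p1
  have hN : (1 : ℝ) ≤ K * P := one_le_mul_of_one_le_of_one_le hK hp
  have hB : 3 * Λ * Real.log x * (K * P / (X * Δ)) ≤ (bb x X Δ Λ K P : ℝ) + 1 :=
    (Nat.lt_floor_add_one _).le
  have w1 : 1 ≤ Δ * x := by
    calc (1 : ℝ) = x ^ (-1 : ℝ) * x := by rw [Real.rpow_neg_one, inv_mul_cancel₀ hx0.ne']
      _ ≤ _ := mul_le_mul_of_nonneg_right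
          ((Real.rpow_le_rpow_of_exponent_le hx (by norm_num)).trans d1) hx0.le
  have w2 : X / Δ + 1 / Δ ^ 2 ≤ 3 * x ^ 2 := by
    have a1 : X / Δ ≤ 2 * x ^ 2 := by
      rw [div_le_iff₀ hΔ]
      nlinarith
    have a2 : 1 / Δ ^ 2 ≤ x ^ 2 := by
      rw [div_le_iff₀ (by positivity)]
      nlinarith
    linarith
  have w3 : Real.exp (-(3 * Real.log x ^ 2)) ≤ (x ^ 4)⁻¹ := by
    have : (x ^ 4)⁻¹ = Real.exp (-(4 * Real.log x)) := by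
      rw [Real.exp_neg, show 4 * Real.log x = ((4 : ℕ) : ℝ) * Real.log x by norm_num,
        Real.exp_nat_mul, Real.exp_log hx0]
    rw [this]
    exact Real.exp_le_exp.2 (by nlinarith)
  have hr : ∀ v ∈ D ×ˢ Icc P (Λ * P),
      (K : ℝ) * P ≤ (v.1 : ℝ) * v.2 ∧ (v.1 : ℝ) * v.2 ≤ 2 * Λ * (K * P) := fun v hv => by
    obtain ⟨a1, a2⟩ := mem_product.1 hv
    obtain ⟨-, a3, a4⟩ := hD _ a1
    obtain ⟨a5, a6⟩ := mem_Icc.1 a2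
    refine ⟨by exact_mod_cast Nat.mul_le_mul a3 a5, ?_⟩
    have a7 : v.1 * v.2 ≤ 2 * Λ * (K * P) :=
      (Nat.mul_le_mul a4.le a6).trans (le_of_eq (by ring))
    exact_mod_cast a7
  have hcard : ((D ×ˢ Icc P (Λ * P)).card : ℝ) ≤ Λ * (K * P) := by
    rw [card_product]
    have a1 := (Nat.mul_le_mul hD.card_le (card_Icc_le (Λ := Λ) p1)).trans
      (le_of_eq (show K * (Λ * P) = Λ * (K * P) by ring))
    exact_mod_cast a1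
  obtain ⟨W, hW⟩ : ∃ W, W = 4 * (3 * x ^ 2) * (x ^ 4)⁻¹ := ⟨_, rfl⟩
  have hW0 : 0 ≤ W := by
    rw [hW]
    positivity
  have a0 : ∀ v : ℕ × ℕ, |b v.1 * c v.2| ≤ 1 := fun v => by
    rw [abs_mul]
    exact mul_le_one₀ (hb _) (abs_nonneg _) (hc' _)
  have h1 : |QF D (Icc P (Λ * P)) b c (og X Δ₁ Δ₂) -
      QF D (Icc P (Λ * P)) b c (rb X Δ₁ Δ₂ (bb x X Δ Λ K P))| ≤
      Λ * (K * P) * (Λ * (K * P) * W) := by
    rw [QF, QF, ← sum_sub_distrib]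
    refine (abs_sum_le_sum_abs _ _).trans ((sum_le_card_nsmul _ _ (Λ * (K * P) * W)
      fun v hv => ?_).trans ?_)
    · rw [← sum_sub_distrib]
      refine (abs_sum_le_sum_abs _ _).trans ((sum_le_card_nsmul _ _ W fun w hw => ?_).trans ?_)
      · rw [← mul_sub, abs_mul, abs_mul]
        refine (mul_le_of_le_one_left (abs_nonneg _)
          (mul_le_one₀ (a0 v) (abs_nonneg _) (a0 w))).trans
          ((term_NTail hP hX hΔ g1 g2 hN hL (by linarith) (hr v hv).1 (hr v hv).2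
            (hr w hw).1 (hr w hw).2 hB).trans ?_)
        rw [hW]
        gcongr
      · rw [nsmul_eq_mul]
        exact mul_le_mul_of_nonneg_right hcard hW0
    · rw [nsmul_eq_mul]
      exact mul_le_mul_of_nonneg_right hcard (by positivity)
  refine h1.trans ?_
  have h2 : Λ * (K * P) * (Λ * (K * P) * W) =
      K * P * (K * P) * x⁻¹ * (12 * (Λ : ℝ) ^ 2 / x) := by
    rw [hW]
    field_simp
    ring
  rw [h2, Real.rpow_neg_one]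
  refine (mul_le_of_le_one_right (by positivity) ((div_le_one hx0).2 hc)).trans ?_
  gcongr

end Pool.Agent.MP_c853c5_nt.DT
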