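import Pool.Agent.MP_c853c5_nt.DT.NDefs
import Pool.Agent.MP_c853c5_nt.DS.Sum

set_option autoImplicit false

open Finset Filter Real MeasureTheory
open scoped ComplexConjugate

namespace Pool.Agent.MP_c853c5_nt.DT

open DS
open Pool.Agent.MP_88bd62_nt.U (ex)

lemma DB_eq_NTr (B : ℕ) (y : ℝ) : (DB B y : ℂ) = ∑ h ∈ hs B, ex (h * y) := by
  have h0 : ∑ h ∈ hs B, Real.sin (2 * π * (h * y)) = 0 := by
    refine sum_involution (fun h _ => -h) (fun h _ => ?_) (fun h hh _ => ?_) (fun h hh => ?_)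
      fun h _ => neg_neg h
    · rw [Int.cast_neg, neg_mul, mul_neg, Real.sin_neg]
      ring
    · have := (mem_hs.1 hh).1
      omega
    · rw [mem_hs] at hh ⊢
      exact ⟨neg_ne_zero.2 hh.1, by rw [abs_neg]; exact hh.2⟩
  simp only [ex_eq, sum_add_distrib, ← sum_mul, ← Complex.ofReal_sum, h0, DB, Complex.ofReal_zero,
    zero_mul, add_zero]

lemma wt_NTr (c : ℝ) (a : ℕ) (l : List (ℕ × ℤ)) :
    wt (fun a b h => ex (h * (c / (a * b)))) a l = ex (c * (vl a l : ℝ)) := by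
  induction l generalizing a with
  | nil => simp [wt, vl, ex_zero]
  | cons e l ih =>
    have h : c * (vl a (e :: l) : ℝ) = e.2 * (c / (a * e.1)) + c * (vl e.1 l : ℝ) := by
      simp only [vl]
      push_cast
      ring
    rw [h, ex_add]
    simp only [wt, ih]

lemma sq_NTr {ι : Type} (L : Finset ι) (m : ℝ) (v : ι → ℝ) (hm : (m : ℂ) = ∑ l ∈ L, ex (v l)) :
    m ^ 2 = ∑ l ∈ L, ∑ l' ∈ L, Real.cos (2 * π * (v l - v l')) := by
  have h : ((m ^ 2 : ℝ) : ℂ) = (m : ℂ) * conj (m : ℂ) := by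
    rw [Complex.conj_ofReal]
    push_cast
    ring
  rw [hm, map_sum, sum_mul_sum] at h
  have h2 := congrArg Complex.re h
  rw [Complex.ofReal_re, Complex.re_sum] at h2
  rw [h2]
  refine sum_congr rfl fun l _ => ?_
  rw [Complex.re_sum]
  refine sum_congr rfl fun l' _ => ?_
  rw [conj_ex, ← ex_add, ← sub_eq_add_neg, ex_eq]
  simp only [Complex.add_re, Complex.ofReal_re, Complex.mul_re, Complex.I_re, Complex.ofReal_im,
    Complex.I_im, mul_zero, zero_mul, sub_zero, add_zero]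

lemma gauss_NTr (hG : GaussStmt) {Z : ℝ} (hZ : 0 < Z) (ξ : ℝ) :
    Integrable (fun z : ℝ => Real.exp (-(π * z ^ 2 / Z ^ 2)) * Real.cos (2 * π * (ξ * z))) ∧
    ∫ z : ℝ, Real.exp (-(π * z ^ 2 / Z ^ 2)) * Real.cos (2 * π * (ξ * z)) =
      Z * Real.exp (-(π * (Z * ξ) ^ 2)) := by
  have h := hG (Z ^ 2)⁻¹ 0 ξ (by positivity)
  have e : ∀ z : ℝ, π * (Z ^ 2)⁻¹ * (z - 0) ^ 2 = π * z ^ 2 / Z ^ 2 := fun z => by ring
  have e2 : π * ξ ^ 2 / (Z ^ 2)⁻¹ = π * (Z * ξ) ^ 2 := by field_simp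
  simp only [e] at h
  rw [e2, Real.sqrt_inv, inv_inv, Real.sqrt_sq hZ.le, mul_zero, mul_zero, Real.cos_zero,
    mul_one] at h
  exact h

lemma blk_NTr (hG : GaussStmt) {ι : Type} (L : Finset ι) (v : ι → ℚ) (m : ℝ → ℝ) {X Z t : ℝ}
    (hZ : 0 < Z) (ht : 0 ≤ t) (hm : ∀ z, (m z : ℂ) = ∑ l ∈ L, ex (z * X * v l))
    (hs : ∀ l ∈ L, ∀ l' ∈ L, v l ≠ v l' → t ≤ |Z * (X * (v l - v l'))|) :
    Integrable (fun z : ℝ => Real.exp (-(π * z ^ 2 / Z ^ 2)) * m z ^ 2) ∧
    ∫ z : ℝ, Real.exp (-(π * z ^ 2 / Z ^ 2)) * m z ^ 2 ≤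
      Z * ((((L ×ˢ L).filter fun p => v p.1 = v p.2).card : ℝ) +
        (L.card : ℝ) ^ 2 * Real.exp (-(π * t ^ 2))) := by
  have e : ∀ z, Real.exp (-(π * z ^ 2 / Z ^ 2)) * m z ^ 2 = ∑ p ∈ L ×ˢ L,
      Real.exp (-(π * z ^ 2 / Z ^ 2)) * Real.cos (2 * π * (X * (v p.1 - v p.2) * z)) := by
    intro z
    rw [sq_NTr L (m z) _ (hm z), ← mul_sum, sum_product]
    congr 1
    refine sum_congr rfl fun l _ => sum_congr rfl fun l' _ => ?_
    congr 2
    ring
  simp only [e]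
  refine ⟨integrable_finsetSum _ fun p _ => (gauss_NTr hG hZ _).1, ?_⟩
  rw [integral_finsetSum _ fun p _ => (gauss_NTr hG hZ _).1]
  simp only [(gauss_NTr hG hZ _).2]
  rw [← mul_sum, card_filter, Nat.cast_sum, sq, ← Nat.cast_mul, ← card_product, ← nsmul_eq_mul,
    ← sum_const, ← sum_add_distrib]
  refine mul_le_mul_of_nonneg_left (sum_le_sum fun p hp => ?_) hZ.le
  obtain ⟨h1, h2⟩ := mem_product.1 hp
  split_ifs with h
  · rw [h]
    simp [(Real.exp_pos _).le]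
  · rw [Nat.cast_zero, zero_add, Real.exp_le_exp, neg_le_neg_iff, ← sq_abs (Z * _)]
    have := hs _ h1 _ h2 h
    gcongr

theorem tr_stmt (hG : GaussStmt) (hP : PathStmt) (hD : SepStmt) (hA : PairStmt) (hC : CycStmt) :
    TrStmt := by
  intro r hr
  obtain ⟨n, rfl⟩ : ∃ n, r = n + 1 := ⟨r - 1, by omega⟩
  obtain ⟨C, hC⟩ := hC (2 * (n + 1))
  refine ⟨C + 1, by positivity, ?_⟩
  intro K B D X Z t hK hB hX hZ ht hs
  have hK1 : 1 ≤ K := by omega
  have hK0 : (1 : ℝ) ≤ K := by exact_mod_cast hK1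
  have hBK : B ≤ K := (Nat.le_mul_of_pos_left B (by positivity)).trans hB.le
  have hDK : (D.card : ℝ) ≤ K := by exact_mod_cast hK.card_le
  have key := fun a (ha : a ∈ D) (k : ℕ) => blk_NTr hG
    ((paths D B (n + 1) a).filter fun l => lst a l = k) (vl a)
    (fun z => mp D (GM X B z) (n + 1) a k) (X := X) hZ ht
    (fun z => by
      rw [hP D B (GM X B z) (fun a b h => ex (h * (z * X / (a * b)))) (fun a _ => if_pos rfl)
        (fun a _ b _ h => by rw [GM, if_neg h, DB_eq_NTr]) (n + 1) a ha k]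
      exact sum_congr rfl fun l _ => wt_NTr _ _ _)
    fun l hl l' hl' h => by
      obtain ⟨h1, h2⟩ := mem_filter.1 hl
      obtain ⟨h3, h4⟩ := mem_filter.1 hl'
      have h5 := (hD K B (n + 1) D hK a ha).2.1 l h1 l' h3 hr (h2.trans h4.symm) h
      rw [← mul_assoc, abs_mul, abs_of_pos (mul_pos hZ hX)]
      rw [div_le_iff₀ (by positivity)] at h5
      have h6 := mul_le_mul_of_nonneg_left hs (abs_nonneg ((vl a l : ℝ) - vl a l'))
      have h7 := mul_le_mul_of_nonneg_right h5 ht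
      nlinarith
  simp only [mul_sum]
  refine ⟨integrable_finsetSum _ fun a ha => integrable_finsetSum _ fun k _ => (key a ha k).1, ?_⟩
  rw [integral_finsetSum _ fun a ha => integrable_finsetSum _ fun k _ => (key a ha k).1]
  have key2 : ∀ a ∈ D, ∫ z : ℝ, ∑ k ∈ D,
      Real.exp (-(π * z ^ 2 / Z ^ 2)) * mp D (GM X B z) (n + 1) a k ^ 2 ≤
      Z * (C * K ^ (n + 1) * B ^ (n + 1) +
        (2 * K * B) ^ (2 * (n + 1)) * Real.exp (-(π * t ^ 2))) := by
    intro a ha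
    rw [integral_finsetSum _ fun k _ => (key a ha k).1]
    refine (sum_le_sum fun k _ => (key a ha k).2).trans ?_
    rw [← mul_sum, sum_add_distrib, ← sum_mul]
    refine mul_le_mul_of_nonneg_left (add_le_add ?_ ?_) hZ.le
    · have c1 := (fib_Sum D B (n + 1) a).trans ((hA B (n + 1) D a ha).trans
        (hC K B K D hK hB hBK hK.card_le a ha))
      rw [show 2 * (n + 1) / 2 = n + 1 by omega, show (2 * (n + 1) + 1) / 2 = n + 1 by omega] at c1
      exact_mod_cast c1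
    · refine mul_le_mul_of_nonneg_right ?_ (Real.exp_pos _).le
      have c2 : ∀ k ∈ D, (((paths D B (n + 1) a).filter fun l => lst a l = k).card : ℝ) ^ 2 ≤
          ((K : ℝ) ^ n * (2 * B) ^ (n + 1)) ^ 2 := by
        intro k _
        have : ((paths D B (n + 1) a).filter fun l => lst a l = k).card ≤
            K ^ n * (2 * B) ^ (n + 1) :=
          ((hD K B n D hK a ha).2.2 k).trans (by gcongr; exact hK.card_le)
        gcongr
        exact_mod_cast this
      refine (sum_le_sum c2).trans ?_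
      rw [sum_const, nsmul_eq_mul, show (2 * K * B : ℝ) ^ (2 * (n + 1)) =
        K * K * ((K : ℝ) ^ n * (2 * B) ^ (n + 1)) ^ 2 by ring]
      gcongr
      nlinarith
  refine (sum_le_sum key2).trans ?_
  rw [sum_const, nsmul_eq_mul]
  refine (mul_le_mul_of_nonneg_right hDK (by positivity)).trans ?_
  rw [mul_left_comm]
  refine mul_le_mul_of_nonneg_left ?_ hZ.le
  have : (0 : ℝ) ≤ K ^ (n + 1 + 1) * B ^ (n + 1) := by positivity
  rw [pow_succ (K : ℝ) (n + 1)] at this ⊢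
  nlinarith

end Pool.Agent.MP_c853c5_nt.DT
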