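import Pool.Agent.MP_c853c5_nt.DT.NDefs
import Pool.Agent.MP_c853c5_nt.DS.Pois
import Pool.Agent.MP_c853c5_nt.DS.Conv

set_option autoImplicit false

open Finset Filter Real MeasureTheory

namespace Pool.Agent.MP_c853c5_nt.DT

open DS

lemma half_NVec {A : ℝ} (hA : 0 < A) (c : ℝ) (R : Finset ℕ) (g : ℕ → ℕ) (hg : Set.InjOn g R)
    (h : ∀ p ∈ R, (g p : ℝ) ≤ |(p : ℝ) - c|) :
    ∑ p ∈ R, Real.exp (-(π * ((p : ℝ) - c) ^ 2 / A)) ≤ 1 + 2 * √A := by
  have hs : Summable fun j : ℕ => Real.exp (-(π * (j : ℝ) ^ 2 / A)) := by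
    have := (summ0_Pois hA).comp_injective (Nat.cast_injective (R := ℤ))
    simpa [Function.comp_def] using this
  refine le_trans ?_ (gtsum_Pois hA)
  refine le_trans ?_ (hs.sum_le_tsum (R.image g) fun _ _ => (Real.exp_pos _).le)
  rw [sum_image hg]
  refine sum_le_sum fun p hp => Real.exp_le_exp.2 (neg_le_neg ?_)
  have h1 : (g p : ℝ) ^ 2 ≤ ((p : ℝ) - c) ^ 2 := by
    rw [← sq_abs ((p : ℝ) - c)]
    exact pow_le_pow_left₀ (Nat.cast_nonneg _) (h p hp) 2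
  have := pi_pos
  gcongr

lemma isum_NVec {A : ℝ} (hA : 0 < A) {c : ℝ} (hc : 0 ≤ c) (R : Finset ℕ) :
    ∑ p ∈ R, Real.exp (-(π * ((p : ℝ) - c) ^ 2 / A)) ≤ 2 + 4 * √A := by
  rw [← sum_filter_add_sum_filter_not R fun p => ⌈c⌉₊ ≤ p]
  have h1 := half_NVec hA c (R.filter fun p => ⌈c⌉₊ ≤ p) (fun p => p - ⌈c⌉₊)
    (fun p hp q hq e => by
      have a := (mem_filter.1 hp).2
      have b := (mem_filter.1 hq).2
      exact (Nat.sub_add_cancel a).symm.trans ((congrArg (· + ⌈c⌉₊) e).trans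
        (Nat.sub_add_cancel b)))
    fun p hp => by
      rw [Nat.cast_sub (mem_filter.1 hp).2]
      exact le_trans (sub_le_sub_left (Nat.le_ceil c) _) (le_abs_self _)
  have h2 := half_NVec hA c (R.filter fun p => ¬⌈c⌉₊ ≤ p) (fun p => ⌈c⌉₊ - (p + 1))
    (fun p hp q hq e => by
      have a := not_le.1 (mem_filter.1 hp).2
      have b := not_le.1 (mem_filter.1 hq).2
      exact Nat.succ_injective (tsub_right_inj a b |>.1 e))
    fun p hp => by
      rw [Nat.cast_sub (not_le.1 (mem_filter.1 hp).2), abs_sub_comm]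
      refine le_trans ?_ (le_abs_self _)
      push_cast
      linarith [Nat.ceil_lt_add_one hc]
  linarith

lemma tail_NVec {Δ : ℝ} (h : 0 < Δ) : Real.exp (-(π * (1 / 4) / Δ ^ 2)) ≤ 4 * Δ ^ 4 := by
  have h0 : 0 < π * (1 / 4) / Δ ^ 2 := by have := pi_pos; positivity
  have h1 := Real.pow_div_factorial_le_exp _ h0.le 2
  rw [Real.exp_neg, inv_le_comm₀ (Real.exp_pos _) (by positivity)]
  refine le_trans ?_ h1
  have h2 : (π * (1 / 4) / Δ ^ 2) ^ 2 / (Nat.factorial 2 : ℕ) = π ^ 2 / 8 * (4 * Δ ^ 4)⁻¹ := by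
    rw [Nat.factorial_two]
    push_cast
    field_simp
    ring
  rw [h2]
  refine le_mul_of_one_le_left (by positivity) ?_
  nlinarith [pi_gt_three]

variable {Δ : ℝ} {P Λ a : ℕ}

lemma int_NVec (hΔ : 0 < Δ) (ha : 1 ≤ a) {p : ℕ} (hp : 1 ≤ p) :
    (Integrable fun y : ℝ => Z.gg Δ (y * p / a - 1)) ∧ ∫ y : ℝ, Z.gg Δ (y * p / a - 1) = a / p := by
  have ha0 : (0 : ℝ) < a := by exact_mod_cast ha
  have hp0 : (0 : ℝ) < p := by exact_mod_cast hp
  simp only [mul_div_assoc]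
  refine ⟨((gg_int_Conv hΔ).1.comp_sub_right 1).comp_mul_right' (by positivity), ?_⟩
  rw [Measure.integral_comp_mul_right (fun x => Z.gg Δ (x - 1)), integral_sub_right_eq_self,
    (gg_int_Conv hΔ).2, inv_div, abs_of_pos (by positivity), smul_eq_mul, mul_one]

lemma nn_NVec (hΔ : 0 < Δ) (R : Finset ℕ) (z : ℝ) : 0 ≤ AV Δ R (fun _ => 1) a z :=
  sum_nonneg fun _ _ => mul_nonneg one_pos.le (gg_nonneg_Conv hΔ _)

lemma far_NVec (hΔ : 0 < Δ) (hΔ2 : Δ ≤ 1 / 4) (hP : 1 ≤ P) {y t : ℝ}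
    (h : ∀ p ∈ Icc P (Λ * P), t + 1 / 4 / Δ ^ 2 ≤ (y * p / a - 1) ^ 2 / Δ ^ 2) :
    AV Δ (Icc P (Λ * P)) (fun _ => 1) a y ≤ Λ * P * Real.exp (-(π * t)) := by
  have h0 : Δ⁻¹ * (4 * Δ ^ 4) ≤ 1 := by
    rw [inv_mul_le_iff₀ hΔ]
    have : Δ ^ 3 ≤ (1 / 4) ^ 3 := pow_le_pow_left₀ hΔ.le hΔ2 3
    nlinarith
  have h1 : ∀ p ∈ Icc P (Λ * P), 1 * Z.gg Δ (y * p / a - 1) ≤ Real.exp (-(π * t)) := by
    intro p hp
    refine le_trans ?_ (mul_le_of_le_one_left (Real.exp_pos _).le h0)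
    rw [one_mul, mul_assoc]
    refine mul_le_mul_of_nonneg_left ?_ (inv_pos.2 hΔ).le
    refine le_trans ?_ (mul_le_mul_of_nonneg_right (tail_NVec hΔ) (Real.exp_pos _).le)
    rw [← Real.exp_add, Real.exp_le_exp, mul_div_assoc π, mul_div_assoc π]
    nlinarith [mul_le_mul_of_nonneg_left (h p hp) pi_pos.le]
  refine (sum_le_card_nsmul _ _ _ h1).trans ?_
  have h2 : ((Icc P (Λ * P)).card : ℝ) ≤ Λ * P := by exact_mod_cast card_Icc_le hP
  rw [nsmul_eq_mul]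
  exact mul_le_mul_of_nonneg_right h2 (Real.exp_pos _).le

lemma sup_NVec (hΔ : 0 < Δ) (hΔ2 : Δ ≤ 1 / 4) (hP : 1 ≤ P) (hΛ : 1 ≤ Λ) (ha : 1 ≤ a) (y : ℝ) :
    AV Δ (Icc P (Λ * P)) (fun _ => 1) a y ≤ 4 / Δ + 16 * Λ * P := by
  have ha0 : (0 : ℝ) < a := by exact_mod_cast ha
  have hP1 : (0 : ℝ) < P := by exact_mod_cast hP
  have hΛ1 : (0 : ℝ) < Λ := by exact_mod_cast hΛ
  have hΛP : (0 : ℝ) < Λ * P := by positivity
  have h4 : 0 < 4 / Δ := by positivity
  rcases lt_or_ge (y * (Λ * P)) (a / 2) with h | h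
  · have := far_NVec (Λ := Λ) (a := a) (y := y) (t := 0) hΔ hΔ2 hP fun p hp => by
      have h1 : (p : ℝ) ≤ Λ * P := by exact_mod_cast (mem_Icc.1 hp).2
      have h2 : y * p / a ≤ 1 / 2 := by
        rw [div_le_iff₀ ha0]
        rcases le_total 0 y with hy | hy
        · linarith [mul_le_mul_of_nonneg_left h1 hy]
        · linarith [mul_nonpos_of_nonpos_of_nonneg hy (Nat.cast_nonneg (α := ℝ) p)]
      rw [zero_add]
      gcongr
      nlinarith
    rw [mul_zero, neg_zero, Real.exp_zero] at this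
    linarith
  · have hy : 0 < y := (mul_pos_iff_of_pos_right hΛP).1 (by linarith)
    have h1 := isum_NVec (A := (a * Δ / y) ^ 2) (by positivity) (c := a / y) (by positivity)
      (Icc P (Λ * P))
    rw [Real.sqrt_sq (by positivity)] at h1
    have h2 : a * Δ / y ≤ 2 * (Λ * P) * Δ := by
      rw [div_le_iff₀ hy]
      nlinarith
    have h3 : AV Δ (Icc P (Λ * P)) (fun _ => 1) a y = Δ⁻¹ * ∑ p ∈ Icc P (Λ * P),
        Real.exp (-(π * ((p : ℝ) - a / y) ^ 2 / (a * Δ / y) ^ 2)) := by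
      rw [mul_sum]
      refine sum_congr rfl fun p _ => ?_
      rw [one_mul, Z.gg]
      congr 3
      field_simp
    rw [h3, inv_mul_le_iff₀ hΔ, mul_add, mul_div_cancel₀ _ hΔ.ne']
    nlinarith [mul_pos hΛP hΔ]

lemma pi_NVec : Real.exp π ≤ 25 := by
  have h1 : Real.exp π ≤ Real.exp 1 ^ 3 * Real.exp (3 / 20) := by
    rw [← Real.exp_nat_mul, ← Real.exp_add, Real.exp_le_exp]
    push_cast
    linarith [pi_lt_d2]
  have h2 : Real.exp (3 / 20) ≤ 20 / 17 := by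
    have := Real.add_one_le_exp (-(3 / 20))
    rw [Real.exp_neg, le_inv_comm₀ (by norm_num) (Real.exp_pos _)] at this
    exact this.trans (by norm_num)
  have h3 : Real.exp 1 ^ 3 ≤ (11 / 4) ^ 3 :=
    pow_le_pow_left₀ (Real.exp_pos _).le (by linarith [Real.exp_one_lt_d9]) 3
  exact h1.trans ((mul_le_mul h3 h2 (Real.exp_pos _).le (by norm_num)).trans (by norm_num))

theorem vec_stmt : VecStmt := by
  intro Δ Y K P Λ a hΔ hΔ2 hP hΛ hK h1 h2 hY
  have ha := hK.trans h1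
  have ha0 : (0 : ℝ) < a := by exact_mod_cast ha
  have hK0 : (0 : ℝ) < K := by exact_mod_cast hK
  have hP0 : (0 : ℝ) < P := by exact_mod_cast hP
  have hΛ0 : (0 : ℝ) < Λ := by exact_mod_cast hΛ
  have ha2 : (a : ℝ) ≤ 2 * K := by exact_mod_cast h2
  have hY0 : 0 < Y := (mul_pos_iff_of_pos_right hP0).1 (by linarith)
  have hi := fun p (hp : p ∈ Icc P (Λ * P)) => int_NVec hΔ ha (hP.trans (mem_Icc.1 hp).1)
  have hs := sup_NVec hΔ hΔ2 hP hΛ ha
  refine ⟨hs, fun y => ?_, integrable_finsetSum _ fun p hp => (hi p hp).1.const_mul _, ?_⟩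
  · have e : y ^ 2 / Y ^ 2 = (|y| / Y) ^ 2 := by rw [div_pow, sq_abs]
    rw [mul_div_assoc, e]
    have hz0 : 0 ≤ |y| / Y := by positivity
    have hz1 : ∀ p ∈ Icc P (Λ * P), 2 * (|y| / Y) - 1 ≤ |y * p / a - 1| := fun p hp => by
      have a1 : (P : ℝ) ≤ p := by exact_mod_cast (mem_Icc.1 hp).1
      have a2 := abs_sub_abs_le_abs_sub (y * p / a) 1
      rw [abs_one, abs_div, abs_mul, Nat.abs_cast, Nat.abs_cast] at a2
      have a3 : |y| * P / (2 * K) ≤ |y| * p / a := by gcongr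
      have a4 : 2 * (|y| / Y) ≤ |y| * P / (2 * K) := by
        rw [← mul_div_assoc, div_le_div_iff₀ hY0 (by positivity)]
        nlinarith [mul_le_mul_of_nonneg_left hY (abs_nonneg y)]
      linarith
    generalize |y| / Y = z at hz0 hz1
    have h4 : 0 < 4 / Δ := by positivity
    have hE := Real.exp_pos (-(π * z ^ 2))
    rcases le_total z 1 with h | h
    · refine (pow_le_pow_left₀ (nn_NVec hΔ _ y) (hs y) 2).trans ?_
      have a1 : 1 ≤ Real.exp π * Real.exp (-(π * z ^ 2)) := by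
        rw [← Real.exp_add]
        refine Real.one_le_exp ?_
        nlinarith [pi_pos, pow_le_one₀ (n := 2) hz0 h]
      rw [mul_right_comm (25 : ℝ)]
      exact le_mul_of_one_le_left (sq_nonneg _)
        (a1.trans (mul_le_mul_of_nonneg_right pi_NVec hE.le))
    · have a0 := far_NVec (Λ := Λ) (a := a) (y := y) (t := z ^ 2) hΔ hΔ2 hP fun p hp => by
        have a1 : z ^ 2 ≤ (y * p / a - 1) ^ 2 := by
          rw [← sq_abs (y * p / a - 1)]
          exact pow_le_pow_left₀ hz0 (by linarith [hz1 p hp]) 2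
        have a2 : Δ ^ 2 ≤ 1 / 4 := by nlinarith
        have a3 : 1 ≤ z ^ 2 := one_le_pow₀ h
        have a4 : 0 < Δ ^ 2 := by positivity
        rw [add_div' _ _ _ a4.ne']
        refine div_le_div_of_nonneg_right ?_ a4.le
        nlinarith
      refine (pow_le_pow_left₀ (nn_NVec hΔ _ y) a0 2).trans ?_
      have a1 : Real.exp (-(π * z ^ 2)) ^ 2 ≤ Real.exp (-(π * z ^ 2)) :=
        pow_le_of_le_one hE.le (Real.exp_le_one_iff.2 (neg_nonpos.2 (by positivity))) two_ne_zero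
      have hΛP : (0 : ℝ) < Λ * P := by positivity
      have a2 : ((Λ : ℝ) * P) ^ 2 ≤ (4 / Δ + 16 * Λ * P) ^ 2 :=
        pow_le_pow_left₀ hΛP.le (by linarith) 2
      rw [mul_pow]
      exact mul_le_mul (by linarith [sq_nonneg (4 / Δ + 16 * Λ * P)]) a1 (sq_nonneg _)
        (by positivity)
  · simp only [AV, one_mul]
    rw [integral_finsetSum _ fun p hp => (hi p hp).1]
    refine (sum_le_card_nsmul _ _ (2 * K / P : ℝ) fun p hp => ?_).trans ?_
    · have : (P : ℝ) ≤ p := by exact_mod_cast (mem_Icc.1 hp).1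
      rw [(hi p hp).2]
      gcongr
    · have : ((Icc P (Λ * P)).card : ℝ) ≤ Λ * P := by exact_mod_cast card_Icc_le hP
      rw [nsmul_eq_mul, ← mul_div_assoc, div_le_iff₀ hP0]
      nlinarith

end Pool.Agent.MP_c853c5_nt.DT
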