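import Pool.Agent.MP_c853c5_nt.DT.Win

/-!
Uniform leaves with the mixed fourth moment and the dispersion bound.
-/

set_option autoImplicit false

open Finset

namespace Pool.Agent.MP_c853c5_nt.DT

open Pool.Agent.MP_c853c5_nt.S Pool.Agent.MP_c853c5_nt.R Pool.Agent.MP_c853c5_nt.REG
open Pool.Agent.MP_c853c5_nt.Y

/-- one sieved factor; the other factors carry the labels `0`, `1`, `2` -/
theorem ud_one {r n₀ : ℕ} {τ ν s δ c z : ℝ} {B : Fin r → Blk} (g : Fin r → Fin 3)
    (hU : UD τ ν s δ c n₀) (hz : z ≤ ν)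
    (hB : ∀ a l n m, InBox B a → l = ∑ i ∈ univ.filter (fun i => g i = 0), a i →
      n = ∑ i ∈ univ.filter (fun i => g i = 1), a i →
      m = ∑ i ∈ univ.filter (fun i => g i = 2), a i →
      m ≤ 1 - c ∧ max τ (τ / 2 + 2 * l) + max τ (l + 2 * n) + 2 * s ≤ 2 * c ∧
        l + n + 1 / 10 ≤ c) : DustOKG sysD τ B z := by
  classical
  have ⟨hτ, hs, _, _, c1, c2, _, _, _, a4, _⟩ := hU
  refine ⟨s / 2, by positivity, fun κ hκ => ⟨_,
    etaD_pos (N := r + 1 / κ + 1) (⌈1 / κ⌉₊ + 2 + n₀) hκ hs (by positivity),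
    ⌈1 / κ⌉₊ + 2 + n₀, fun j a q b ha hq hb h1 => ?_⟩⟩
  obtain ⟨b1, b2, b3⟩ := hB a _ _ _ ha rfl rfl rfl
  have e1 := sum_fiberwise univ g a
  rw [Fin.sum_univ_three] at e1
  set l := ∑ i ∈ univ.filter (fun i => g i = 0), a i with hl
  set n := ∑ i ∈ univ.filter (fun i => g i = 1), a i with hn
  set m := ∑ i ∈ univ.filter (fun i => g i = 2), a i with hm
  rcases le_or_gt c (b + l + n) with e | e
  · refine Or.inl ((w_one (l := l) (n := n) (m := m + ∑ i, q i) (by omega) (by linarith) ?_).group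
      (Sum.elim g fun _ => 2) fun i => le_of_eq ?_)
    · have : max τ (m + ∑ i, q i) ≤ 1 - c := max_le (by linarith) (by linarith)
      linarith
    · rw [sum_filter, Fintype.sum_sum_type]
      fin_cases i <;> simp [hl, hn, hm, sum_filter]
  · have h3 : 0 ≤ ∑ i, a i := sum_nonneg fun i _ => (ha i).1
    have h4 := card_le_of hκ hq (by linarith)
    exact Or.inr (crossD (a := fun o : Option (Fin r ⊕ Fin j) => o.elim b (Sum.elim a q))
      (univ.filter fun o => o.elim True (Sum.elim (fun i => g i ≠ 2) fun _ => False))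
      (univ.filter fun o => o.elim False (Sum.elim (fun _ => False) fun _ => True))
      hU hκ
      (disjoint_filter.2 (by rintro (_ | i | i) <;> simp))
      (by
        rintro (_ | i | i) h
        · simp at h
        · simp at h
        · exact ⟨trivial, (hq i).imp_right fun e => e.trans hz⟩)
      (by
        rintro (_ | i | i)
        exacts [hb, (ha i).1, hκ.le.trans (hq i).1])
      (by rw [Fintype.sum_option, Fintype.sum_sum_type, add_comm]; exact h1)
      (by
        have := sum_filter_add_sum_filter_not univ (fun i => g i = 2) a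
        rw [sum_filter, Fintype.sum_option, Fintype.sum_sum_type]
        simp only [sum_filter] at this hm
        simp
        simp only [ite_not] at this
        linarith)
      (by
        have := sum_filter_add_sum_filter_not univ (fun i => g i = 2) a
        rw [sum_filter, sum_filter, Fintype.sum_option, Fintype.sum_option, Fintype.sum_sum_type,
          Fintype.sum_sum_type]
        simp only [sum_filter] at this hm
        simp
        simp only [ite_not] at this
        linarith)
      (by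
        simp only [Fintype.card_option, Fintype.card_sum, Fintype.card_fin]
        push_cast
        linarith))

/-- two sieved factors; the other factors carry the labels `0`, `1` -/
theorem ud_two {r n₀ : ℕ} {τ ν s δ c z1 z2 lo hi : ℝ} {B : Fin r → Blk} (g : Fin r → Fin 2)
    (hU : UD τ ν s δ c n₀) (hz1 : z1 ≤ ν) (hz2 : z2 ≤ ν)
    (hB : ∀ a l m, InBox B a → l = ∑ i ∈ univ.filter (fun i => g i = 0), a i →
      m = ∑ i ∈ univ.filter (fun i => g i = 1), a i → m ≤ 1 - c ∧ τ / 2 + 2 * l + s ≤ c) :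
    DustOK2G sysD τ B z1 z2 lo hi := by
  classical
  have ⟨hτ, hs, _, _, c1, c2, _, _, _, a4, _⟩ := hU
  refine ⟨s / 2, by positivity, fun κ hκ => ⟨_,
    etaD_pos (N := r + 1 / κ + 1 / κ + 2) (⌈1 / κ⌉₊ + 2 + n₀) hκ hs (by positivity),
    ⌈1 / κ⌉₊ + 2 + n₀, fun j1 j2 a q1 q2 b1 b2 ha hq1 hq2 hb1 hb2 h1 _ _ => ?_⟩⟩
  obtain ⟨d1, d2⟩ := hB a _ _ ha rfl rfl
  have e1 := sum_fiberwise univ g a
  rw [Fin.sum_univ_two] at e1
  set l := ∑ i ∈ univ.filter (fun i => g i = 0), a i with hl
  set m := ∑ i ∈ univ.filter (fun i => g i = 1), a i with hm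
  have l0 : 0 ≤ l := sum_nonneg fun i _ => (ha i).1
  rcases le_or_gt c (b1 + b2 + l) with e | e
  · have k1 : max τ (m + (∑ i, q1 i + ∑ i, q2 i)) ≤ 1 - c := max_le (by linarith) (by linarith)
    have one : ∀ b β : ℝ, β < 1 / 10 → c ≤ b + β + l →
        E1ptW τ (s / 2) (⌈1 / κ⌉₊ + 2 + n₀) (fun o : Option (Fin r ⊕ (Fin j1 ⊕ Fin j2)) =>
          o.elim β (Sum.elim a (Sum.elim q1 q2))) b := fun b β k2 k3 => by
      refine E1ptW.of_pt ((e_one (g := β + l) (m := m + (∑ i, q1 i + ∑ i, q2 i)) (by omega)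
        (by linarith) (by linarith) (by linarith) (by linarith)).group
        (fun o => o.elim 0 (Sum.elim g fun _ => 1)) fun i => le_of_eq ?_)
      rw [sum_filter, Fintype.sum_option, Fintype.sum_sum_type]
      fin_cases i <;> simp [hl, hm, sum_filter]
    rcases lt_or_ge b2 (1 / 10) with k2 | k2
    · exact Or.inr (Or.inl (one b1 b2 k2 e))
    rcases lt_or_ge b1 (1 / 10) with k3 | k3
    · exact Or.inr (Or.inr (Or.inl (one b2 b1 k3 (by linarith))))
    refine Or.inr (Or.inr (Or.inr ((w_two (l := l) (m := m + (∑ i, q1 i + ∑ i, q2 i)) (by omega)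
      k3 k2 ?_).group (Sum.elim g fun _ => 1) fun i => le_of_eq ?_)))
    · have : max τ (τ / 2 + 2 * l) ≤ c - s := max_le (by linarith) (by linarith)
      linarith
    · rw [sum_filter, Fintype.sum_sum_type]
      fin_cases i <;> simp [hl, hm, sum_filter]
  · have hq : ∀ j, κ ≤ Sum.elim q1 q2 j ∧ Sum.elim q1 q2 j ≤ ν := by
      rintro (j | j)
      exacts [(hq1 j).imp_right fun e => e.trans hz1, (hq2 j).imp_right fun e => e.trans hz2]
    have hS : ∑ o : Option (Option (Fin r ⊕ (Fin j1 ⊕ Fin j2))),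
        (o.elim b1 fun o' => o'.elim b2 (Sum.elim a (Sum.elim q1 q2))) = 1 := by
      simp only [Fintype.sum_option, Fintype.sum_sum_type, Option.elim, Sum.elim_inl, Sum.elim_inr]
      linarith
    have h3 : 0 ≤ ∑ i, a i := sum_nonneg fun i _ => (ha i).1
    have h4 : 0 ≤ ∑ i, q1 i := sum_nonneg fun i _ => hκ.le.trans (hq1 i).1
    have h5 : 0 ≤ ∑ i, q2 i := sum_nonneg fun i _ => hκ.le.trans (hq2 i).1
    have h6 := card_le_of hκ hq1 (by linarith)
    have h7 := card_le_of hκ hq2 (by linarith)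
    exact Or.inl (crossD (a := fun o : Option (Option (Fin r ⊕ (Fin j1 ⊕ Fin j2))) =>
        o.elim b1 fun o' => o'.elim b2 (Sum.elim a (Sum.elim q1 q2)))
      (univ.filter fun o => o.elim True fun o' =>
        o'.elim True (Sum.elim (fun i => g i = 0) fun _ => False))
      (univ.filter fun o => o.elim False fun o' =>
        o'.elim False (Sum.elim (fun _ => False) fun _ => True))
      hU hκ
      (disjoint_filter.2 (by rintro (_ | _ | i | i) <;> simp))
      (by
        rintro (_ | _ | i | i) h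
        · simp at h
        · simp at h
        · simp at h
        · exact ⟨trivial, hq i⟩)
      (by
        rintro (_ | _ | i | i)
        exacts [hb1, hb2, (ha i).1, hκ.le.trans (hq i).1]) hS
      (by
        rw [sum_filter, Fintype.sum_option, Fintype.sum_option, Fintype.sum_sum_type]
        simp only [sum_filter] at hl
        simp
        linarith)
      (by
        rw [sum_filter, sum_filter, Fintype.sum_option, Fintype.sum_option, Fintype.sum_option,
          Fintype.sum_option, Fintype.sum_sum_type, Fintype.sum_sum_type]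
        simp only [sum_filter] at hl
        simp
        linarith)
      (by
        simp only [Fintype.card_option, Fintype.card_sum, Fintype.card_fin]
        push_cast
        linarith))

theorem ud_one_hi {r n₀ : ℕ} {τ ν s δ c z : ℝ} {B : Fin r → Blk} (g : Fin r → Fin 3)
    (hU : UD τ ν s δ c n₀) (hz : z ≤ ν) (h1 : hs B g 2 ≤ 1 - c)
    (h2 : max τ (τ / 2 + 2 * hs B g 0) + max τ (hs B g 0 + 2 * hs B g 1) + 2 * s ≤ 2 * c)
    (h3 : hs B g 0 + hs B g 1 + 1 / 10 ≤ c) : DustOKG sysD τ B z :=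
  ud_one g hU hz fun a l n m ha hl hn hm => by
    have a1 := le_hs ha hl
    have a2 := le_hs ha hn
    have a3 : max τ (τ / 2 + 2 * l) ≤ max τ (τ / 2 + 2 * hs B g 0) :=
      max_le_max le_rfl (by linarith)
    have a4 : max τ (l + 2 * n) ≤ max τ (hs B g 0 + 2 * hs B g 1) :=
      max_le_max le_rfl (by linarith)
    exact ⟨(le_hs ha hm).trans h1, by linarith, by linarith⟩

theorem ud_two_hi {r n₀ : ℕ} {τ ν s δ c z1 z2 lo hi : ℝ} {B : Fin r → Blk} (g : Fin r → Fin 2)
    (hU : UD τ ν s δ c n₀) (hz1 : z1 ≤ ν) (hz2 : z2 ≤ ν) (h1 : hs B g 1 ≤ 1 - c)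
    (h2 : τ / 2 + 2 * hs B g 0 + s ≤ c) : DustOK2G sysD τ B z1 z2 lo hi :=
  ud_two g hU hz1 hz2 fun a l m ha hl hm =>
    ⟨(le_hs ha hm).trans h1, by linarith [le_hs ha hl]⟩

end Pool.Agent.MP_c853c5_nt.DT
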