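import Pool.Agent.MP_c853c5_nt.DT.Defs
import Pool.Agent.MP_c853c5_nt.Y.UW

/-!
A threshold is crossed by a small prime: the window or the dispersion bound applies.
-/

set_option autoImplicit false

open Finset

namespace Pool.Agent.MP_c853c5_nt.DT

open Pool.Agent.MP_c853c5_nt.S Pool.Agent.MP_c853c5_nt.REG Pool.Agent.MP_c853c5_nt.Y
open Pool.Agent.MP_c853c5_nt.E (Con)

/-- the system with the mixed fourth moment and the dispersion bound -/
def sysD : Sys := sysW.or2 ⟨E1pt, E12pt, E3pt⟩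

theorem sysD_ok (h : sysW.OK) (h3 : E3D) : sysD.OK := h.or2 h3

lemma E3pt.mono {ι : Type} [Fintype ι] {τ η η' : ℝ} {K K' : ℕ} {pr : ι → Prop} {a : ι → ℝ}
    (h : E3pt τ η K pr a) (hK : K ≤ K') (hη : η' ≤ η) : E3pt τ η' K' pr a := by
  obtain ⟨A, i, j, r, h1, h2, h3, h4, h5, h6, h7, ⟨d1, d2, d3, d4, d5, d6, d7, d8, d9⟩, h9⟩ := h
  exact ⟨A, i, j, r, h1, h2.trans hK, h3, h4, h5, h6, hη.trans h7,
    ⟨by linarith, by linarith, by linarith, by linarith, by linarith, by linarith, by linarith,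
      by linarith, by linarith⟩, h9.mono hK hη le_rfl⟩

/-- the padded window lemma -/
theorem windowV {K : ℕ} {τ κ s η a p : ℝ} (hτ : 1 / 3 ≤ τ) (hτ2 : τ ≤ 1 / 2) (hκ : 0 < κ)
    (hp : κ ≤ p) (hp1 : p ≤ 1 / 10) (hs : 0 < s) (h0 : τ - p / 2 + s ≤ a) (hK : 1 / κ ≤ K)
    (hη : η ≤ κ / 2) (hη' : η ≤ s / 2) : S.Eval τ η K ![a, τ, p] ((τ + (a + p)) / 2) := by
  intro r v hr hrτ hv hc
  have hp0 : 0 < p := hκ.trans_le hp
  set h : ℕ := ⌈τ / p⌉₊ with hh
  have b1 : τ ≤ h * p := (div_le_iff₀ hp0).1 (Nat.le_ceil _)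
  have b2 : (h - 1) * p ≤ τ := by
    have := Nat.ceil_lt_add_one (show 0 ≤ τ / p by positivity)
    rw [← hh] at this
    have : (h : ℝ) - 1 ≤ τ / p := by linarith
    exact (le_div_iff₀ hp0).1 this
  have b3 : (3 : ℝ) ≤ h := by nlinarith
  have b4 : (h : ℝ) ≤ K := by
    have : 1 ≤ K * κ := (div_le_iff₀ hκ).1 hK
    have : (0 : ℝ) ≤ K := Nat.cast_nonneg _
    nlinarith
  have b5 : h ≤ K := by exact_mod_cast b4
  have b6 : 3 ≤ h := by exact_mod_cast b3
  have c0 := hc ![1, 0, 0] (by intro j; fin_cases j <;> simp <;> omega)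
  have c1 := hc ![0, 1, 0] (by intro j; fin_cases j <;> simp <;> omega)
  have c2 := hc ![0, 0, h] (by intro j; fin_cases j <;> simp <;> omega)
  have c3 := hc ![0, 0, h - 1] (by intro j; fin_cases j <;> simp <;> omega)
  have v2 := hv 2
  have hcast : ((h - 1 : ℕ) : ℝ) = h - 1 := by
    rw [Nat.cast_sub (by omega)]; simp
  simp only [Fin.sum_univ_three, Matrix.cons_val_zero, Matrix.cons_val_one, Matrix.cons_val,
    Nat.cast_one, Nat.cast_zero, one_mul, zero_mul, add_zero, zero_add, hcast] at c0 c1 c2 c3 v2 ⊢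
  have F1 : r ≤ 2 * (h * (p / 2 - v 2)) := by
    have := c2.1
    rw [max_eq_right b1] at this
    linarith
  have F2 : r ≤ τ - (h - 1) * p + 2 * ((h - 1) * (p / 2 - v 2)) := by
    have := c3.1
    rw [max_eq_left b2] at this
    linarith
  have hux : r ≤ max (2 * (a / 2 - v 0)) (τ - 2 * a + 6 * (a / 2 - v 0)) :=
    c0.2.1.trans (max_le_max (by linarith) (by linarith))
  have M1 : r ≤ 2 * (τ / 2 - v 1) := by
    have := c1.1
    rw [max_self] at this
    linarith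
  have := win_core hτ2 hp0 hp1 hs h0 (by linarith) hη' hr hrτ (by linarith) b3 b2
    (d0 := a / 2 - v 0) (by linarith [c0.1]) hux M1 F1 F2
  linarith

/-- the dispersion bound with a small prime and a long last group -/
lemma e3_win {ι : Type} [Fintype ι] [d : DecidableEq ι] {τ κ s η : ℝ} {K r : ℕ} {pr : ι → Prop}
    {a : ι → ℝ} (A : Finset ι) (i : ι) (hτ : 1 / 3 ≤ τ) (hτ2 : τ ≤ 1 / 2) (hκ : 0 < κ)
    (hs : 0 < s) (hη0 : 0 < η) (hi : i ∉ A) (hpr : pr i) (h2 : 2 ≤ r) (hr : r ≤ K)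
    (hp : κ ≤ a i) (hp1 : a i ≤ 1 / 10) (hK : 1 / κ ≤ K) (hη : η ≤ κ / 2) (hη' : η ≤ s / 2)
    (hN : (Fintype.card ι : ℝ) * η ≤ 1 / 4)
    (h0 : τ - a i / 2 + s ≤ ∑ l ∈ (univ \ A).erase i, a l)
    (hD : DispOK τ η r (∑ l ∈ A, a l) (a i) (∑ l ∈ (univ \ A).erase i, a l)) :
    E3pt τ η K pr a := by
  obtain rfl : d = fun a b => Classical.propDecidable (a = b) := Subsingleton.elim _ _
  let _ : DecidableEq ι := fun a b => Classical.propDecidable (a = b)
  have : Nonempty ι := ⟨i⟩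
  obtain ⟨j, hj, hj'⟩ := exists_large (a := a) ((univ \ A).erase i) hη0 (by linarith)
  have hiA : i ∈ univ \ A := mem_sdiff.2 ⟨mem_univ _, hi⟩
  refine ⟨A, i, j, r, h2, hr, hi, (mem_sdiff.1 (mem_of_mem_erase hj)).2,
    (ne_of_mem_erase hj).symm, hpr, hj', hD, ?_⟩
  have key := (windowV hτ hτ2 hκ hp hp1 hs h0 hK hη hη').group
    (b := fun o : Option ι => o.elim τ fun l => if l ∈ A then 0 else a l)
    (fun o : Option ι => o.elim 1 fun l => if l = i then 2 else 0) fun n => le_of_eq ?_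
  · rw [sum_erase_add _ _ hiA] at key
    exact key
  rw [sum_filter, Fintype.sum_option]
  fin_cases n
  · simp only [Option.elim, Fin.zero_eta, Matrix.cons_val_zero, one_ne_zero, if_false, zero_add]
    rw [← sum_subset (subset_univ ((univ \ A).erase i)) fun l _ hl => ?_]
    · refine sum_congr rfl fun l hl => ?_
      rw [if_neg (ne_of_mem_erase hl), if_pos rfl, if_neg (mem_sdiff.1 (mem_of_mem_erase hl)).2]
    · by_cases e : l = i
      · simp [e]
      · have : l ∈ A := by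
          by_contra c
          exact hl (mem_erase.2 ⟨e, mem_sdiff.2 ⟨mem_univ _, c⟩⟩)
        simp [this]
  · simp only [Option.elim, Fin.mk_one, Matrix.cons_val_one, Matrix.cons_val_zero, if_true]
    rw [sum_eq_zero fun l _ => by split_ifs <;> simp_all, add_zero]
  · simp only [Option.elim, Fin.reduceFinMk, Matrix.cons_val, Fin.reduceEq, if_false, zero_add]
    rw [sum_eq_single i (fun l _ hl => by simp [hl]) (by simp)]
    simp [hi]

/-- the conditions on the level `ν`, the threshold `c` and the power `r` -/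
structure UD (τ ν s δ c : ℝ) (r : ℕ) : Prop where
  t : 2 / 5 ≤ τ
  s0 : 0 < s
  n : ν ≤ 1 / 10
  r2 : 2 ≤ r
  c1 : τ + δ ≤ c
  c2 : c + τ + δ ≤ 1
  a1 : 1 + 3 * s ≤ 2 * τ + 3 * δ
  a2 : (2 * r - 1) * ν + s ≤ τ + δ
  a3 : (2 * r - 1) * (ν - δ) + 2 * ν + 3 * τ / 2 + s ≤ 1
  a4 : 1 / 400 + 2 * s ≤ δ
  a5 : ν + s ≤ r * δ

lemma UD.disp {τ ν s δ c η x y u : ℝ} {r : ℕ} (h : UD τ ν s δ c r) (hη : η ≤ s) (hu : u ≤ ν)
    (hu' : 2 * (δ - s) ≤ u) (hx : τ + δ - u ≤ x) (hxy : x ≤ y) (hy : y ≤ 1 - τ - δ)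
    (h1 : x + y + u = 1) : DispOK τ η r x u y := by
  obtain ⟨t, s0, n, r2, c1, c2, a1, a2, a3, a4, a5⟩ := h
  have hr : (2 : ℝ) ≤ r := by exact_mod_cast r2
  have m1 := min_le_left (τ / 2) (τ / 6 + (y - u) / 2)
  have e1 : (2 * r - 1) * u ≤ (2 * r - 1) * ν := mul_le_mul_of_nonneg_left hu (by linarith)
  have e2 : (r - 1) * δ ≤ (r - 1) * (1 - 2 * τ) := mul_le_mul_of_nonneg_left (by linarith) (by linarith)
  have e3 : 1 * u ≤ (r - 1) * u := mul_le_mul_of_nonneg_right (by linarith) (by linarith)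
  unfold DispOK
  rcases le_total x τ with g | g
  · rw [max_eq_right (by linarith)]
    have e4 : r * (τ - x) ≤ r * (u - δ) := mul_le_mul_of_nonneg_left (by linarith) (by linarith)
    have e5 : (2 * r - 1) * (τ - x) ≤ (2 * r - 1) * (ν - δ) :=
      mul_le_mul_of_nonneg_left (by linarith) (by linarith)
    have e6 : y + u - τ = 1 - 2 * τ + (τ - x) := by linarith
    refine ⟨by linarith, ?_, by linarith, by linarith, by linarith, by linarith, by linarith,
      by linarith, by linarith⟩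
    rw [e6]
    linarith
  · rw [max_eq_left (by linarith)]
    have e4 : 1 * (y + u - τ) ≤ (r - 1) * (y + u - τ) :=
      mul_le_mul_of_nonneg_right (by linarith) (by linarith)
    exact ⟨by linarith, by linarith, by linarith, by linarith, by linarith, by linarith,
      by linarith, by linarith, by linarith⟩

/-- the saving in the crossing lemma -/
noncomputable def etaD (κ s N : ℝ) (K : ℕ) : ℝ :=
  min (min (min (κ / 2) (s / 2)) (min κ (1 / (13 * ((K : ℝ) + 1)) / N))) (1 / 4 / N)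

lemma etaD_pos {κ s N : ℝ} (K : ℕ) (hκ : 0 < κ) (hs : 0 < s) (hN : 0 < N) : 0 < etaD κ s N K := by
  unfold etaD
  positivity

/-- a threshold is crossed by a small prime -/
lemma crossD {ι : Type} [Fintype ι] [DecidableEq ι] {τ ν s δ c κ N : ℝ} {r : ℕ} {a : ι → ℝ}
    {pr : ι → Prop} (A D : Finset ι) (h : UD τ ν s δ c r) (hκ : 0 < κ) (hAD : Disjoint A D)
    (hq : ∀ j ∈ D, pr j ∧ κ ≤ a j ∧ a j ≤ ν) (h0 : ∀ i, 0 ≤ a i) (h1 : ∑ i, a i = 1)
    (hA : ∑ i ∈ A, a i < c) (hc : c ≤ ∑ i ∈ A, a i + ∑ i ∈ D, a i)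
    (hN : (Fintype.card ι : ℝ) ≤ N) :
    sysD.q2 τ (etaD κ s N (⌈1 / κ⌉₊ + 2 + r)) (⌈1 / κ⌉₊ + 2 + r) pr a := by
  obtain ⟨T, j, hj, h2, h3⟩ := exists_cross (J := D) (q := fun j => a j) hA
    (by rwa [sum_coe_sort D a])
  obtain ⟨hp, h4, h5⟩ := hq j j.2
  have ⟨t, s0, n, r2, c1, c2, a1, a2, a3, a4, a5⟩ := h
  set U := A ∪ T.map (Function.Embedding.subtype _) with hU
  have u1 : ∑ i ∈ U, a i = ∑ i ∈ A, a i + ∑ k ∈ T, a k := by
    rw [hU, sum_union, sum_map]
    · rfl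
    · refine disjoint_of_subset_right (fun i hi => ?_) hAD
      obtain ⟨k, -, rfl⟩ := mem_map.1 hi
      exact k.2
  have u2 : (j : ι) ∉ U := fun h => by
    rcases mem_union.1 h with h | h
    · exact disjoint_left.1 hAD h j.2
    · obtain ⟨k, hk, e⟩ := mem_map.1 h
      exact hj (Subtype.ext e ▸ hk)
  rw [← u1] at h2 h3
  have : Nonempty ι := ⟨j⟩
  have n0 : (0 : ℝ) < Fintype.card ι := by exact_mod_cast Fintype.card_pos
  have n1 : 0 < N := n0.trans_le hN
  set K := ⌈1 / κ⌉₊ + 2 + r with hK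
  have k1 : 1 / κ ≤ K := (Nat.le_ceil _).trans (by exact_mod_cast (by omega : ⌈1 / κ⌉₊ ≤ K))
  rcases le_total (a j) (2 * (δ - s)) with g | g
  · obtain ⟨k, hk, e⟩ := cross (τ := τ) (ν := a j) (s := s) (c := c) (κ := κ) (a := a) U {(j : ι)}
      (by linarith) s0 (by linarith) (by linarith) (by linarith) hκ
      (disjoint_singleton_right.2 u2) (fun k hk => by rw [mem_singleton.1 hk]; exact ⟨h4, le_rfl⟩)
      h1 h2 (by rwa [sum_singleton])
    exact Or.inl ((e2pt_of_eval (e.mono (by omega : _ ≤ K) le_rfl le_rfl) (by positivity)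
      (by linarith) h0 h1 hp h4 hN).mono le_rfl (min_le_left _ _))
  have e0 := etaD_pos K hκ s0 n1
  have e1 : etaD κ s N K ≤ κ / 2 := (min_le_left _ _).trans ((min_le_left _ _).trans (min_le_left _ _))
  have e2 : etaD κ s N K ≤ s / 2 :=
    (min_le_left _ _).trans ((min_le_left _ _).trans (min_le_right _ _))
  have e3 : (Fintype.card ι : ℝ) * etaD κ s N K ≤ 1 / 4 := by
    refine (mul_le_mul hN (min_le_right _ _) e0.le n1.le).trans (le_of_eq ?_)
    field_simp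
  have sp : ∀ B : Finset ι, (j : ι) ∉ B →
      ∑ l ∈ (univ \ B).erase j, a l = 1 - ∑ l ∈ B, a l - a j := fun B hB => by
    have b1 := sum_erase_add (univ \ B) a (mem_sdiff.2 ⟨mem_univ _, hB⟩)
    have b2 := sum_sdiff (subset_univ B) (f := a)
    linarith
  have fin : ∀ B : Finset ι, (j : ι) ∉ B → τ + δ - a j ≤ ∑ l ∈ B, a l →
      ∑ l ∈ B, a l ≤ 1 - ∑ l ∈ B, a l - a j → E3pt τ (etaD κ s N K) K pr a := fun B hB b1 b2 =>
    e3_win (κ := κ) (s := s) B j (by linarith) (by linarith) hκ s0 e0 hB hp r2 (by omega) h4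
      (by linarith) k1 e1 e2 e3 (by rw [sp B hB]; linarith)
      (by
        rw [sp B hB]
        exact h.disp (by linarith) h5 g b1 b2 (by linarith) (by ring))
  rcases le_total (∑ l ∈ U, a l) (1 - ∑ l ∈ U, a l - a j) with d | d
  · exact Or.inr (fin U u2 (by linarith) d)
  · exact Or.inr (fin ((univ \ U).erase j) (notMem_erase _ _) (by rw [sp U u2]; linarith)
      (by rw [sp U u2]; linarith))

end Pool.Agent.MP_c853c5_nt.DT
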